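import Mathlib

/-! Locally constant functions and markers for a homeomorphism. -/

set_option autoImplicit false

open Set Filter Topology

namespace Pool.Agent.Y334.FS

section lc

variable {X : Type} [TopologicalSpace X]

/-- locally constant -/
def LC {β : Type} (f : X → β) : Prop := ∀ x, ∀ᶠ y in 𝓝 x, f y = f x

theorem LC.comp {β : Type} {f : X → β} (hf : LC f) {φ : X → X} (hφ : Continuous φ) :
    LC (fun x => f (φ x)) := fun x => (hφ.tendsto x).eventually (hf (φ x))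

theorem lc_find {P : X → ℕ → Prop} [∀ x, DecidablePred (P x)]
    (hP : ∀ x j, ∀ᶠ y in 𝓝 x, (P y j ↔ P x j)) (h : ∀ x, ∃ j, P x j) :
    LC fun x => Nat.find (h x) := by
  intro x
  have h1 : ∀ᶠ y in 𝓝 x, ∀ j ∈ Finset.range (Nat.find (h x) + 1), (P y j ↔ P x j) :=
    (Filter.eventually_all_finset _).2 fun j _ => hP x j
  filter_upwards [h1] with y hy
  rw [Nat.find_eq_iff]
  refine ⟨(hy _ (Finset.self_mem_range_succ _)).2 (Nat.find_spec (h x)), fun m hm h' => ?_⟩
  exact Nat.find_min (h x) hm ((hy m (Finset.mem_range.2 (by omega))).1 h')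

theorem ev_clopen {M : Set X} (hM : IsClopen M) {φ : X → X} (hφ : Continuous φ) (x : X) :
    ∀ᶠ y in 𝓝 x, (φ y ∈ M ↔ φ x ∈ M) := by
  by_cases h : φ x ∈ M
  · filter_upwards [(hM.isOpen.preimage hφ).mem_nhds h] with y hy
    exact ⟨fun _ => h, fun _ => hy⟩
  · filter_upwards [(hM.compl.isOpen.preimage hφ).mem_nhds h] with y hy
    exact ⟨fun h' => absurd h' hy, fun h' => absurd h' h⟩

theorem cont_of_lc {β : Type} {f : X → β} (hf : LC f) {φ : β → X → X}
    (hφ : ∀ k, Continuous (φ k)) : Continuous fun x => φ (f x) x := by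
  rw [continuous_iff_continuousAt]
  intro x
  refine (hφ (f x)).continuousAt.congr ?_
  filter_upwards [hf x] with y hy
  rw [hy]

end lc

section homeo

variable {X : Type} [TopologicalSpace X] (T : X ≃ₜ X)

theorem ts_tk {j k : ℕ} (h : j ≤ k) (x : X) :
    (⇑T.symm)^[j] ((⇑T)^[k] x) = (⇑T)^[k - j] x := by
  have e : k = j + (k - j) := by omega
  conv_lhs => rw [e, Function.iterate_add_apply]
  exact (Function.LeftInverse.iterate T.symm_apply_apply j) _

theorem tk_ts {j k : ℕ} (h : j ≤ k) (x : X) :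
    (⇑T)^[j] ((⇑T.symm)^[k] x) = (⇑T.symm)^[k - j] x := by
  have e : k = j + (k - j) := by omega
  conv_lhs => rw [e, Function.iterate_add_apply]
  exact (Function.LeftInverse.iterate T.apply_symm_apply j) _

theorem tk_ts' {j k : ℕ} (h : j ≤ k) (x : X) :
    (⇑T)^[k] ((⇑T.symm)^[j] x) = (⇑T)^[k - j] x := by
  have e : k = (k - j) + j := by omega
  conv_lhs => rw [e, Function.iterate_add_apply]
  rw [(Function.LeftInverse.iterate T.apply_symm_apply j) x]

/-- a clopen set of markers, with a clopen set of red markers, which alternate -/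
structure Mk (n : ℕ) (M Rd : Set X) : Prop where
  cM : IsClopen M
  cR : IsClopen Rd
  fwd : ∀ x, ∃ k, k ≤ 4 * n ∧ (⇑T)^[k] x ∈ M
  bwd : ∀ x, ∃ k, (⇑T.symm)^[k] x ∈ M
  gap : ∀ x ∈ M, ∃ k, n ≤ k ∧ k ≤ 3 * n ∧ (⇑T)^[k] x ∈ M ∧
    (∀ j, 1 ≤ j → j < k → (⇑T)^[j] x ∉ M) ∧ ((⇑T)^[k] x ∈ Rd ↔ x ∉ Rd)

variable {T} {n : ℕ} {M Rd : Set X}

namespace Mk

theorem exn (h : Mk T n M Rd) (x : X) : ∃ k, 1 ≤ k ∧ (⇑T)^[k] x ∈ M := by
  obtain ⟨k, -, hk⟩ := h.fwd (T x)
  refine ⟨k + 1, by omega, ?_⟩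
  rw [Function.iterate_succ_apply]
  exact hk

theorem ext' (h : Mk T n M Rd) (x : X) : ∃ k, (⇑T)^[k] x ∈ M := (h.fwd x).imp fun _ h => h.2

open scoped Classical in
/-- the time to the next marker, at least one -/
noncomputable def nx (h : Mk T n M Rd) (x : X) : ℕ := Nat.find (h.exn x)

open scoped Classical in
/-- the time from the last marker -/
noncomputable def bk (h : Mk T n M Rd) (x : X) : ℕ := Nat.find (h.bwd x)

open scoped Classical in
/-- the time to the next marker -/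
noncomputable def tt (h : Mk T n M Rd) (x : X) : ℕ := Nat.find (h.ext' x)

/-- the next marker -/
noncomputable def next (h : Mk T n M Rd) (x : X) : X := (⇑T)^[h.nx x] x

/-- the last marker -/
noncomputable def bs (h : Mk T n M Rd) (x : X) : X := (⇑T.symm)^[h.bk x] x

/-- the last marker, strictly before -/
noncomputable def pv (h : Mk T n M Rd) (x : X) : X := h.bs (T.symm x)

theorem nx_pos (h : Mk T n M Rd) (x : X) : 1 ≤ h.nx x := by
  classical
  exact (Nat.find_spec (h.exn x)).1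

theorem next_mem (h : Mk T n M Rd) (x : X) : h.next x ∈ M := by
  classical
  exact (Nat.find_spec (h.exn x)).2

theorem not_mem_nx (h : Mk T n M Rd) {x : X} {j : ℕ} (h1 : 1 ≤ j) (h2 : j < h.nx x) :
    (⇑T)^[j] x ∉ M := by
  classical
  exact fun h3 => Nat.find_min (h.exn x) h2 ⟨h1, h3⟩

theorem nx_eq (h : Mk T n M Rd) {x : X} {k : ℕ} (h1 : 1 ≤ k) (h2 : (⇑T)^[k] x ∈ M)
    (h3 : ∀ j, 1 ≤ j → j < k → (⇑T)^[j] x ∉ M) : h.nx x = k := by
  classical
  refine (Nat.find_eq_iff _).2 ⟨⟨h1, h2⟩, fun j hj h4 => h3 j h4.1 hj h4.2⟩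

theorem bs_mem (h : Mk T n M Rd) (x : X) : h.bs x ∈ M := by
  classical
  exact Nat.find_spec (h.bwd x)

theorem not_mem_bk (h : Mk T n M Rd) {x : X} {j : ℕ} (h2 : j < h.bk x) :
    (⇑T.symm)^[j] x ∉ M := by
  classical
  exact Nat.find_min (h.bwd x) h2

theorem tt_mem (h : Mk T n M Rd) (x : X) : (⇑T)^[h.tt x] x ∈ M := by
  classical
  exact Nat.find_spec (h.ext' x)

theorem tt_le (h : Mk T n M Rd) (x : X) : h.tt x ≤ 4 * n := by
  classical
  obtain ⟨k, h1, h2⟩ := h.fwd x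
  exact (Nat.find_min' (h.ext' x) h2).trans h1

theorem nx_gap (h : Mk T n M Rd) (hn : 1 ≤ n) {x : X} (hx : x ∈ M) :
    n ≤ h.nx x ∧ h.nx x ≤ 3 * n ∧ (h.next x ∈ Rd ↔ x ∉ Rd) := by
  obtain ⟨k, h1, h2, h3, h4, h5⟩ := h.gap x hx
  have e := h.nx_eq (by omega) h3 h4
  refine ⟨e ▸ h1, e ▸ h2, ?_⟩
  rw [next, e]
  exact h5

theorem bk_gap (h : Mk T n M Rd) {x : X} (hx : x ∈ M) {j : ℕ} (hj : j < h.nx x) :
    h.bk ((⇑T)^[j] x) = j := by
  classical
  refine (Nat.find_eq_iff _).2 ⟨?_, fun i hi h1 => ?_⟩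
  · rw [ts_tk T le_rfl, Nat.sub_self]
    exact hx
  · rw [ts_tk T hi.le] at h1
    exact h.not_mem_nx (by omega) (by omega) h1

theorem bs_gap (h : Mk T n M Rd) {x : X} (hx : x ∈ M) {j : ℕ} (hj : j < h.nx x) :
    h.bs ((⇑T)^[j] x) = x := by
  rw [bs, h.bk_gap hx hj, ts_tk T le_rfl, Nat.sub_self]
  rfl

theorem pv_next (h : Mk T n M Rd) {x : X} (hx : x ∈ M) : h.pv (h.next x) = x := by
  have h1 := h.nx_pos x
  have h2 : T.symm (h.next x) = (⇑T)^[h.nx x - 1] x := ts_tk T h1 x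
  rw [pv, h2]
  exact h.bs_gap hx (by omega)

theorem pv_mem (h : Mk T n M Rd) (x : X) : h.pv x ∈ M := h.bs_mem _

theorem next_pv (h : Mk T n M Rd) {x : X} (hx : x ∈ M) : h.next (h.pv x) = x := by
  have h0 : h.pv x = (⇑T.symm)^[h.bk (T.symm x) + 1] x := by
    rw [Function.iterate_succ_apply]; rfl
  have h1 : h.nx (h.pv x) = h.bk (T.symm x) + 1 := by
    apply h.nx_eq (by omega)
    · rw [h0, tk_ts T le_rfl, Nat.sub_self]
      exact hx
    · intro j h2 h3 h4
      rw [h0, tk_ts T h3.le] at h4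
      obtain ⟨i, hi⟩ : ∃ i, h.bk (T.symm x) + 1 - j = i + 1 := ⟨h.bk (T.symm x) - j, by omega⟩
      rw [hi, Function.iterate_succ_apply] at h4
      exact h.not_mem_bk (by omega) h4
  rw [next, h1, h0, tk_ts T le_rfl, Nat.sub_self]
  rfl

theorem nx_lc (h : Mk T n M Rd) : LC h.nx := by
  classical
  apply lc_find
  intro x j
  filter_upwards [ev_clopen h.cM (T.continuous.iterate j) x] with y hy
  rw [hy]

theorem bk_lc (h : Mk T n M Rd) : LC h.bk := by
  classical
  apply lc_find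
  intro x j
  exact ev_clopen h.cM (T.symm.continuous.iterate j) x

theorem tt_lc (h : Mk T n M Rd) : LC h.tt := by
  classical
  apply lc_find
  intro x j
  exact ev_clopen h.cM (T.continuous.iterate j) x

theorem next_cont (h : Mk T n M Rd) : Continuous h.next :=
  cont_of_lc h.nx_lc fun k => T.continuous.iterate k

theorem bs_cont (h : Mk T n M Rd) : Continuous h.bs :=
  cont_of_lc h.bk_lc fun k => T.symm.continuous.iterate k

theorem pv_cont (h : Mk T n M Rd) : Continuous h.pv := h.bs_cont.comp T.symm.continuous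

/-- every point is in a gap -/
theorem decomp (h : Mk T n M Rd) (y : X) : ∃ x ∈ M, ∃ j < h.nx x, y = (⇑T)^[j] x := by
  refine ⟨h.bs y, h.bs_mem y, h.bk y, ?_, ?_⟩
  · by_contra hcon
    push Not at hcon
    have h1 := h.nx_pos (h.bs y)
    have h2 := h.next_mem (h.bs y)
    have h3 : (⇑T)^[h.nx (h.bs y)] ((⇑T.symm)^[h.bk y] y) ∈ M := h2
    rw [tk_ts T hcon] at h3
    exact h.not_mem_bk (x := y) (by omega) h3
  · rw [bs, tk_ts T le_rfl, Nat.sub_self]
    rfl

end Mk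

/-- **Markers.** -/
theorem markers [CompactSpace X] [T2Space X] [TotallyDisconnectedSpace X] {m : ℕ} (hm : 1 ≤ m)
    (hT : ∀ x : X, ∀ k, 1 ≤ k → k < m → (⇑T)^[k] x ≠ x) :
    ∃ M : Set X, IsClopen M ∧ (∀ x ∈ M, ∀ k, 1 ≤ k → k < m → (⇑T)^[k] x ∉ M) ∧
      ∀ x, ∃ k < m, (⇑T)^[k] x ∈ M ∨ (⇑T.symm)^[k] x ∈ M := by
  classical
  -- small neighbourhoods
  have hloc : ∀ x : X, ∃ U : Set X, IsClopen U ∧ x ∈ U ∧
      ∀ y ∈ U, ∀ k, 1 ≤ k → k < m → (⇑T)^[k] y ∉ U := by
    intro x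
    have h1 : ∀ k ∈ Finset.Ico 1 m, ∀ᶠ p : X × X in 𝓝 x ×ˢ 𝓝 x, (⇑T)^[k] p.1 ≠ p.2 := by
      intro k hk
      rw [Finset.mem_Ico] at hk
      rw [← nhds_prod_eq]
      have ho : IsOpen {p : X × X | (⇑T)^[k] p.1 ≠ p.2} :=
        isOpen_ne_fun ((T.continuous.iterate k).comp continuous_fst) continuous_snd
      exact ho.mem_nhds (hT x k hk.1 hk.2)
    have h2 := (Filter.eventually_all_finset _).2 h1
    obtain ⟨V, hV, hV2⟩ := (Filter.eventually_prod_self_iff
      (r := fun a b => ∀ i ∈ Finset.Ico 1 m, (⇑T)^[i] a ≠ b)).1 h2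
    obtain ⟨V', hV', hV'o, hxV'⟩ := mem_nhds_iff.1 hV
    obtain ⟨U, hU, hxU, hUV⟩ := compact_exists_isClopen_in_isOpen hV'o hxV'
    refine ⟨U, hU, hxU, fun y hy k hk1 hk2 hky => ?_⟩
    exact hV2 y (hV' (hUV hy)) _ (hV' (hUV hky)) k (Finset.mem_Ico.2 ⟨hk1, hk2⟩) rfl
  choose U hU hxU hUT using hloc
  have key : ∀ t : Finset X, ∃ M : Set X, IsClopen M ∧
      (∀ x ∈ M, ∀ k, 1 ≤ k → k < m → (⇑T)^[k] x ∉ M) ∧
      ∀ a ∈ t, ∀ x ∈ U a, ∃ k < m, (⇑T)^[k] x ∈ M ∨ (⇑T.symm)^[k] x ∈ M := by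
    intro t
    induction t using Finset.induction_on with
    | empty => exact ⟨∅, isClopen_empty, by simp, by simp⟩
    | insert a t _ ih =>
      obtain ⟨M, hM, hM1, hM2⟩ := ih
      set Z : Set X := ⋃ k ∈ Finset.range m, ((⇑T)^[k] ⁻¹' M ∪ (⇑T.symm)^[k] ⁻¹' M) with hZ
      have hZc : IsClopen Z := by
        apply isClopen_biUnion_finset
        intro k _
        exact (hM.preimage (T.continuous.iterate k)).union
          (hM.preimage (T.symm.continuous.iterate k))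
      have hZm : ∀ y, y ∈ Z ↔ ∃ k < m, (⇑T)^[k] y ∈ M ∨ (⇑T.symm)^[k] y ∈ M := by
        intro y
        simp only [hZ, mem_iUnion, Finset.mem_range, exists_prop]
        rfl
      refine ⟨M ∪ (U a \ Z), hM.union ((hU a).diff hZc), ?_, ?_⟩
      · rintro x (hx | hx) k hk1 hk2 (hy | hy)
        · exact hM1 x hx k hk1 hk2 hy
        · apply hy.2
          rw [hZm]
          refine ⟨k, hk2, Or.inr ?_⟩
          rw [ts_tk T le_rfl, Nat.sub_self]
          exact hx
        · apply hx.2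
          rw [hZm]
          exact ⟨k, hk2, Or.inl hy⟩
        · exact hUT a x hx.1 k hk1 hk2 hy.1
      · intro b hb x hx
        rcases Finset.mem_insert.1 hb with rfl | hb
        · by_cases hxZ : x ∈ Z
          · obtain ⟨k, hk, h⟩ := (hZm x).1 hxZ
            exact ⟨k, hk, h.imp (fun h => Or.inl h) fun h => Or.inl h⟩
          · exact ⟨0, by omega, Or.inl (Or.inr ⟨hx, hxZ⟩)⟩
        · obtain ⟨k, hk, h⟩ := hM2 b hb x hx
          exact ⟨k, hk, h.imp (fun h => Or.inl h) fun h => Or.inl h⟩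
  obtain ⟨t, -, ht⟩ := isCompact_univ.elim_nhds_subcover U fun x _ => (hU x).isOpen.mem_nhds (hxU x)
  obtain ⟨M, hM, hM1, hM2⟩ := key t
  refine ⟨M, hM, hM1, fun x => ?_⟩
  obtain ⟨a, ha, hxa⟩ := mem_iUnion₂.1 (ht (mem_univ x))
  exact hM2 a ha x hxa

/-- **Alternating markers.** -/
theorem exists_mk [CompactSpace X] [T2Space X] [TotallyDisconnectedSpace X] {n : ℕ} (hn : 1 ≤ n)
    (hT : ∀ x : X, ∀ k, 1 ≤ k → k < 2 * n → (⇑T)^[k] x ≠ x) :
    ∃ M Rd : Set X, Mk T n M Rd := by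
  obtain ⟨M, hM, h1, h2⟩ := markers (T := T) (m := 2 * n) (by omega) hT
  -- the next red marker
  have hnext : ∀ x, ∃ k, 1 ≤ k ∧ k ≤ 4 * n ∧ (⇑T)^[k] x ∈ M := by
    intro x
    obtain ⟨k, hk, h | h⟩ := h2 ((⇑T)^[2 * n] x)
    · refine ⟨k + 2 * n, by omega, by omega, ?_⟩
      rwa [Function.iterate_add_apply]
    · rw [ts_tk T hk.le] at h
      exact ⟨2 * n - k, by omega, by omega, h⟩
  have hnext' : ∀ x, ∃ k, 1 ≤ k ∧ k ≤ 4 * n - 1 ∧ (⇑T)^[k] x ∈ M := by
    intro x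
    obtain ⟨k, hk, h | h⟩ := h2 ((⇑T)^[2 * n] x)
    · refine ⟨k + 2 * n, by omega, by omega, ?_⟩
      rwa [Function.iterate_add_apply]
    · rw [ts_tk T hk.le] at h
      exact ⟨2 * n - k, by omega, by omega, h⟩
  have hback : ∀ x, ∃ k, (⇑T.symm)^[k] x ∈ M := by
    intro x
    obtain ⟨k, hk, h | h⟩ := h2 ((⇑T.symm)^[2 * n] x)
    · rw [tk_ts T hk.le] at h
      exact ⟨_, h⟩
    · refine ⟨k + 2 * n, ?_⟩
      rwa [Function.iterate_add_apply]
  refine ⟨M ∪ (⇑T.symm)^[n] ⁻¹' M, M, hM.union (hM.preimage (T.symm.continuous.iterate n)), hM,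
    fun x => ?_, fun x => ?_, ?_⟩
  · obtain ⟨k, -, hk, h⟩ := hnext x
    exact ⟨k, hk, Or.inl h⟩
  · obtain ⟨k, h⟩ := hback x
    exact ⟨k, Or.inl h⟩
  · rintro x (hx | hx)
    · refine ⟨n, le_rfl, by omega, Or.inr ?_, ?_, ?_⟩
      · show (⇑T.symm)^[n] ((⇑T)^[n] x) ∈ M
        rw [ts_tk T le_rfl, Nat.sub_self]
        exact hx
      · rintro j hj1 hj2 (h | h)
        · exact h1 x hx j hj1 (by omega) h
        · have e : (⇑T)^[n - j] ((⇑T.symm)^[n] ((⇑T)^[j] x)) = x := by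
            rw [tk_ts T (by omega)]
            have : n - (n - j) = j := by omega
            rw [this, ts_tk T le_rfl, Nat.sub_self]
            rfl
          have h3 := h1 _ h (n - j) (by omega) (by omega)
          rw [e] at h3
          exact h3 hx
      · constructor
        · intro h _
          exact h1 x hx n hn (by omega) h
        · intro h
          exact absurd hx h
    · set x₀ : X := (⇑T.symm)^[n] x with hx₀
      have hx₀' : x₀ ∈ M := hx
      have hxx : x = (⇑T)^[n] x₀ := by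
        rw [hx₀, tk_ts T le_rfl, Nat.sub_self]
        rfl
      classical
      have hex : ∃ k, 1 ≤ k ∧ (⇑T)^[k] x₀ ∈ M := by
        obtain ⟨k, hk, -, h⟩ := hnext x₀
        exact ⟨k, hk, h⟩
      set k := Nat.find hex with hk
      obtain ⟨hk1, hk2⟩ := Nat.find_spec hex
      rw [← hk] at hk1 hk2
      have hkl : k ≤ 4 * n - 1 := by
        obtain ⟨k', h3, h4, h5⟩ := hnext' x₀
        exact (Nat.find_min' hex ⟨h3, h5⟩).trans h4
      have hkg : 2 * n ≤ k := by
        by_contra hcon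
        exact h1 x₀ hx₀' k hk1 (by omega) hk2
      have hT' : ∀ j, (⇑T)^[j] x = (⇑T)^[j + n] x₀ := by
        intro j
        rw [Function.iterate_add_apply, ← hxx]
      refine ⟨k - n, by omega, by omega, Or.inl ?_, ?_, ?_⟩
      · rw [hT']
        have : k - n + n = k := by omega
        rw [this]
        exact hk2
      · rintro j hj1 hj2 (h | h)
        · rw [hT'] at h
          exact Nat.find_min hex (m := j + n) (by omega) ⟨by omega, h⟩
        · have h3 : (⇑T.symm)^[n] ((⇑T)^[j] x) ∈ M := h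
          rw [hT', ts_tk T (by omega), Nat.add_sub_cancel] at h3
          exact Nat.find_min hex (m := j) (by omega) ⟨hj1, h3⟩
      · have h3 : x ∉ M := by
          rw [hxx]
          exact h1 x₀ hx₀' n hn (by omega)
        have h4 : (⇑T)^[k - n] x ∈ M := by
          rw [hT']
          have : k - n + n = k := by omega
          rw [this]
          exact hk2
        exact ⟨fun _ => h3, fun _ => h4⟩

end homeo

end Pool.Agent.Y334.FS
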