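import Mathlib
import Pool.Agent.Y334.FS.Mark

/-! Selections, and the bases `ℤ` and `ZMod N`. -/

set_option autoImplicit false

open Set Filter Topology

namespace Pool.Agent.Y334.FS

/-- every open relation with values in a finite type has a locally constant selection -/
def SelP (X : Type) [TopologicalSpace X] : Prop :=
  ∀ (I : Type) [Finite I] (Rel : X → I → Prop), (∀ x i, Rel x i → ∀ᶠ y in 𝓝 x, Rel y i) →
    (∀ x, ∃ i, Rel x i) → ∃ ι : X → I, LC ι ∧ ∀ x, Rel x (ι x)

theorem selP_discrete (X : Type) [TopologicalSpace X] [DiscreteTopology X] : SelP X := by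
  intro I _ Rel _ h
  choose ι hι using h
  refine ⟨ι, fun x => ?_, hι⟩
  rw [nhds_discrete]
  exact rfl

theorem selP_compact (X : Type) [TopologicalSpace X] [CompactSpace X] [T2Space X]
    [TotallyDisconnectedSpace X] : SelP X := by
  classical
  intro I _ Rel hopen h
  choose ι₀ hι₀ using h
  have hloc : ∀ x : X, ∃ U : Set X, IsClopen U ∧ x ∈ U ∧ ∀ y ∈ U, Rel y (ι₀ x) := by
    intro x
    obtain ⟨V, hV, hVo, hxV⟩ := mem_nhds_iff.1 (hopen x _ (hι₀ x))
    obtain ⟨U, hU, hxU, hUV⟩ := compact_exists_isClopen_in_isOpen hVo hxV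
    exact ⟨U, hU, hxU, fun y hy => hV (hUV hy)⟩
  choose U hU hxU hUR using hloc
  have key : ∀ t : Finset X, t.Nonempty → ∃ ι : X → I, LC ι ∧ ∀ a ∈ t, ∀ x ∈ U a, Rel x (ι x) := by
    intro t ht
    induction ht using Finset.Nonempty.cons_induction with
    | singleton a =>
      refine ⟨fun _ => ι₀ a, fun x => Eventually.of_forall fun y => rfl, fun b hb x hx => ?_⟩
      rw [Finset.mem_singleton] at hb
      subst hb
      exact hUR b x hx
    | cons a t _ _ ih =>
      obtain ⟨ι, h1, h2⟩ := ih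
      refine ⟨fun x => if x ∈ U a then ι₀ a else ι x, fun x => ?_, fun b hb x hx => ?_⟩
      · filter_upwards [h1 x, ev_clopen (hU a) continuous_id x] with y g1 g2
        simp only [id] at g2
        simp only [g1, g2]
      · by_cases hxa : x ∈ U a
        · simp only [if_pos hxa]
          exact hUR a x hxa
        · simp only [if_neg hxa]
          rcases Finset.mem_cons.1 hb with rfl | hb
          · exact absurd hx hxa
          · exact h2 b hb x hx
  by_cases hne : Nonempty X
  swap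
  · exact ⟨fun x => absurd ⟨x⟩ hne, fun x => absurd ⟨x⟩ hne, fun x => absurd ⟨x⟩ hne⟩
  obtain ⟨x₀⟩ := hne
  obtain ⟨t, -, ht⟩ := isCompact_univ.elim_nhds_subcover U fun x _ => (hU x).isOpen.mem_nhds (hxU x)
  obtain ⟨ι, h1, h2⟩ := key (insert x₀ t) (Finset.insert_nonempty _ _)
  refine ⟨ι, h1, fun x => ?_⟩
  obtain ⟨a, ha, hxa⟩ := mem_iUnion₂.1 (ht (mem_univ x))
  exact h2 a (Finset.mem_insert_of_mem ha) x hxa

/-- the translation of `ℤ` -/
def trZ : ℤ ≃ₜ ℤ where
  toEquiv := Equiv.addRight 1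
  continuous_toFun := continuous_of_discreteTopology
  continuous_invFun := continuous_of_discreteTopology

theorem trZ_iter (k : ℕ) (x : ℤ) : (⇑trZ)^[k] x = x + k := by
  induction k with
  | zero => simp
  | succ k ih =>
    rw [Function.iterate_succ_apply', ih]
    show x + k + 1 = _
    push_cast
    ring

theorem trZ_symm_iter (k : ℕ) (x : ℤ) : (⇑trZ.symm)^[k] x = x - k := by
  induction k with
  | zero => simp
  | succ k ih =>
    rw [Function.iterate_succ_apply', ih]
    show x - k + -1 = _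
    push_cast
    ring

theorem mkZ {n : ℕ} (hn : 1 ≤ n) : Mk trZ n {x : ℤ | (n : ℤ) ∣ x} {x : ℤ | (2 * n : ℤ) ∣ x} := by
  have hn' : (1 : ℤ) ≤ n := by exact_mod_cast hn
  refine ⟨isClopen_discrete _, isClopen_discrete _, fun x => ?_, fun x => ?_, fun x hx => ?_⟩
  · refine ⟨((-x) % n).toNat, ?_, ?_⟩
    · have h1 := Int.emod_lt_of_pos (-x) (show (0 : ℤ) < n by omega)
      have h2 := Int.emod_nonneg (-x) (show (n : ℤ) ≠ 0 by omega)
      omega
    · rw [trZ_iter]
      have h2 := Int.emod_nonneg (-x) (show (n : ℤ) ≠ 0 by omega)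
      rw [Int.toNat_of_nonneg h2]
      show (n : ℤ) ∣ _
      have h3 := Int.emod_add_mul_ediv (-x) n
      refine ⟨-((-x) / n), ?_⟩
      linarith
  · refine ⟨(x % n).toNat, ?_⟩
    rw [trZ_symm_iter]
    have h2 := Int.emod_nonneg x (show (n : ℤ) ≠ 0 by omega)
    rw [Int.toNat_of_nonneg h2]
    show (n : ℤ) ∣ _
    have h3 := Int.emod_add_mul_ediv x n
    refine ⟨x / n, ?_⟩
    linarith
  · obtain ⟨a, ha⟩ : (n : ℤ) ∣ x := hx
    refine ⟨n, le_rfl, by omega, ?_, fun j hj1 hj2 hj => ?_, ?_⟩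
    · rw [trZ_iter]
      exact ⟨a + 1, by rw [ha]; ring⟩
    · rw [trZ_iter] at hj
      obtain ⟨b, hb⟩ : (n : ℤ) ∣ x + j := hj
      have h1 : (n : ℤ) * (b - a) = j := by
        have : (n : ℤ) * (b - a) = n * b - n * a := by ring
        rw [this, ← hb, ← ha]; ring
      have hj1' : (1 : ℤ) ≤ j := by exact_mod_cast hj1
      have hj2' : (j : ℤ) < n := by exact_mod_cast hj2
      rcases le_or_gt (b - a) 0 with h2 | h2
      · nlinarith
      · nlinarith
    · rw [trZ_iter]
      show (2 * n : ℤ) ∣ x + n ↔ ¬ (2 * n : ℤ) ∣ x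
      have e1 : (2 * n : ℤ) ∣ x ↔ (2 : ℤ) ∣ a := by
        rw [ha, mul_comm (2 : ℤ) n]
        exact mul_dvd_mul_iff_left (by omega)
      have e2 : (2 * n : ℤ) ∣ x + n ↔ (2 : ℤ) ∣ a + 1 := by
        have : x + n = n * (a + 1) := by rw [ha]; ring
        rw [this, mul_comm (2 : ℤ) n]
        exact mul_dvd_mul_iff_left (by omega)
      rw [e1, e2]
      omega

/-- The cyclic base. -/
theorem cyc_base (N : ℕ) (hN : 1 ≤ N) : ∃ (X : Type) (_ : TopologicalSpace X)
    (_ : CompactSpace X) (_ : T2Space X) (_ : TotallyDisconnectedSpace X)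
    (_ : DiscreteTopology X) (T : X ≃ₜ X) (x₀ : X) (val : X → ℕ), (⇑T)^[N] x₀ = x₀ ∧
      (∀ x, val x < N) ∧ (∀ k < N, val ((⇑T)^[k] x₀) = k) ∧
      ∀ x k, 1 ≤ k → k < N → (⇑T)^[k] x ≠ x := by
  have : NeZero N := ⟨by omega⟩
  letI : TopologicalSpace (ZMod N) := ⊥
  haveI : DiscreteTopology (ZMod N) := ⟨rfl⟩
  let T : ZMod N ≃ₜ ZMod N :=
    { toEquiv := Equiv.addRight 1
      continuous_toFun := continuous_of_discreteTopology
      continuous_invFun := continuous_of_discreteTopology }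
  have hT : ∀ (k : ℕ) (x : ZMod N), (⇑T)^[k] x = x + k := by
    intro k x
    induction k with
    | zero => simp
    | succ k ih =>
      rw [Function.iterate_succ_apply', ih]
      show x + k + 1 = _
      push_cast
      ring
  refine ⟨ZMod N, inferInstance, inferInstance, inferInstance, inferInstance, inferInstance, T, 0,
    ZMod.val, ?_, fun x => ZMod.val_lt x, fun k hk => ?_, fun x k hk1 hk2 h => ?_⟩
  · rw [hT]; simp
  · rw [hT, zero_add]
    exact ZMod.val_natCast_of_lt hk
  · rw [hT] at h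
    have h1 : (k : ZMod N) = 0 := by simpa using h
    rw [ZMod.natCast_eq_zero_iff] at h1
    exact absurd (Nat.le_of_dvd (by omega) h1) (by omega)

end Pool.Agent.Y334.FS
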