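import Mathlib
import Pool.Agent.Y334.NA.EX

/-! Random blocks of locally Lipschitz maps with a potential: small balls are sent near few places. -/

set_option autoImplicit false

open Filter Topology Metric Set

namespace Pool.Agent.Y334.FS

open Pool.Agent.Y334.NA

/-- the positions after the blocks `bs`, started at block time `n` -/
def rb {X β : Type} (Φ : ℕ → β → X → X) : ℕ → List β → X → X
  | _, [], z => z
  | n, b :: bs, z => rb Φ (n + 1) bs (Φ n b z)

/-- the product of the local Lipschitz constants -/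
noncomputable def PW {X β : Type} (Φ : ℕ → β → X → X) (W : ℕ → X → β → ℝ) :
    ℕ → X → List β → ℝ
  | _, _, [] => 1
  | n, z, b :: bs => W n z b * PW Φ W (n + 1) (Φ n b z) bs

section basic

variable {X β : Type} (Φ : ℕ → β → X → X) (W : ℕ → X → β → ℝ)

theorem rb_nil (n : ℕ) (z : X) : rb Φ n [] z = z := rfl

theorem rb_cons (n : ℕ) (b : β) (bs : List β) (z : X) :
    rb Φ n (b :: bs) z = rb Φ (n + 1) bs (Φ n b z) := rfl

theorem rb_append (n : ℕ) (bs cs : List β) (z : X) :
    rb Φ n (bs ++ cs) z = rb Φ (n + bs.length) cs (rb Φ n bs z) := by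
  induction bs generalizing n z with
  | nil => rfl
  | cons b bs ih =>
    rw [List.cons_append, rb_cons, ih, rb_cons, List.length_cons]
    congr 1
    omega

theorem PW_nil (n : ℕ) (z : X) : PW Φ W n z [] = 1 := rfl

theorem PW_cons (n : ℕ) (z : X) (b : β) (bs : List β) :
    PW Φ W n z (b :: bs) = W n z b * PW Φ W (n + 1) (Φ n b z) bs := rfl

theorem PW_append (n : ℕ) (z : X) (bs cs : List β) :
    PW Φ W n z (bs ++ cs) = PW Φ W n z bs * PW Φ W (n + bs.length) (rb Φ n bs z) cs := by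
  induction bs generalizing n z with
  | nil => simp [PW_nil, rb_nil]
  | cons b bs ih =>
    rw [List.cons_append, PW_cons, ih, PW_cons, rb_cons, List.length_cons, mul_assoc]
    have h2 : n + 1 + bs.length = n + (bs.length + 1) := by ring
    rw [h2]

end basic

/-- random blocks with a potential -/
structure PD {X β : Type} [PseudoMetricSpace X] (B : Finset β) (w : β → ℝ) (Φ : ℕ → β → X → X)
    (W : ℕ → X → β → ℝ) (V : ℕ → X → ℝ) (r₀ lam q : ℝ) : Prop where
  w0 : ∀ b ∈ B, 0 ≤ w b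
  w1 : ∑ b ∈ B, w b = 1
  W0 : ∀ n z b, 0 < W n z b
  V0 : ∀ n z, 1 / 2 ≤ V n z
  V1 : ∀ n z, V n z ≤ 1
  lip : ∀ n z, ∀ b ∈ B, ∀ y y', dist y z < r₀ → dist y' z < r₀ →
    dist (Φ n b y) (Φ n b y') ≤ W n z b * dist y y'
  pot : ∀ n z, ∑ b ∈ B, w b * (W n z b ^ lam * V (n + 1) (Φ n b z)) ≤ q * V n z
  r0 : 0 < r₀
  l0 : 0 < lam
  q0 : 0 < q
  q1 : q ≤ 1

variable {X β : Type} [PseudoMetricSpace X] {B : Finset β} {w : β → ℝ} {Φ : ℕ → β → X → X}
  {W : ℕ → X → β → ℝ} {V : ℕ → X → ℝ} {r₀ lam q : ℝ}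

theorem PD.PW_pos (h : PD B w Φ W V r₀ lam q) {n : ℕ} {z : X} {bs : List β} :
    0 < PW Φ W n z bs := by
  induction bs generalizing n z with
  | nil => rw [PW_nil]; norm_num
  | cons b bs ih => rw [PW_cons]; exact mul_pos (h.W0 _ _ _) ih

/-- the tube around an orbit -/
theorem PD.tube (h : PD B w Φ W V r₀ lam q) {bs : List β} (hbs : ∀ b ∈ bs, b ∈ B) {n : ℕ} {z : X}
    {ρ : ℝ} (hsm : ∀ j ≤ bs.length, PW Φ W n z (bs.take j) * ρ < r₀) {y y' : X}
    (hy : dist y z ≤ ρ) (hy' : dist y' z ≤ ρ) :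
    dist (rb Φ n bs y) (rb Φ n bs y') ≤ PW Φ W n z bs * dist y y' := by
  induction bs generalizing n z ρ y y' with
  | nil => rw [rb_nil, rb_nil, PW_nil, one_mul]
  | cons b bs ih =>
    have hbB := hbs b List.mem_cons_self
    have hρ : ρ < r₀ := by simpa [PW_nil] using hsm 0 (by simp)
    have hz : dist z z < r₀ := by rw [dist_self]; exact h.r0
    have h1 := h.lip n z b hbB y y' (by linarith) (by linarith)
    have h2 := h.lip n z b hbB y z (by linarith) hz
    have h3 := h.lip n z b hbB y' z (by linarith) hz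
    have hW := h.W0 n z b
    rw [rb_cons, rb_cons, PW_cons]
    have h4 := ih (fun c hc => hbs c (List.mem_cons_of_mem _ hc)) (n := n + 1) (z := Φ n b z)
      (ρ := W n z b * ρ) (by
        intro j hj
        have h5 := hsm (j + 1) (by simpa using hj)
        rw [List.take_succ_cons, PW_cons] at h5
        calc PW Φ W (n + 1) (Φ n b z) (bs.take j) * (W n z b * ρ)
            = W n z b * PW Φ W (n + 1) (Φ n b z) (bs.take j) * ρ := by ring
          _ < r₀ := h5) (y := Φ n b y) (y' := Φ n b y')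
      (h2.trans (by gcongr)) (h3.trans (by gcongr))
    have h6 : 0 < PW Φ W (n + 1) (Φ n b z) bs := h.PW_pos
    calc _ ≤ PW Φ W (n + 1) (Φ n b z) bs * dist (Φ n b y) (Φ n b y') := h4
      _ ≤ PW Φ W (n + 1) (Φ n b z) bs * (W n z b * dist y y') := by gcongr
      _ = _ := by ring

/-- the block sequence is good for the start `z` -/
def GoodB (Φ : ℕ → β → X → X) (W : ℕ → X → β → ℝ) (Th th : ℝ) (n : ℕ) (z : X) (bs : List β) :
    Prop :=
  (∀ j ≤ bs.length, PW Φ W n z (bs.take j) ≤ Th) ∧ PW Φ W n z bs ≤ th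

theorem PD.tube_good (h : PD B w Φ W V r₀ lam q) {bs : List β} (hbs : ∀ b ∈ bs, b ∈ B) {n : ℕ}
    {z : X} {Th th ρ : ℝ} (hρ0 : 0 ≤ ρ) (hρ1 : Th * ρ < r₀) (hg : GoodB Φ W Th th n z bs) {y y' : X}
    (hy : dist y z ≤ ρ) (hy' : dist y' z ≤ ρ) :
    dist (rb Φ n bs y) (rb Φ n bs y') ≤ th * dist y y' := by
  have h1 := h.tube hbs (n := n) (z := z) (ρ := ρ) (fun j hj =>
    lt_of_le_of_lt (mul_le_mul_of_nonneg_right (hg.1 j hj) hρ0) hρ1) hy hy'
  exact h1.trans (mul_le_mul_of_nonneg_right hg.2 dist_nonneg)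

/-- Good block sequences send small balls near the end position of a point of a net, started at
some block time. -/
theorem PD.ends (h : PD B w Φ W V r₀ lam q) {N : Finset X} (hN : ∀ z : X, ∃ ν ∈ N, dist ν z ≤ r₀ / 2)
    {bs : List β} (hbs : ∀ b ∈ bs, b ∈ B) {n : ℕ} {z : X} {Th th ρ : ℝ}
    (hρ0 : 0 ≤ ρ) (hρ1 : Th * ρ < r₀) (hg : GoodB Φ W Th th n z bs) :
    ∃ ν ∈ N, ∃ j ≤ bs.length, ∀ y, dist y z ≤ ρ →
      dist (rb Φ n bs y) (rb Φ (n + j) (bs.drop j) ν) ≤ th * (ρ + r₀) := by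
  obtain ⟨j, hj, hmax⟩ := Finset.exists_max_image (Finset.range (bs.length + 1))
    (fun j => PW Φ W n z (bs.take j)) ⟨0, by simp⟩
  have hj' : j ≤ bs.length := by
    have := Finset.mem_range.1 hj
    omega
  have hsplit : bs = bs.take j ++ bs.drop j := (List.take_append_drop j bs).symm
  have hlt : (bs.take j).length = j := by rw [List.length_take]; omega
  have hbd : ∀ b ∈ bs.drop j, b ∈ B := fun b hb => hbs b (List.mem_of_mem_drop hb)
  set u : X := rb Φ n (bs.take j) z with hu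
  obtain ⟨ν, hν, hνu⟩ := hN u
  have hr0 := h.r0
  have hendz : rb Φ n bs z = rb Φ (n + j) (bs.drop j) u := by
    conv_lhs => rw [hsplit]
    rw [rb_append, hlt]
  have hPj : 0 < PW Φ W n z (bs.take j) := h.PW_pos
  have hone : ∀ i ≤ (bs.drop j).length, PW Φ W (n + j) u ((bs.drop j).take i) ≤ 1 := by
    intro i hi
    rw [List.length_drop] at hi
    have h1 : bs.take (j + i) = bs.take j ++ (bs.drop j).take i := by
      rw [List.take_add]
    have h2 : j + i ∈ Finset.range (bs.length + 1) := by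
      rw [Finset.mem_range]
      omega
    have h3 := hmax _ h2
    rw [h1, PW_append, hlt, ← hu] at h3
    by_contra hcon
    push Not at hcon
    nlinarith
  have hPj1 : 1 ≤ PW Φ W n z (bs.take j) := by
    have := hmax 0 (by simp)
    simpa [PW_nil] using this
  have hlast : PW Φ W (n + j) u (bs.drop j) ≤ th := by
    have h1 : PW Φ W n z bs = PW Φ W n z (bs.take j) * PW Φ W (n + j) u (bs.drop j) := by
      conv_lhs => rw [hsplit]
      rw [PW_append, hlt]
    have h2 : 0 < PW Φ W (n + j) u (bs.drop j) := h.PW_pos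
    have h3 := hg.2
    nlinarith
  have h5 := h.tube hbd (n := n + j) (z := u) (ρ := r₀ / 2) (by
    intro i hi
    have h1 := hone i hi
    nlinarith) (y := u) (y' := ν) (by rw [dist_self]; linarith) hνu
  rw [← hendz] at h5
  have hth : 0 < th := lt_of_lt_of_le h.PW_pos hg.2
  refine ⟨ν, hν, j, hj', fun y hy => ?_⟩
  have h6 := h.tube_good hbs hρ0 hρ1 hg hy (y' := z) (by rw [dist_self]; exact hρ0)
  have h7 : dist u ν ≤ r₀ / 2 := by rw [dist_comm]; exact hνu
  calc _ ≤ dist (rb Φ n bs y) (rb Φ n bs z) + dist (rb Φ n bs z) (rb Φ (n + j) (bs.drop j) ν) :=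
        dist_triangle _ _ _
    _ ≤ th * ρ + th * (r₀ / 2) := by
        apply add_le_add
        · exact h6.trans (by gcongr)
        · refine h5.trans ?_
          have h8 : 0 ≤ dist u ν := dist_nonneg
          gcongr
    _ ≤ th * (ρ + r₀) := by nlinarith

/-- The moments. -/
theorem PD.moment (h : PD B w Φ W V r₀ lam q) (K n : ℕ) (z : X) :
    EX B w K (fun bs => PW Φ W n z bs ^ lam * V (n + K) (rb Φ n bs z)) ≤ q ^ K * V n z := by
  induction K generalizing n z with
  | zero =>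
    rw [EX_zero, PW_nil, rb_nil, Real.one_rpow, one_mul, pow_zero, one_mul]
    exact le_rfl
  | succ K ih =>
    rw [EX_succ]
    have h1 : ∀ b ∈ B, w b * EX B w K (fun l => PW Φ W n z (b :: l) ^ lam *
        V (n + (K + 1)) (rb Φ n (b :: l) z)) ≤
        q ^ K * (w b * (W n z b ^ lam * V (n + 1) (Φ n b z))) := by
      intro b hb
      have h2 : (fun l => PW Φ W n z (b :: l) ^ lam * V (n + (K + 1)) (rb Φ n (b :: l) z)) =
          fun l => W n z b ^ lam * (PW Φ W (n + 1) (Φ n b z) l ^ lam *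
            V (n + 1 + K) (rb Φ (n + 1) l (Φ n b z))) := by
        funext l
        rw [PW_cons, rb_cons, Real.mul_rpow (h.W0 _ _ _).le h.PW_pos.le, mul_assoc]
        have e : n + (K + 1) = n + 1 + K := by ring
        rw [e]
      rw [h2, EX_const_mul]
      have h3 := ih (n + 1) (Φ n b z)
      have h4 : 0 ≤ W n z b ^ lam := Real.rpow_nonneg (h.W0 _ _ _).le _
      have h5 := h.w0 b hb
      calc w b * (W n z b ^ lam * _) ≤ w b * (W n z b ^ lam * (q ^ K * V (n + 1) (Φ n b z))) := by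
            gcongr
        _ = _ := by ring
    refine (Finset.sum_le_sum h1).trans ?_
    rw [← Finset.mul_sum]
    have h6 : 0 ≤ q ^ K := pow_nonneg h.q0.le _
    calc q ^ K * _ ≤ q ^ K * (q * V n z) := mul_le_mul_of_nonneg_left (h.pot n z) h6
      _ = q ^ (K + 1) * V n z := by ring

theorem PD.moment' (h : PD B w Φ W V r₀ lam q) (K n : ℕ) (z : X) :
    EX B w K (fun bs => PW Φ W n z bs ^ lam) ≤ 2 * q ^ K := by
  have h1 : EX B w K (fun bs => PW Φ W n z bs ^ lam) ≤
      EX B w K (fun bs => 2 * (PW Φ W n z bs ^ lam * V (n + K) (rb Φ n bs z))) := by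
    apply EX_mono h.w0
    intro bs _ _
    have h2 : 0 ≤ PW Φ W n z bs ^ lam := Real.rpow_nonneg h.PW_pos.le _
    have h3 := h.V0 (n + K) (rb Φ n bs z)
    nlinarith
  rw [EX_const_mul] at h1
  have h2 := h.moment K n z
  have h3 := h.V1 n z
  have h4 : 0 < q ^ K := pow_pos h.q0 _
  nlinarith

open scoped Classical in
/-- indicator of the bad block sequences -/
noncomputable def bad (Φ : ℕ → β → X → X) (W : ℕ → X → β → ℝ) (Th th : ℝ) (n : ℕ) (z : X)
    (bs : List β) : ℝ := if GoodB Φ W Th th n z bs then 0 else 1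

theorem bad_nonneg {Th th : ℝ} {n : ℕ} {z : X} {bs : List β} : 0 ≤ bad Φ W Th th n z bs := by
  unfold bad; split_ifs <;> norm_num

theorem good_of_bad {Th th : ℝ} {n : ℕ} {z : X} {bs : List β}
    (h : bad Φ W Th th n z bs < 1) : GoodB Φ W Th th n z bs := by
  by_contra hcon
  unfold bad at h
  rw [if_neg hcon] at h
  linarith

/-- The probability to be bad. -/
theorem PD.prob_bad (h : PD B w Φ W V r₀ lam q) {Th th : ℝ} (hTh : 0 < Th) (hth : 0 < th)
    (K n : ℕ) (z : X) :
    EX B w K (bad Φ W Th th n z) ≤ 2 * (K + 1) / Th ^ lam + 2 * q ^ K / th ^ lam := by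
  have hTl : 0 < Th ^ lam := Real.rpow_pos_of_pos hTh _
  have htl : 0 < th ^ lam := Real.rpow_pos_of_pos hth _
  have mk : ∀ {x t : ℝ}, 0 < x → 0 < t → t < x → 1 ≤ x ^ lam / t ^ lam := by
    intro x t hx ht htx
    rw [le_div_iff₀ (Real.rpow_pos_of_pos ht _), one_mul]
    exact Real.rpow_le_rpow ht.le htx.le h.l0.le
  have h1 : EX B w K (bad Φ W Th th n z) ≤ EX B w K (fun bs =>
      (∑ j ∈ Finset.range (K + 1), 1 / Th ^ lam * PW Φ W n z (bs.take j) ^ lam) +
        1 / th ^ lam * PW Φ W n z bs ^ lam) := by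
    apply EX_mono h.w0
    intro bs hlen _
    have hP : ∀ j, 0 ≤ 1 / Th ^ lam * PW Φ W n z (bs.take j) ^ lam := fun j =>
      mul_nonneg (by positivity) (Real.rpow_nonneg h.PW_pos.le _)
    have hS : 0 ≤ ∑ j ∈ Finset.range (K + 1), 1 / Th ^ lam * PW Φ W n z (bs.take j) ^ lam :=
      Finset.sum_nonneg fun j _ => hP j
    have hE : 0 ≤ 1 / th ^ lam * PW Φ W n z bs ^ lam :=
      mul_nonneg (by positivity) (Real.rpow_nonneg h.PW_pos.le _)
    unfold bad
    split_ifs with hg
    · linarith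
    · unfold GoodB at hg
      rw [not_and_or] at hg
      rcases hg with hg | hg
      · push Not at hg
        obtain ⟨j, hj, hlt⟩ := hg
        have h2 := mk h.PW_pos hTh hlt
        have h3 : 1 / Th ^ lam * PW Φ W n z (bs.take j) ^ lam ≤
            ∑ j ∈ Finset.range (K + 1), 1 / Th ^ lam * PW Φ W n z (bs.take j) ^ lam :=
          Finset.single_le_sum (f := fun j => 1 / Th ^ lam * PW Φ W n z (bs.take j) ^ lam)
            (fun i _ => hP i) (Finset.mem_range.2 (by omega))
        have h4 : 1 / Th ^ lam * PW Φ W n z (bs.take j) ^ lam =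
            PW Φ W n z (bs.take j) ^ lam / Th ^ lam := by ring
        linarith
      · push Not at hg
        have h2 := mk h.PW_pos hth hg
        have h4 : 1 / th ^ lam * PW Φ W n z bs ^ lam = PW Φ W n z bs ^ lam / th ^ lam := by ring
        linarith
  refine h1.trans ?_
  rw [EX_add, EX_sum, EX_const_mul]
  have h2 : ∀ j ∈ Finset.range (K + 1),
      EX B w K (fun bs => 1 / Th ^ lam * PW Φ W n z (bs.take j) ^ lam) ≤ 1 / Th ^ lam * 2 := by
    intro j hj
    have hjK : j ≤ K := by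
      have := Finset.mem_range.1 hj
      omega
    rw [EX_const_mul, EX_take h.w1 hjK (fun bs => PW Φ W n z bs ^ lam)]
    have h3 := h.moment' j n z
    have h4 : q ^ j ≤ 1 := pow_le_one₀ h.q0.le h.q1
    gcongr
    linarith
  have h3 := h.moment' K n z
  have h4 : ∑ j ∈ Finset.range (K + 1), 1 / Th ^ lam * (2 : ℝ) = 2 * (K + 1) / Th ^ lam := by
    rw [Finset.sum_const, Finset.card_range, nsmul_eq_mul]
    push_cast
    ring
  calc _ ≤ ∑ j ∈ Finset.range (K + 1), 1 / Th ^ lam * (2 : ℝ) + 1 / th ^ lam * (2 * q ^ K) := by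
        apply add_le_add (Finset.sum_le_sum h2)
        gcongr
    _ = _ := by rw [h4]; ring

end Pool.Agent.Y334.FS
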