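import Mathlib
import Pool.Agent.Y334.RM.Base

/-! A metric on the Riemann sphere, local Lipschitz constants. -/

set_option autoImplicit false

open Set Filter Topology Metric
open scoped OnePoint
open Pool.Agent.Helper114.Herman
open Pool.Agent.Y334.RM

namespace Pool.Agent.Y334.FS

/-- the stereographic embedding -/
noncomputable def emb (x : Sp) : ℂ × ℝ :=
  match x with
  | none => (0, 1)
  | some z => (((2 / (1 + ‖z‖ ^ 2) : ℝ) : ℂ) * z, 1 - 2 / (1 + ‖z‖ ^ 2))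

theorem emb_infty : emb ∞ = (0, 1) := rfl

theorem emb_coe (z : ℂ) :
    emb (z : Sp) = (((2 / (1 + ‖z‖ ^ 2) : ℝ) : ℂ) * z, 1 - 2 / (1 + ‖z‖ ^ 2)) := rfl

theorem emb_sinv (x : Sp) : emb (sinv x) = (starRingEnd ℂ (emb x).1, -(emb x).2) := by
  induction x using OnePoint.rec with
  | infty =>
    rw [sinv_infty, emb_coe, emb_infty]
    norm_num
  | coe z =>
    by_cases hz : z = 0
    · subst hz
      rw [sinv_zero, emb_coe, emb_infty]
      norm_num
    · rw [sinv_coe hz, emb_coe, emb_coe]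
      have hn : 0 < ‖z‖ ^ 2 := by positivity
      have e1 : 2 / (1 + ‖z⁻¹‖ ^ 2) = 2 * ‖z‖ ^ 2 / (1 + ‖z‖ ^ 2) := by
        rw [norm_inv, inv_pow]
        field_simp
        ring
      rw [e1]
      ext1
      · show ((2 * ‖z‖ ^ 2 / (1 + ‖z‖ ^ 2) : ℝ) : ℂ) * z⁻¹ =
          starRingEnd ℂ (((2 / (1 + ‖z‖ ^ 2) : ℝ) : ℂ) * z)
        rw [map_mul, Complex.conj_ofReal, Complex.inv_def, Complex.normSq_eq_norm_sq]
        have e2 : ((2 * ‖z‖ ^ 2 / (1 + ‖z‖ ^ 2) : ℝ) : ℂ) * (starRingEnd ℂ z * (((‖z‖ ^ 2)⁻¹ : ℝ) : ℂ))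
            = ((2 * ‖z‖ ^ 2 / (1 + ‖z‖ ^ 2) * (‖z‖ ^ 2)⁻¹ : ℝ) : ℂ) * starRingEnd ℂ z := by
          push_cast; ring
        rw [e2]
        congr 2
        field_simp
      · show 1 - 2 * ‖z‖ ^ 2 / (1 + ‖z‖ ^ 2) = -(1 - 2 / (1 + ‖z‖ ^ 2))
        field_simp
        ring

theorem continuousAt_emb_coe (z : ℂ) : ContinuousAt emb (z : Sp) := by
  have h1 : 𝓝 (z : Sp) = map (fun w : ℂ => (w : Sp)) (𝓝 z) :=
    (OnePoint.isOpenEmbedding_coe.map_nhds_eq z).symm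
  rw [ContinuousAt, h1, tendsto_map'_iff]
  show ContinuousAt (fun w : ℂ => emb (w : Sp)) z
  have h2 : (fun w : ℂ => emb (w : Sp)) =
      fun w => (((2 / (1 + ‖w‖ ^ 2) : ℝ) : ℂ) * w, 1 - 2 / (1 + ‖w‖ ^ 2)) := rfl
  rw [h2]
  have h3 : Continuous fun w : ℂ => (2 / (1 + ‖w‖ ^ 2) : ℝ) := by
    apply Continuous.div continuous_const (by fun_prop)
    intro w
    positivity
  exact ((Complex.continuous_ofReal.comp h3).mul continuous_id |>.prodMk
    (continuous_const.sub h3)).continuousAt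

theorem continuous_emb : Continuous emb := by
  rw [continuous_iff_continuousAt]
  intro x
  induction x using OnePoint.rec with
  | coe z => exact continuousAt_emb_coe z
  | infty =>
    have h1 : emb = fun x => (starRingEnd ℂ (emb (sinv x)).1, -(emb (sinv x)).2) := by
      funext x
      rw [← emb_sinv, sinv_sinv]
    rw [h1]
    have h2 : ContinuousAt (fun x => emb (sinv x)) (∞ : Sp) := by
      apply ContinuousAt.comp (g := emb) _ continuous_sinv.continuousAt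
      rw [sinv_infty]
      exact continuousAt_emb_coe 0
    exact (Complex.continuous_conj.continuousAt.comp (continuousAt_fst.comp h2)).prodMk
      ((continuousAt_snd.comp h2).neg)

theorem emb_inj : Function.Injective emb := by
  have key : ∀ x : Sp, (if (emb x).2 = 1 then (∞ : Sp) else
      (((emb x).1 / (((1 - (emb x).2 : ℝ)) : ℂ) : ℂ) : Sp)) = x := by
    intro x
    induction x using OnePoint.rec with
    | infty => rw [emb_infty]; simp
    | coe z =>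
      rw [emb_coe]
      have h1 : (1 : ℝ) - 2 / (1 + ‖z‖ ^ 2) ≠ 1 := by
        have : 0 < 2 / (1 + ‖z‖ ^ 2) := by positivity
        linarith
      rw [if_neg h1]
      congr 1
      have h2 : (1 - (1 - 2 / (1 + ‖z‖ ^ 2)) : ℝ) = 2 / (1 + ‖z‖ ^ 2) := by ring
      rw [h2]
      have h3 : ((2 / (1 + ‖z‖ ^ 2) : ℝ) : ℂ) ≠ 0 := by
        rw [Ne, Complex.ofReal_eq_zero]
        positivity
      field_simp
  intro x y h
  rw [← key x, ← key y, h]

theorem isEmbedding_emb : IsEmbedding emb :=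
  (continuous_emb.isClosedEmbedding emb_inj).isEmbedding

/-- the metric -/
@[reducible] noncomputable def sphMet : MetricSpace (OnePoint ℂ) :=
  isEmbedding_emb.comapMetricSpace emb

attribute [local instance] sphMet

theorem dist_emb (x y : Sp) : dist x y = dist (emb x) (emb y) := rfl

theorem dist_le_two (x y : Sp) : dist x y ≤ 2 := by
  have key : ∀ x : Sp, ‖(emb x).1‖ ≤ 1 ∧ |(emb x).2| ≤ 1 := by
    intro x
    induction x using OnePoint.rec with
    | infty => rw [emb_infty]; simp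
    | coe z =>
      rw [emb_coe]
      have h1 : 0 < 1 + ‖z‖ ^ 2 := by positivity
      constructor
      · show ‖((2 / (1 + ‖z‖ ^ 2) : ℝ) : ℂ) * z‖ ≤ 1
        rw [norm_mul, Complex.norm_real, Real.norm_eq_abs, abs_of_pos (by positivity),
          div_mul_eq_mul_div, div_le_one h1]
        nlinarith [sq_nonneg (‖z‖ - 1)]
      · show |1 - 2 / (1 + ‖z‖ ^ 2)| ≤ 1
        have h2 : 2 / (1 + ‖z‖ ^ 2) ≤ 2 := by
          rw [div_le_iff₀ h1]; nlinarith [sq_nonneg ‖z‖]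
        have h3 : 0 < 2 / (1 + ‖z‖ ^ 2) := by positivity
        rw [abs_le]; constructor <;> linarith
  rw [dist_emb, Prod.dist_eq]
  obtain ⟨a1, a2⟩ := key x
  obtain ⟨b1, b2⟩ := key y
  apply max_le
  · rw [dist_eq_norm]
    exact (norm_sub_le _ _).trans (by linarith)
  · rw [Real.dist_eq]
    exact (abs_sub _ _).trans (by linarith)

theorem dist_sinv (x y : Sp) : dist (sinv x) (sinv y) = dist x y := by
  rw [dist_emb, dist_emb, emb_sinv, emb_sinv, Prod.dist_eq, Prod.dist_eq]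
  congr 1
  · rw [dist_eq_norm, dist_eq_norm, ← map_sub]
    exact RCLike.norm_conj _
  · rw [Real.dist_eq, Real.dist_eq]
    have : -(emb x).2 - -(emb y).2 = -((emb x).2 - (emb y).2) := by ring
    rw [this, abs_neg]

theorem dist_coe_le (z w : ℂ) : dist (z : Sp) (w : Sp) ≤ 5 * ‖z - w‖ := by
  set a : ℝ := 1 + ‖z‖ ^ 2 with ha
  set b : ℝ := 1 + ‖w‖ ^ 2 with hb
  have ha1 : 1 ≤ a := by rw [ha]; nlinarith [sq_nonneg ‖z‖]
  have hb1 : 1 ≤ b := by rw [hb]; nlinarith [sq_nonneg ‖w‖]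
  have hz := norm_nonneg z
  have hw := norm_nonneg w
  have hD := norm_nonneg (z - w)
  have hst : |2 / a - 2 / b| ≤ 2 * ‖z - w‖ * (‖z‖ + ‖w‖) / (a * b) := by
    have e1 : 2 / a - 2 / b = 2 * ((‖w‖ - ‖z‖) * (‖w‖ + ‖z‖)) / (a * b) := by
      have : b - a = (‖w‖ - ‖z‖) * (‖w‖ + ‖z‖) := by rw [ha, hb]; ring
      rw [← this]
      field_simp
    rw [e1, abs_div, abs_of_pos (by positivity : 0 < a * b)]
    apply div_le_div_of_nonneg_right _ (by positivity)
    rw [abs_mul, abs_mul, abs_two, abs_of_nonneg (by positivity : 0 ≤ ‖w‖ + ‖z‖)]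
    have h1 : |‖w‖ - ‖z‖| ≤ ‖z - w‖ := by
      rw [norm_sub_rev]
      exact abs_norm_sub_norm_le w z
    have h2 : |‖w‖ - ‖z‖| * (‖w‖ + ‖z‖) ≤ ‖z - w‖ * (‖w‖ + ‖z‖) := by gcongr
    linarith
  have hzw1 : ‖z‖ + ‖w‖ ≤ a * b := by
    have h1 : ‖z‖ ≤ a / 2 := by rw [ha]; nlinarith [sq_nonneg (‖z‖ - 1)]
    have h2 : ‖w‖ ≤ b / 2 := by rw [hb]; nlinarith [sq_nonneg (‖w‖ - 1)]
    nlinarith
  have hzw2 : (‖z‖ + ‖w‖) * ‖w‖ ≤ 3 / 2 * (a * b) := by
    have h1 : ‖z‖ ≤ a / 2 := by rw [ha]; nlinarith [sq_nonneg (‖z‖ - 1)]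
    have h2 : ‖w‖ ≤ b / 2 := by rw [hb]; nlinarith [sq_nonneg (‖w‖ - 1)]
    have h3 : ‖z‖ * ‖w‖ ≤ (a / 2) * (b / 2) := by gcongr
    have h4 : ‖w‖ * ‖w‖ ≤ b := by rw [hb]; nlinarith
    nlinarith
  have hab : 0 < a * b := by positivity
  rw [dist_emb, emb_coe, emb_coe, Prod.dist_eq, ← ha, ← hb]
  apply max_le
  · show dist (((2 / a : ℝ) : ℂ) * z) (((2 / b : ℝ) : ℂ) * w) ≤ 5 * ‖z - w‖
    rw [dist_eq_norm]
    have e1 : ((2 / a : ℝ) : ℂ) * z - ((2 / b : ℝ) : ℂ) * w =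
        ((2 / a : ℝ) : ℂ) * (z - w) + ((2 / a - 2 / b : ℝ) : ℂ) * w := by
      push_cast; ring
    rw [e1]
    refine (norm_add_le _ _).trans ?_
    rw [norm_mul, norm_mul, Complex.norm_real, Complex.norm_real, Real.norm_eq_abs,
      Real.norm_eq_abs, abs_of_pos (by positivity : 0 < 2 / a)]
    have h1 : 2 / a ≤ 2 := by
      rw [div_le_iff₀ (by linarith)]; linarith
    have h2 : |2 / a - 2 / b| * ‖w‖ ≤ 3 * ‖z - w‖ := by
      calc |2 / a - 2 / b| * ‖w‖ ≤ 2 * ‖z - w‖ * (‖z‖ + ‖w‖) / (a * b) * ‖w‖ := by gcongr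
        _ = 2 * ‖z - w‖ * ((‖z‖ + ‖w‖) * ‖w‖) / (a * b) := by ring
        _ ≤ 2 * ‖z - w‖ * (3 / 2 * (a * b)) / (a * b) := by gcongr
        _ = 3 * ‖z - w‖ := by field_simp
    nlinarith
  · show dist (1 - 2 / a) (1 - 2 / b) ≤ 5 * ‖z - w‖
    rw [Real.dist_eq]
    have e1 : 1 - 2 / a - (1 - 2 / b) = -(2 / a - 2 / b) := by ring
    rw [e1, abs_neg]
    refine hst.trans ?_
    calc 2 * ‖z - w‖ * (‖z‖ + ‖w‖) / (a * b) ≤ 2 * ‖z - w‖ * (a * b) / (a * b) := by gcongr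
      _ = 2 * ‖z - w‖ := by field_simp
      _ ≤ 5 * ‖z - w‖ := by linarith

theorem coe_dist {R : ℝ} {z w : ℂ} (hz : ‖z‖ ≤ R) (hw : ‖w‖ ≤ R) :
    ‖z - w‖ ≤ (1 + R) * (1 + R ^ 2) * dist (z : Sp) (w : Sp) := by
  set a : ℝ := 1 + ‖z‖ ^ 2 with ha
  set b : ℝ := 1 + ‖w‖ ^ 2 with hb
  have hz0 := norm_nonneg z
  have hw0 := norm_nonneg w
  have ha1 : 1 ≤ a := by rw [ha]; nlinarith [sq_nonneg ‖z‖]
  have hb1 : 1 ≤ b := by rw [hb]; nlinarith [sq_nonneg ‖w‖]
  set D : ℝ := dist (z : Sp) (w : Sp) with hD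
  have hD0 : 0 ≤ D := dist_nonneg
  have h1 : ‖((2 / a : ℝ) : ℂ) * z - ((2 / b : ℝ) : ℂ) * w‖ ≤ D := by
    rw [← dist_eq_norm, hD, dist_emb, emb_coe, emb_coe, Prod.dist_eq, ← ha, ← hb]
    exact le_max_left _ _
  have h2 : |2 / b - 2 / a| ≤ D := by
    have : |(1 - 2 / a) - (1 - 2 / b)| ≤ D := by
      rw [← Real.dist_eq, hD, dist_emb, emb_coe, emb_coe, Prod.dist_eq, ← ha, ← hb]
      exact le_max_right _ _
    have e : (1 - 2 / a) - (1 - 2 / b) = 2 / b - 2 / a := by ring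
    rwa [e] at this
  have e1 : z - w = ((a / 2 : ℝ) : ℂ) * ((((2 / a : ℝ) : ℂ) * z - ((2 / b : ℝ) : ℂ) * w) +
      ((2 / b - 2 / a : ℝ) : ℂ) * w) := by
    have e2 : ((a / 2 : ℝ) : ℂ) * ((2 / a : ℝ) : ℂ) = 1 := by
      rw [← Complex.ofReal_mul]
      have : a / 2 * (2 / a) = 1 := by field_simp
      rw [this, Complex.ofReal_one]
    calc z - w = (((a / 2 : ℝ) : ℂ) * ((2 / a : ℝ) : ℂ)) * (z - w) := by rw [e2, one_mul]
      _ = _ := by push_cast; ring
  have h3 : ‖z - w‖ ≤ a / 2 * (D + D * ‖w‖) := by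
    rw [e1, norm_mul, Complex.norm_real, Real.norm_eq_abs, abs_of_pos (by positivity)]
    gcongr
    refine (norm_add_le _ _).trans ?_
    rw [norm_mul, Complex.norm_real, Real.norm_eq_abs]
    gcongr
  refine h3.trans ?_
  have h4 : a ≤ 1 + R ^ 2 := by rw [ha]; nlinarith
  calc a / 2 * (D + D * ‖w‖) ≤ a * (D + D * ‖w‖) := by
        apply mul_le_mul_of_nonneg_right (by linarith) (by positivity)
    _ = a * (1 + ‖w‖) * D := by ring
    _ ≤ (1 + R ^ 2) * (1 + R) * D := by gcongr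
    _ = (1 + R) * (1 + R ^ 2) * D := by ring

/-- local Lipschitz constants -/
def LipAt {X Y : Type} [PseudoMetricSpace X] [PseudoMetricSpace Y] (K : ℝ) (f : X → Y) (x : X) :
    Prop := ∃ U ∈ 𝓝 x, ∀ y ∈ U, ∀ z ∈ U, dist (f y) (f z) ≤ K * dist y z

section lip

variable {X Y Z : Type} [PseudoMetricSpace X] [PseudoMetricSpace Y] [PseudoMetricSpace Z]

theorem LipAt.mono {K K' : ℝ} (h : K ≤ K') {f : X → Y} {x : X} (hf : LipAt K f x) :
    LipAt K' f x := by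
  obtain ⟨U, hU, hf⟩ := hf
  refine ⟨U, hU, fun y hy z hz => (hf y hy z hz).trans ?_⟩
  exact mul_le_mul_of_nonneg_right h dist_nonneg

theorem LipAt.comp {K L : ℝ} {f : X → Y} {g : Y → Z} {x : X} (hg : LipAt L g (f x))
    (hf : LipAt K f x) (hc : ContinuousAt f x) (hL : 0 ≤ L) :
    LipAt (L * K) (fun y => g (f y)) x := by
  obtain ⟨U, hU, hf⟩ := hf
  obtain ⟨V, hV, hg⟩ := hg
  refine ⟨U ∩ f ⁻¹' V, inter_mem hU (hc hV), ?_⟩
  rintro y ⟨hy1, hy2⟩ z ⟨hz1, hz2⟩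
  calc dist (g (f y)) (g (f z)) ≤ L * dist (f y) (f z) := hg _ hy2 _ hz2
    _ ≤ L * (K * dist y z) := by gcongr; exact hf _ hy1 _ hz1
    _ = L * K * dist y z := by ring

theorem LipAt.congr {K : ℝ} {f g : X → Y} {x : X} (hf : LipAt K f x) (h : f =ᶠ[𝓝 x] g) :
    LipAt K g x := by
  obtain ⟨U, hU, hf⟩ := hf
  refine ⟨U ∩ {y | f y = g y}, inter_mem hU h, ?_⟩
  rintro y ⟨hy1, hy2⟩ z ⟨hz1, hz2⟩
  have hy3 : f y = g y := hy2
  have hz3 : f z = g z := hz2
  rw [← hy3, ← hz3]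
  exact hf y hy1 z hz1

/-- On a compact space the local Lipschitz constants are bounded. -/
theorem lip_compact [CompactSpace X] {f : X → Y} (hf : ∀ x, ∃ K, LipAt K f x) :
    ∃ L : ℝ, 1 ≤ L ∧ ∀ x y, dist (f x) (f y) ≤ L * dist x y := by
  choose K U hU hK using hf
  have hcont : Continuous f := by
    rw [continuous_iff_continuousAt]
    intro x
    rw [ContinuousAt, tendsto_iff_dist_tendsto_zero]
    have h1 : Tendsto (fun y => K x * dist y x) (𝓝 x) (𝓝 (K x * dist x x)) :=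
      (Continuous.tendsto (by fun_prop) x)
    rw [dist_self, mul_zero] at h1
    refine squeeze_zero' (Eventually.of_forall fun _ => dist_nonneg) ?_ h1
    filter_upwards [hU x] with y hy
    exact hK x y hy x (mem_of_mem_nhds (hU x))
  obtain ⟨t, ht⟩ := CompactSpace.elim_nhds_subcover (fun x => interior (U x))
    (fun x => interior_mem_nhds.2 (hU x))
  have hcov : (univ : Set X) ⊆ ⋃ x : t, interior (U (x : X)) := by
    intro y _
    have h1 : y ∈ ⋃ x ∈ t, interior (U x) := by rw [ht]; trivial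
    obtain ⟨x, hx, hy⟩ := mem_iUnion₂.1 h1
    exact mem_iUnion.2 ⟨⟨x, hx⟩, hy⟩
  obtain ⟨δ, hδ, hleb⟩ := lebesgue_number_lemma_of_metric isCompact_univ
    (fun x : t => (isOpen_interior : IsOpen (interior (U (x : X))))) hcov
  obtain ⟨M, hM⟩ : ∃ M : ℝ, ∀ x ∈ t, K x ≤ M := by
    rcases t.eq_empty_or_nonempty with h | h
    · exact ⟨0, by simp [h]⟩
    · exact ⟨t.sup' h K, fun x hx => Finset.le_sup' K hx⟩
  obtain ⟨D, hD⟩ : ∃ D : ℝ, ∀ x y, dist (f x) (f y) ≤ D := by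
    have h1 := (isCompact_range hcont).isBounded
    obtain ⟨D, hD⟩ := isBounded_iff.1 h1
    exact ⟨D, fun x y => hD (mem_range_self x) (mem_range_self y)⟩
  refine ⟨max 1 (max M (D / δ)), le_max_left _ _, fun x y => ?_⟩
  rcases lt_or_ge (dist x y) δ with h | h
  · obtain ⟨i, hi⟩ := hleb x trivial
    have h1 := hK i x (interior_subset (hi (mem_ball_self hδ))) y
      (interior_subset (hi (by rw [mem_ball, dist_comm]; exact h)))
    refine h1.trans (mul_le_mul_of_nonneg_right ?_ dist_nonneg)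
    exact (hM i i.2).trans ((le_max_left _ _).trans (le_max_right _ _))
  · have hD0 : 0 ≤ D := dist_nonneg.trans (hD x y)
    calc dist (f x) (f y) ≤ D := hD x y
      _ = D / δ * δ := by field_simp
      _ ≤ D / δ * dist x y := by gcongr
      _ ≤ _ := by
        apply mul_le_mul_of_nonneg_right _ dist_nonneg
        exact (le_max_right _ _).trans (le_max_right _ _)

end lip

theorem lipAt_coe (z : ℂ) : LipAt 5 (fun w : ℂ => (w : Sp)) z :=
  ⟨univ, univ_mem, fun y _ w _ => by rw [dist_eq_norm]; exact dist_coe_le y w⟩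

theorem lipAt_sinv (x : Sp) : LipAt 1 sinv x :=
  ⟨univ, univ_mem, fun y _ w _ => by rw [dist_sinv, one_mul]⟩

theorem lipAt_kap (b : Bool) (z : ℂ) : LipAt 5 (kap b) z := by
  refine ⟨univ, univ_mem, fun y _ w _ => ?_⟩
  rw [dist_eq_norm]
  cases b with
  | false => rw [kap_false, kap_false]; exact dist_coe_le y w
  | true => rw [kap_true, kap_true, dist_sinv]; exact dist_coe_le y w

end Pool.Agent.Y334.FS
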