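import Mathlib
import Pool.Agent.Y334.FS.Met
import Pool.Agent.Y334.RM.Crit

/-! Local Lipschitz constants of holomorphic maps of the sphere; kicks. -/

set_option autoImplicit false

open Set Filter Topology Metric
open scoped OnePoint
open Pool.Agent.Helper114.Herman
open Pool.Agent.Y334.RM

namespace Pool.Agent.Y334.FS

attribute [local instance] sphMet

theorem lipAt_analytic {h : ℂ → ℂ} {z : ℂ} (ha : AnalyticAt ℂ h z) {K : ℝ}
    (hK : ‖deriv h z‖ < K) : LipAt K h z := by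
  have h1 := ha.hasStrictDerivAt.hasStrictFDerivAt
  have hK0 : 0 < K := (norm_nonneg _).trans_lt hK
  obtain ⟨s, hs, hL⟩ := h1.exists_lipschitzOnWith_of_nnnorm_lt K.toNNReal (by
    rw [← NNReal.coe_lt_coe, coe_nnnorm, Real.coe_toNNReal K hK0.le]
    simpa using hK)
  refine ⟨s, hs, fun y hy w hw => ?_⟩
  have h2 := hL.dist_le_mul y hy w hw
  rwa [Real.coe_toNNReal K hK0.le] at h2

/-- the inverse charts -/
noncomputable def ci (b : Bool) (y : Sp) : ℂ := co (if b then sinv y else y)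

theorem ci_kap (b : Bool) (w : ℂ) : ci b (kap b w) = w := by
  cases b with
  | false => simp [ci, kap, co_coe]
  | true => simp [ci, kap, sinv_sinv, co_coe]

theorem lipAt_ci (b : Bool) (z : ℂ) : ∃ C : ℝ, 0 < C ∧ LipAt C (ci b) (kap b z) := by
  set R : ℝ := ‖z‖ + 1 with hR
  have hR0 : 0 < R := by positivity
  refine ⟨(1 + R) * (1 + R ^ 2), by positivity, kap b '' ball z 1, kap_ball one_pos, ?_⟩
  rintro _ ⟨u, hu, rfl⟩ _ ⟨v, hv, rfl⟩
  rw [ci_kap, ci_kap, dist_eq_norm]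
  rw [mem_ball, dist_eq_norm] at hu hv
  have hu' : ‖u‖ ≤ R := by
    calc ‖u‖ = ‖(u - z) + z‖ := by congr 1; ring
      _ ≤ _ := (norm_add_le _ _).trans (by linarith)
  have hv' : ‖v‖ ≤ R := by
    calc ‖v‖ = ‖(v - z) + z‖ := by congr 1; ring
      _ ≤ _ := (norm_add_le _ _).trans (by linarith)
  refine (coe_dist hu' hv').trans (le_of_eq ?_)
  congr 1
  cases b with
  | false => rw [kap_false, kap_false]
  | true => rw [kap_true, kap_true, dist_sinv]

theorem lip_chart (b : Bool) (z : ℂ) : ∃ C : ℝ, 0 < C ∧ ∀ (f : Sp → Sp) (b' : Bool) (h : ℂ → ℂ)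
    (K : ℝ), AnalyticAt ℂ h z → (∀ᶠ w in 𝓝 z, f (kap b w) = kap b' (h w)) → ‖deriv h z‖ < K →
    LipAt (C * K) f (kap b z) := by
  obtain ⟨C, hC, hci⟩ := lipAt_ci b z
  refine ⟨5 * C, by positivity, fun f b' h K ha hf hK => ?_⟩
  have hK0 : 0 < K := (norm_nonneg _).trans_lt hK
  have hcic : ContinuousAt (ci b) (kap b z) := by
    rw [ContinuousAt, nhds_kap, tendsto_map'_iff]
    have : ci b ∘ kap b = id := funext fun w => ci_kap b w
    rw [this, ci_kap]
    exact tendsto_id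
  have h1 : LipAt (K * C) (fun y => h (ci b y)) (kap b z) := by
    apply LipAt.comp _ hci hcic hK0.le
    rw [ci_kap]
    exact lipAt_analytic ha hK
  have h2 : LipAt (5 * (K * C)) (fun y => kap b' (h (ci b y))) (kap b z) := by
    apply LipAt.comp (lipAt_kap b' _) h1 _ (by norm_num)
    apply ContinuousAt.comp (g := h) _ hcic
    rw [ci_kap]
    exact ha.continuousAt
  have h3 : (fun y => kap b' (h (ci b y))) =ᶠ[𝓝 (kap b z)] f := by
    rw [nhds_kap, EventuallyEq, eventually_map]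
    filter_upwards [hf] with w hw
    rw [ci_kap, hw]
  exact (h2.congr h3).mono (by ring_nf; exact le_rfl)

theorem hol_chart {F : Sp → Sp} (hF : HolMap F) (b : Bool) (z : ℂ) :
    ∃ (b' : Bool) (h : ℂ → ℂ), AnalyticAt ℂ h z ∧ ∀ᶠ w in 𝓝 z, F (kap b w) = kap b' (h w) := by
  have h1 : HolAt (fun w => F (kap b w)) z := hF _ _ (holAt_kap b z)
  obtain ⟨b', a, ha⟩ := exists_kap (F (kap b z))
  obtain ⟨h, h2, -, h3⟩ := h1.exists_kap ha
  exact ⟨b', h, h2, h3⟩

theorem hol_lipAt {F : Sp → Sp} (hF : HolMap F) (x : Sp) : ∃ K : ℝ, LipAt K F x := by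
  obtain ⟨b, z, rfl⟩ := exists_kap x
  obtain ⟨C, hC, h⟩ := lip_chart b z
  obtain ⟨b', g, hg, hF2⟩ := hol_chart hF b z
  exact ⟨_, h F b' g (‖deriv g z‖ + 1) hg hF2 (by linarith)⟩

/-- Holomorphic maps are Lipschitz. -/
theorem hol_lip {F : Sp → Sp} (hF : HolMap F) :
    ∃ L : ℝ, 1 ≤ L ∧ ∀ x y, dist (F x) (F y) ≤ L * dist x y := lip_compact (hol_lipAt hF)

/-- At critical points the local Lipschitz constants are small. -/
theorem lip_crit {F : Sp → Sp} (hF : HolMap F) {x : Sp} (hx : ¬ LI F x) {ε : ℝ} (hε : 0 < ε) :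
    LipAt ε F x := by
  obtain ⟨b, z, rfl⟩ := exists_kap x
  obtain ⟨C, hC, h⟩ := lip_chart b z
  obtain ⟨b', g, hg, hF2⟩ := hol_chart hF b z
  have hd : deriv g z = 0 := by
    by_contra hne
    exact hx ((li_chart hg hF2).2 hne)
  have h1 := h F b' g (ε / C) hg hF2 (by rw [hd, norm_zero]; positivity)
  refine h1.mono (le_of_eq ?_)
  field_simp

theorem exists_kap_le (x : Sp) : ∃ b z, ‖z‖ ≤ 1 ∧ x = kap b z := by
  induction x using OnePoint.rec with
  | infty => exact ⟨true, 0, by simp, by rw [kap_true, sinv_zero]⟩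
  | coe z =>
    by_cases hz : ‖z‖ ≤ 1
    · exact ⟨false, z, hz, (kap_false z).symm⟩
    · push Not at hz
      have hz0 : z ≠ 0 := by
        rintro rfl
        rw [norm_zero] at hz
        linarith
      refine ⟨true, z⁻¹, ?_, ?_⟩
      · rw [norm_inv]
        exact inv_le_one_of_one_le₀ hz.le
      · rw [kap_true, sinv_coe (inv_ne_zero hz0), inv_inv]

theorem near_coe {z : ℂ} (hz : ‖z‖ ≤ 1) {y : Sp} (hy : dist (z : Sp) y < 1 / 2) :
    ∃ w : ℂ, ‖w‖ ≤ 2 ∧ y = (w : Sp) ∧ ‖w - z‖ ≤ 15 * dist (z : Sp) y := by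
  have hz0 := norm_nonneg z
  have hz1 : 1 ≤ 2 / (1 + ‖z‖ ^ 2) := by
    rw [le_div_iff₀ (by positivity)]
    nlinarith
  have h2 : |(emb (z : Sp)).2 - (emb y).2| < 1 / 2 := by
    refine lt_of_le_of_lt ?_ hy
    rw [dist_emb, Prod.dist_eq, ← Real.dist_eq]
    exact le_max_right _ _
  induction y using OnePoint.rec with
  | infty =>
    rw [emb_coe, emb_infty] at h2
    have h3 := (abs_lt.1 h2).1
    simp only at h3
    linarith
  | coe w =>
    have hw : ‖w‖ ≤ 2 := by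
      rw [emb_coe, emb_coe] at h2
      have h3 := (abs_lt.1 h2).1
      simp only at h3
      have h4 : 1 / 2 < 2 / (1 + ‖w‖ ^ 2) := by linarith
      rw [lt_div_iff₀ (by positivity)] at h4
      nlinarith [norm_nonneg w]
    refine ⟨w, hw, rfl, ?_⟩
    have h5 := coe_dist (R := 2) (z := w) (w := z) hw (by linarith)
    rw [dist_comm] at h5
    refine h5.trans (le_of_eq ?_)
    norm_num

theorem near_kap {b : Bool} {z : ℂ} (hz : ‖z‖ ≤ 1) {y : Sp} (hy : dist (kap b z) y < 1 / 2) :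
    ∃ w : ℂ, ‖w‖ ≤ 2 ∧ y = kap b w ∧ ‖w - z‖ ≤ 15 * dist (kap b z) y := by
  cases b with
  | false =>
    simp only [kap_false] at hy ⊢
    exact near_coe hz hy
  | true =>
    simp only [kap_true] at hy ⊢
    have h1 : dist (z : Sp) (sinv y) = dist (sinv (z : Sp)) y := by
      rw [← dist_sinv, sinv_sinv]
    rw [← h1] at hy ⊢
    obtain ⟨w, h2, h3, h4⟩ := near_coe hz hy
    exact ⟨w, h2, by rw [← h3, sinv_sinv], h4⟩

/-- the kicks -/
def Kick (δ : ℝ) (M : Mx) : Prop := ∃ (b : Bool) (β : ℂ), ‖β‖ < δ ∧ M = un b β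

theorem Kick.near {δ : ℝ} {M : Mx} (h : Kick δ M) : M.near δ := by
  obtain ⟨b, β, h1, rfl⟩ := h
  exact un_near b h1

theorem Kick.mono {δ δ' : ℝ} (hd : δ ≤ δ') {M : Mx} (h : Kick δ M) : Kick δ' M := by
  obtain ⟨b, β, h1, h2⟩ := h
  exact ⟨b, β, h1.trans_le hd, h2⟩

theorem Kick.det {δ : ℝ} {M : Mx} (h : Kick δ M) : M.det ≠ 0 := by
  obtain ⟨b, β, h1, rfl⟩ := h
  rw [un_det]; exact one_ne_zero

theorem kick_one {δ : ℝ} (hδ : 0 < δ) : Kick δ Mx.one := ⟨false, 0, by simpa using hδ, by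
  simp [un, Mx.one]⟩

/-- Transitivity of the kicks. -/
theorem kick_trans {δ : ℝ} {x y : Sp} (h1 : dist x y < 1 / 2) (h2 : 15 * dist x y < δ) :
    ∃ M, Kick δ M ∧ M.act x = y := by
  obtain ⟨b, z, hz, rfl⟩ := exists_kap_le x
  obtain ⟨w, -, hw, hw2⟩ := near_kap hz h1
  refine ⟨un b (w - z), ⟨b, w - z, hw2.trans_lt h2, rfl⟩, ?_⟩
  rw [un_act, hw, add_sub_cancel]

theorem un_act_other (b : Bool) {β z : ℂ} (h : 1 + β * z ≠ 0) :
    (un b β).act (kap (!b) z) = kap (!b) (z / (1 + β * z)) := by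
  have e1 : pr (1 + β * z) z = pr 1 (z / (1 + β * z)) := by
    rw [← pr_smul h (u := 1) (v := z / (1 + β * z)), mul_one, mul_div_assoc',
      mul_div_cancel_left₀ _ h]
  have e2 : pr z (1 + β * z) = pr (z / (1 + β * z)) 1 := by
    rw [← pr_smul h (u := z / (1 + β * z)) (v := 1), mul_one, mul_div_assoc',
      mul_div_cancel_left₀ _ h]
  cases b with
  | false =>
    show (un false β).act (kap true z) = kap true (z / (1 + β * z))
    rw [kap_true, kap_true, ← pr_one z, ← pr_one (z / _), sinv_pr (Or.inr one_ne_zero),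
      sinv_pr (Or.inr one_ne_zero), Mx.act_pr _ (Or.inl one_ne_zero), ← e1]
    simp [un]
  | true =>
    show (un true β).act (kap false z) = kap false (z / (1 + β * z))
    rw [kap_false, kap_false, ← pr_one z, ← pr_one (z / _), Mx.act_pr _ (Or.inr one_ne_zero), ← e2]
    simp [un, add_comm]

theorem one_add_ne {β z : ℂ} (hβ : ‖β‖ ≤ 1 / 4) (hz : ‖z‖ ≤ 2) : 1 / 2 ≤ ‖1 + β * z‖ := by
  have h1 : ‖β * z‖ ≤ 1 / 2 := by
    rw [norm_mul]
    calc ‖β‖ * ‖z‖ ≤ 1 / 4 * 2 := by gcongr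
      _ = 1 / 2 := by norm_num
  have h2 : ‖(1 : ℂ)‖ ≤ ‖1 + β * z‖ + ‖β * z‖ := by
    calc ‖(1 : ℂ)‖ = ‖(1 + β * z) - β * z‖ := by congr 1; ring
      _ ≤ _ := norm_sub_le _ _
  rw [norm_one] at h2
  linarith

theorem dist_kap_le (b : Bool) (z w : ℂ) : dist (kap b z) (kap b w) ≤ 5 * ‖z - w‖ := by
  cases b with
  | false => rw [kap_false, kap_false]; exact dist_coe_le z w
  | true => rw [kap_true, kap_true, dist_sinv]; exact dist_coe_le z w

/-- Kicks are Lipschitz, uniformly. -/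
theorem kick_lip {M : Mx} (hM : Kick (1 / 4) M) (x y : Sp) :
    dist (M.act x) (M.act y) ≤ 300 * dist x y := by
  obtain ⟨b, β, hβ, rfl⟩ := hM
  rcases lt_or_ge (dist x y) (1 / 2) with h | h
  · obtain ⟨b', z, hz, rfl⟩ := exists_kap_le x
    obtain ⟨w, hw1, rfl, hw2⟩ := near_kap hz h
    rw [norm_sub_rev] at hw2
    have hd : 0 ≤ dist (kap b' z) (kap b' w) := dist_nonneg
    by_cases hb : b' = b
    · subst hb
      rw [un_act, un_act]
      refine (dist_kap_le _ _ _).trans ?_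
      rw [add_sub_add_right_eq_sub]
      linarith
    · have hb' : b' = !b := by cases b <;> cases b' <;> simp_all
      subst hb'
      have h1 := one_add_ne hβ.le (show ‖z‖ ≤ 2 by linarith)
      have h2 := one_add_ne hβ.le hw1
      have h1' : 1 + β * z ≠ 0 := fun h => by rw [h, norm_zero] at h1; linarith
      have h2' : 1 + β * w ≠ 0 := fun h => by rw [h, norm_zero] at h2; linarith
      rw [un_act_other b h1', un_act_other b h2']
      refine (dist_kap_le _ _ _).trans ?_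
      have e1 : z / (1 + β * z) - w / (1 + β * w) = (z - w) / ((1 + β * z) * (1 + β * w)) := by
        rw [div_sub_div _ _ h1' h2']
        congr 1
        ring
      rw [e1, norm_div, norm_mul]
      have h3 : 1 / 4 ≤ ‖1 + β * z‖ * ‖1 + β * w‖ := by nlinarith
      have h4 : ‖z - w‖ / (‖1 + β * z‖ * ‖1 + β * w‖) ≤ 4 * ‖z - w‖ := by
        rw [div_le_iff₀ (by linarith)]
        have := norm_nonneg (z - w)
        nlinarith
      linarith
  · have := dist_le_two ((un b β).act x) ((un b β).act y)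
    linarith

/-- Small kicks move points little. -/
theorem kick_disp {δ : ℝ} (hδ : δ ≤ 1 / 4) {M : Mx} (hM : Kick δ M) (x : Sp) :
    dist (M.act x) x ≤ 10 * δ := by
  obtain ⟨b, β, hβ, rfl⟩ := hM
  obtain ⟨b', z, hz, rfl⟩ := exists_kap_le x
  have hβ0 := norm_nonneg β
  by_cases hb : b' = b
  · subst hb
    rw [un_act]
    refine (dist_kap_le _ _ _).trans ?_
    rw [add_sub_cancel_left]
    linarith
  · have hb' : b' = !b := by cases b <;> cases b' <;> simp_all
    subst hb'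
    have h1 := one_add_ne (hβ.le.trans hδ) (show ‖z‖ ≤ 2 by linarith)
    have h1' : 1 + β * z ≠ 0 := fun h => by rw [h, norm_zero] at h1; linarith
    rw [un_act_other b h1']
    refine (dist_kap_le _ _ _).trans ?_
    have e1 : z / (1 + β * z) - z = -(β * z * z) / (1 + β * z) := by
      rw [eq_div_iff h1', sub_mul, div_mul_cancel₀ _ h1']
      ring
    rw [e1, norm_div, norm_neg, norm_mul, norm_mul]
    have hz0 := norm_nonneg z
    have h2 : ‖β‖ * ‖z‖ * ‖z‖ ≤ ‖β‖ := by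
      have : ‖z‖ * ‖z‖ ≤ 1 := by nlinarith
      nlinarith
    have h3 : ‖β‖ * ‖z‖ * ‖z‖ / ‖1 + β * z‖ ≤ 2 * ‖β‖ := by
      rw [div_le_iff₀ (by linarith)]
      nlinarith
    linarith

end Pool.Agent.Y334.FS
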