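import Mathlib
import Pool.Agent.Y334.FS.Lip

/-! Non-autonomous contraction: reachable sets omitting balls. -/

set_option autoImplicit false

open Set Filter Topology Metric
open scoped OnePoint
open Pool.Agent.Helper114.Herman
open Pool.Agent.Y334.RM

namespace Pool.Agent.Y334.FS

attribute [local instance] sphMet

/-- the composition of the first `k` maps -/
def It {X : Type} (f : ℕ → X → X) : ℕ → X → X
  | 0, z => z
  | k + 1, z => f k (It f k z)

theorem It_zero {X : Type} (f : ℕ → X → X) (z : X) : It f 0 z = z := rfl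

theorem It_succ {X : Type} (f : ℕ → X → X) (k : ℕ) (z : X) : It f (k + 1) z = f k (It f k z) := rfl

theorem It_add {X : Type} (f : ℕ → X → X) (k m : ℕ) (z : X) :
    It f (k + m) z = It (fun j => f (k + j)) m (It f k z) := by
  induction m with
  | zero => rfl
  | succ m ih => rw [← Nat.add_assoc, It_succ, ih, It_succ]

theorem It_shift {X : Type} (f : ℕ → X → X) (k : ℕ) (z : X) :
    It f (k + 1) z = It (fun j => f (j + 1)) k (f 0 z) := by
  rw [Nat.add_comm, It_add]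
  show It (fun j => f (1 + j)) k (f 0 z) = _
  simp only [Nat.add_comm 1]

theorem It_mem {X : Type} {f : ℕ → X → X} {O : ℕ → Set X} (hm : ∀ k, ∀ z ∈ O k, f k z ∈ O (k + 1))
    (k : ℕ) {z : X} (hz : z ∈ O 0) : It f k z ∈ O k := by
  induction k with
  | zero => exact hz
  | succ k ih => exact hm k _ ih

theorem It_diff {f : ℕ → ℂ → ℂ} {O : ℕ → Set ℂ} (hf : ∀ k, DifferentiableOn ℂ (f k) (O k))
    (hm : ∀ k, ∀ z ∈ O k, f k z ∈ O (k + 1)) (k : ℕ) : DifferentiableOn ℂ (It f k) (O 0) := by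
  induction k with
  | zero => exact differentiableOn_id
  | succ k ih => exact (hf k).comp ih (fun z hz => It_mem hm k hz)

/-- Contraction of the Caratheodory metrics along a sequence of maps. -/
theorem carath_seq {f : ℕ → ℂ → ℂ} {O : ℕ → Set ℂ} (hO : ∀ k, IsOpen (O k))
    (hf : ∀ k, DifferentiableOn ℂ (f k) (O k)) {R η : ℝ}
    (hR : 0 ≤ R) (hη : 0 < η) (hB : ∀ k, ∀ z ∈ O k, ‖z‖ ≤ R)
    (hm : ∀ k, ∀ z ∈ O k, ball (f k z) η ⊆ O (k + 1))
    {y : ℂ} {r : ℝ} (hr : 0 < r) (hy : closedBall y r ⊆ O 0) (k : ℕ) :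
    ∀ G : ℂ → ℂ, DifferentiableOn ℂ G (O k) → (∀ z ∈ O k, ‖G z‖ ≤ 1) →
      ‖deriv G (It f k y)‖ * ‖deriv (It f k) y‖ * (1 + η / (4 * (R + 1))) ^ k ≤ 1 / r := by
  have hyO : y ∈ O 0 := hy (mem_closedBall_self hr.le)
  have hmaps : ∀ k, ∀ z ∈ O k, f k z ∈ O (k + 1) := fun k z hz => hm k z hz (mem_ball_self hη)
  induction k with
  | zero =>
    intro G hG hG1
    have h1 : ‖deriv G y‖ ≤ 1 / r := by
      apply Complex.norm_deriv_le_of_forall_mem_sphere_norm_le hr
      · apply DifferentiableOn.diffContOnCl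
        rw [closure_ball y hr.ne']
        exact hG.mono hy
      · intro z hz
        exact hG1 z (hy (sphere_subset_closedBall hz))
    have h2 : It f 0 = id := rfl
    rw [h2]
    simpa using h1
  | succ k ih =>
    intro G hG hG1
    set δ : ℝ := η / (4 * (R + 1)) with hδ
    have hδ0 : 0 < δ := by positivity
    set w : ℂ := It f k y with hw
    have hwO : w ∈ O k := It_mem hmaps k hyO
    have hfw : DifferentiableAt ℂ (f k) w := (hf k).differentiableAt ((hO k).mem_nhds hwO)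
    set g : ℂ → ℂ := fun u => f k u + (δ : ℂ) * (f k u - f k w) with hg
    have hgO : ∀ u ∈ O k, g u ∈ O (k + 1) := by
      intro u hu
      apply hm k u hu
      rw [mem_ball, dist_eq_norm]
      have h1 : g u - f k u = (δ : ℂ) * (f k u - f k w) := by simp [hg]
      rw [h1, norm_mul, Complex.norm_real, Real.norm_eq_abs, abs_of_pos hδ0]
      have h2 : ‖f k u - f k w‖ ≤ 2 * R := by
        have := norm_sub_le (f k u) (f k w)
        have h3 := hB (k + 1) _ (hmaps k u hu)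
        have h4 := hB (k + 1) _ (hmaps k w hwO)
        linarith
      calc δ * ‖f k u - f k w‖ ≤ δ * (2 * R) := by gcongr
        _ < δ * (4 * (R + 1)) := by
          apply mul_lt_mul_of_pos_left _ hδ0
          linarith
        _ = η := by rw [hδ]; field_simp
    have hgd : DifferentiableOn ℂ g (O k) := by
      intro u hu
      exact (hf k u hu).add (((hf k u hu).sub (differentiableWithinAt_const _)).const_mul _)
    have hgw : g w = f k w := by simp [hg]
    have hgw' : deriv g w = (1 + (δ : ℂ)) * deriv (f k) w := by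
      have h1 : HasDerivAt g (deriv (f k) w + (δ : ℂ) * (deriv (f k) w)) w := by
        have h2 := hfw.hasDerivAt
        exact h2.add ((h2.sub_const (f k w)).const_mul (δ : ℂ))
      rw [h1.deriv]; ring
    have h1 := ih (G ∘ g) (hG.comp hgd hgO) (fun z hz => hG1 _ (hgO z hz))
    have h2 : deriv (G ∘ g) w = deriv G (f k w) * ((1 + (δ : ℂ)) * deriv (f k) w) := by
      rw [deriv_comp w, hgw, hgw']
      · rw [hgw]
        exact hG.differentiableAt ((hO (k + 1)).mem_nhds (hmaps k w hwO))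
      · exact hgd.differentiableAt ((hO k).mem_nhds hwO)
    rw [h2] at h1
    have h3 : ‖(1 + (δ : ℂ))‖ = 1 + δ := by
      have : (1 + (δ : ℂ)) = ((1 + δ : ℝ) : ℂ) := by push_cast; ring
      rw [this, Complex.norm_real, Real.norm_eq_abs, abs_of_pos (by linarith)]
    rw [norm_mul, norm_mul, h3] at h1
    have h4 : deriv (It f (k + 1)) y = deriv (f k) w * deriv (It f k) y := by
      have h5 : It f (k + 1) = f k ∘ It f k := rfl
      rw [h5]
      exact deriv_comp y hfw ((It_diff hf hmaps k).differentiableAt ((hO 0).mem_nhds hyO))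
    rw [h4, norm_mul, It_succ, ← hw]
    calc ‖deriv G (f k w)‖ * (‖deriv (f k) w‖ * ‖deriv (It f k) y‖) * (1 + δ) ^ (k + 1)
        = ‖deriv G (f k w)‖ * ((1 + δ) * ‖deriv (f k) w‖) * ‖deriv (It f k) y‖ * (1 + δ) ^ k := by
          ring
      _ ≤ 1 / r := h1

/-- the coordinate with a given point at infinity -/
theorem coord {r : ℝ} (hr : 0 < r) (ν : Sp) : ∃ (H : Sp ≃ₜ Sp) (L R : ℝ), 1 ≤ L ∧ 0 ≤ R ∧
    H ν = ∞ ∧ HolMap H ∧ HolMap H.symm ∧
    (∀ x y, dist (H.symm x) (H.symm y) ≤ L * dist x y) ∧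
    ∀ u : ℂ, r ≤ dist (H.symm (u : Sp)) ν → ‖u‖ ≤ R := by
  obtain ⟨H, h0, h1, h2, -⟩ := exists_conj ν
  obtain ⟨L, hL1, hL⟩ := hol_lip h2
  have h3 : H.symm ⁻¹' (ball ν r) ∈ 𝓝 (∞ : Sp) := by
    apply H.symm.continuous.continuousAt
    rw [← h0, H.symm_apply_apply]
    exact ball_mem_nhds ν hr
  obtain ⟨R, hR⟩ := far_of_nhds h3
  refine ⟨H, L, max R 0, hL1, le_max_right _ _, h0, h1, h2, hL, fun u hu => ?_⟩
  by_contra hcon
  push Not at hcon
  have h4 : H.symm (u : Sp) ∈ ball ν r := hR u ((le_max_left _ _).trans hcon.le)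
  rw [mem_ball] at h4
  linarith

/-- **Contraction lemma.** -/
theorem contr {F : ℕ → Sp → Sp} (hF : ∀ k, HolMap (F k)) {U : ℕ → Set Sp} (hU : ∀ k, IsOpen (U k))
    {y : ℕ → Sp} {r η : ℝ} (hr : 0 < r) (hη : 0 < η) (hom : ∀ k, ∀ u ∈ U k, r ≤ dist u (y k))
    (hm : ∀ k, ∀ u ∈ U k, ball (F k u) η ⊆ U (k + 1)) {z : Sp} (hz : z ∈ U 0) {κ : ℝ}
    (hκ : 0 < κ) : ∃ k, LipAt κ (It F k) z := by
  classical
  have hmaps : ∀ k, ∀ u ∈ U k, F k u ∈ U (k + 1) := fun k u hu => hm k u hu (mem_ball_self hη)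
  -- the net
  obtain ⟨t, -, htf, htc⟩ := finite_cover_balls_of_compact (isCompact_univ (X := Sp)) (half_pos hr)
  have hnet : ∀ x : Sp, ∃ ν ∈ t, dist x ν < r / 2 := by
    intro x
    obtain ⟨ν, hν, hx⟩ := mem_iUnion₂.1 (htc (mem_univ x))
    exact ⟨ν, hν, hx⟩
  choose Hf Lf Rf hL1 hR0 hH0 hH1 hH2 hHL hHR using fun ν : Sp => coord (half_pos hr) ν
  obtain ⟨L', hL'⟩ := (htf.toFinset.image Lf).exists_le
  obtain ⟨R', hR'⟩ := (htf.toFinset.image Rf).exists_le
  set L : ℝ := max L' 1 with hL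
  set R : ℝ := max R' 0 with hR
  have hL1' : 1 ≤ L := le_max_right _ _
  have hR0' : 0 ≤ R := le_max_right _ _
  have hLt : ∀ ν ∈ t, Lf ν ≤ L := fun ν hν =>
    (hL' _ (Finset.mem_image_of_mem _ (htf.mem_toFinset.2 hν))).trans (le_max_left _ _)
  have hRt : ∀ ν ∈ t, Rf ν ≤ R := fun ν hν =>
    (hR' _ (Finset.mem_image_of_mem _ (htf.mem_toFinset.2 hν))).trans (le_max_left _ _)
  choose ν hνt hνd using fun k => hnet (y k)
  have hom' : ∀ k, ∀ u ∈ U k, r / 2 ≤ dist u (ν k) := by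
    intro k u hu
    have h1 := hom k u hu
    have h2 := dist_triangle_right u (y k) (ν k)
    have h3 := hνd k
    linarith
  have hfin : ∀ k, ∀ x ∈ U k, Hf (ν k) x ≠ ∞ := by
    intro k x hx h
    have h1 : x = ν k := (Hf (ν k)).injective (by rw [h, hH0])
    have h2 := hom' k x hx
    rw [h1, dist_self] at h2
    linarith
  set O : ℕ → Set ℂ := fun k => {u | (Hf (ν k)).symm (u : Sp) ∈ U k} with hO
  have hOo : ∀ k, IsOpen (O k) := fun k =>
    (hU k).preimage ((Hf (ν k)).symm.continuous.comp OnePoint.continuous_coe)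
  set f : ℕ → ℂ → ℂ := fun k u => co (Hf (ν (k + 1)) (F k ((Hf (ν k)).symm (u : Sp)))) with hf
  have hfc : ∀ k, ∀ u ∈ O k, ((f k u : ℂ) : Sp) = Hf (ν (k + 1)) (F k ((Hf (ν k)).symm (u : Sp))) :=
    fun k u hu => coe_co (hfin (k + 1) _ (hmaps k _ hu))
  have hfs : ∀ k, ∀ u ∈ O k, (Hf (ν (k + 1))).symm ((f k u : ℂ) : Sp) =
      F k ((Hf (ν k)).symm (u : Sp)) := by
    intro k u hu
    rw [hfc k u hu, Homeomorph.symm_apply_apply]
  have hfd : ∀ k, DifferentiableOn ℂ (f k) (O k) := by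
    intro k u hu
    have h1 : HolAt (fun w : ℂ => Hf (ν (k + 1)) (F k ((Hf (ν k)).symm (w : Sp)))) u :=
      hH1 _ _ _ (hF k _ _ (hH2 _ _ _ (holAt_coe analyticAt_id)))
    obtain ⟨g, hg, h2⟩ := h1.exists_coe (hfin (k + 1) _ (hmaps k _ hu))
    have h3 : f k =ᶠ[𝓝 u] g := by
      filter_upwards [h2] with w hw
      show co (Hf (ν (k + 1)) (F k ((Hf (ν k)).symm (w : Sp)))) = g w
      rw [hw, co_coe]
    exact (hg.differentiableAt.congr_of_eventuallyEq h3).differentiableWithinAt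
  have hB : ∀ k, ∀ u ∈ O k, ‖u‖ ≤ R := fun k u hu =>
    (hHR _ u (hom' k _ hu)).trans (hRt _ (hνt k))
  set η' : ℝ := η / (5 * L) with hη'
  have hη0 : 0 < η' := by positivity
  have hmar : ∀ k, ∀ u ∈ O k, ball (f k u) η' ⊆ O (k + 1) := by
    intro k u hu v hv
    show (Hf (ν (k + 1))).symm (v : Sp) ∈ U (k + 1)
    apply hm k _ hu
    rw [mem_ball, ← hfs k u hu]
    rw [mem_ball, dist_eq_norm] at hv
    have h0 : (0 : ℝ) < Lf (ν (k + 1)) := by linarith [hL1 (ν (k + 1))]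
    calc dist ((Hf (ν (k + 1))).symm (v : Sp)) ((Hf (ν (k + 1))).symm ((f k u : ℂ) : Sp))
        ≤ Lf (ν (k + 1)) * dist (v : Sp) ((f k u : ℂ) : Sp) := hHL _ _ _
      _ ≤ L * (5 * ‖v - f k u‖) := by
          gcongr
          · exact hLt _ (hνt _)
          · exact dist_coe_le _ _
      _ < L * (5 * η') := by gcongr
      _ = η := by rw [hη']; field_simp
  have hfm : ∀ k, ∀ u ∈ O k, f k u ∈ O (k + 1) := fun k u hu => hmar k u hu (mem_ball_self hη0)
  set u₀ : ℂ := co (Hf (ν 0) z) with hu₀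
  have hu₀c : (u₀ : Sp) = Hf (ν 0) z := coe_co (hfin 0 z hz)
  have hu₀O : u₀ ∈ O 0 := by
    show (Hf (ν 0)).symm (u₀ : Sp) ∈ U 0
    rw [hu₀c, Homeomorph.symm_apply_apply]
    exact hz
  obtain ⟨r₁, hr₁, hball⟩ := Metric.isOpen_iff.1 (hOo 0) u₀ hu₀O
  have hcb : closedBall u₀ (r₁ / 2) ⊆ O 0 :=
    (closedBall_subset_ball (by linarith)).trans hball
  -- the first coordinate is locally Lipschitz
  obtain ⟨C₀, hC₀, hLip0⟩ : ∃ C₀ : ℝ, 0 < C₀ ∧ LipAt C₀ (fun x => co (Hf (ν 0) x)) z := by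
    obtain ⟨K, hK⟩ := hol_lipAt (hH1 (ν 0)) z
    obtain ⟨C, hC, hci⟩ := lipAt_ci false u₀
    rw [kap_false, hu₀c] at hci
    have h1 : LipAt (C * K) (fun x => ci false (Hf (ν 0) x)) z :=
      LipAt.comp hci hK (Hf (ν 0)).continuous.continuousAt hC.le
    refine ⟨max (C * K) 1, lt_of_lt_of_le one_pos (le_max_right _ _), (h1.congr ?_).mono
      (le_max_left _ _)⟩
    exact Eventually.of_forall fun x => by simp [ci]
  -- the number of steps
  set q : ℝ := 1 + η' / (4 * (R + 1)) with hq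
  have hq1 : 1 < q := by
    have : 0 < η' / (4 * (R + 1)) := by positivity
    linarith
  set K : ℝ := κ / (5 * L * C₀) with hK
  have hK0 : 0 < K := by positivity
  obtain ⟨k, hk⟩ : ∃ k : ℕ, (R + 1) * (1 / (r₁ / 2)) / q ^ k < K := by
    have h1 : Tendsto (fun m : ℕ => (R + 1) * (1 / (r₁ / 2)) / q ^ m) atTop (𝓝 0) :=
      tendsto_const_nhds.div_atTop (tendsto_pow_atTop_atTop_of_one_lt hq1)
    exact (h1.eventually (gt_mem_nhds hK0)).exists
  refine ⟨k, ?_⟩
  have hder : ‖deriv (It f k) u₀‖ < K := by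
    refine lt_of_le_of_lt ?_ hk
    have h1 := carath_seq hOo hfd hR0' hη0 hB hmar (by positivity : 0 < r₁ / 2) hcb k
      (fun u => u / ((R + 1 : ℝ) : ℂ)) ((differentiable_id.div_const _).differentiableOn) (by
        intro u hu
        rw [norm_div, Complex.norm_real, Real.norm_eq_abs, abs_of_pos (by linarith : (0:ℝ) < R + 1),
          div_le_one (by linarith)]
        have := hB k u hu
        linarith)
    have h2 : deriv (fun u : ℂ => u / ((R + 1 : ℝ) : ℂ)) (It f k u₀) = 1 / ((R + 1 : ℝ) : ℂ) := by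
      simp
    rw [h2, norm_div, norm_one, Complex.norm_real, Real.norm_eq_abs,
      abs_of_pos (by linarith : (0:ℝ) < R + 1), ← hq] at h1
    have hqk : 0 < q ^ k := by positivity
    have hR1 : (0:ℝ) < R + 1 := by linarith
    rw [le_div_iff₀ hqk]
    calc ‖deriv (It f k) u₀‖ * q ^ k = (R + 1) * (1 / (R + 1) * ‖deriv (It f k) u₀‖ * q ^ k) := by
          field_simp
      _ ≤ (R + 1) * (1 / (r₁ / 2)) := by gcongr
  have han : AnalyticAt ℂ (It f k) u₀ :=
    (It_diff hfd hfm k).analyticAt ((hOo 0).mem_nhds hu₀O)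
  have hL2 : LipAt (K * C₀) (fun x => It f k (co (Hf (ν 0) x))) z := by
    apply LipAt.comp _ hLip0 _ hK0.le
    · exact lipAt_analytic han hder
    · obtain ⟨V, hV, hVl⟩ := hLip0
      rw [ContinuousAt, tendsto_iff_dist_tendsto_zero]
      have h1 : Tendsto (fun y => C₀ * dist y z) (𝓝 z) (𝓝 (C₀ * dist z z)) :=
        (Continuous.tendsto (by fun_prop) z)
      rw [dist_self, mul_zero] at h1
      refine squeeze_zero' (Eventually.of_forall fun _ => dist_nonneg) ?_ h1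
      filter_upwards [hV] with y hy
      exact hVl y hy z (mem_of_mem_nhds hV)
  obtain ⟨V, hV, hVl⟩ := hL2
  -- the transfer
  have htr : ∀ m, ∀ x ∈ U 0, It F m x = (Hf (ν m)).symm ((It f m (co (Hf (ν 0) x)) : ℂ) : Sp) := by
    intro m x hx
    have hx0 : ((co (Hf (ν 0) x) : ℂ) : Sp) = Hf (ν 0) x := coe_co (hfin 0 x hx)
    have hxO : co (Hf (ν 0) x) ∈ O 0 := by
      show (Hf (ν 0)).symm ((co (Hf (ν 0) x) : ℂ) : Sp) ∈ U 0
      rw [hx0, Homeomorph.symm_apply_apply]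
      exact hx
    induction m with
    | zero => rw [It_zero, It_zero, hx0, Homeomorph.symm_apply_apply]
    | succ m ih =>
      rw [It_succ, It_succ, hfs m _ (It_mem hfm m hxO), ← ih]
  refine ⟨V ∩ U 0, inter_mem hV ((hU 0).mem_nhds hz), ?_⟩
  rintro x ⟨hx1, hx2⟩ x' ⟨hx1', hx2'⟩
  rw [htr k x hx2, htr k x' hx2']
  have h0 : (0 : ℝ) < Lf (ν k) := by linarith [hL1 (ν k)]
  have h1 := hVl x hx1 x' hx1'
  rw [dist_eq_norm] at h1
  calc _ ≤ Lf (ν k) * dist ((It f k (co (Hf (ν 0) x)) : ℂ) : Sp)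
        ((It f k (co (Hf (ν 0) x')) : ℂ) : Sp) := hHL _ _ _
    _ ≤ L * (5 * ‖It f k (co (Hf (ν 0) x)) - It f k (co (Hf (ν 0) x'))‖) := by
        gcongr
        · exact hLt _ (hνt _)
        · exact dist_coe_le _ _
    _ ≤ L * (5 * (K * C₀ * dist x x')) := by gcongr
    _ = κ * dist x x' := by rw [hK]; field_simp

end Pool.Agent.Y334.FS
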