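import Mathlib
import Pool.Agent.Y334.FS.Contr

/-! Pseudo-orbits along sequences of maps; contracting blocks. -/

set_option autoImplicit false

open Set Filter Topology Metric
open scoped OnePoint
open Pool.Agent.Helper114.Herman
open Pool.Agent.Y334.RM

namespace Pool.Agent.Y334.FS

attribute [local instance] sphMet

/-- the maps `M ∘ g (s k)` applied one after the other -/
noncomputable def evs {I : Type} (g : I → Sp → Sp) : (ℕ → I) → List Mx → Sp → Sp
  | _, [], x => x
  | s, M :: l, x => evs g (fun n => s (n + 1)) l (M.act (g (s 0) x))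

section

variable {I : Type} (g : I → Sp → Sp)

theorem evs_nil (s : ℕ → I) (x : Sp) : evs g s [] x = x := rfl

theorem evs_cons (s : ℕ → I) (M : Mx) (l : List Mx) (x : Sp) :
    evs g s (M :: l) x = evs g (fun n => s (n + 1)) l (M.act (g (s 0) x)) := rfl

theorem evs_append (s : ℕ → I) (l₁ l₂ : List Mx) (x : Sp) :
    evs g s (l₁ ++ l₂) x = evs g (fun n => s (n + l₁.length)) l₂ (evs g s l₁ x) := by
  induction l₁ generalizing s x with
  | nil => rfl
  | cons M l ih =>
    rw [List.cons_append, evs_cons, ih, evs_cons, List.length_cons]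
    rfl

theorem evs_snoc (s : ℕ → I) (l : List Mx) (M : Mx) (x : Sp) :
    evs g s (l ++ [M]) x = M.act (g (s l.length) (evs g s l x)) := by
  rw [evs_append, evs_cons, evs_nil, Nat.zero_add]

theorem evs_congr {s s' : ℕ → I} {l : List Mx} (h : ∀ j < l.length, s j = s' j) (x : Sp) :
    evs g s l x = evs g s' l x := by
  induction l generalizing s s' x with
  | nil => rfl
  | cons M l ih =>
    rw [evs_cons, evs_cons, h 0 (by simp)]
    exact ih (fun j hj => h (j + 1) (by simpa using hj)) _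

theorem evs_hol (hg : ∀ i, HolMap (g i)) (s : ℕ → I) {l : List Mx} (hl : ∀ M ∈ l, M.det ≠ 0) :
    HolMap (evs g s l) := by
  induction l generalizing s with
  | nil => exact HolMap.id
  | cons M l ih =>
    exact (ih (fun n => s (n + 1)) fun N hN => hl N (List.mem_cons_of_mem _ hN)).comp
      ((Mx.hol (hl M List.mem_cons_self)).comp (hg _))

/-- composition without kicks -/
theorem evs_one (s : ℕ → I) (k : ℕ) (x : Sp) :
    evs g s (List.replicate k Mx.one) x = It (fun j => g (s j)) k x := by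
  induction k with
  | zero => rfl
  | succ k ih =>
    rw [List.replicate_succ', evs_snoc, ih, Mx.act_one, List.length_replicate, It_succ]

end

/-- all kicks small -/
def adK (δ : ℝ) (l : List Mx) : Prop := ∀ M ∈ l, Kick δ M

theorem adK.append {δ : ℝ} {l₁ l₂ : List Mx} (h₁ : adK δ l₁) (h₂ : adK δ l₂) :
    adK δ (l₁ ++ l₂) := by
  intro M hM
  rcases List.mem_append.1 hM with h | h
  · exact h₁ M h
  · exact h₂ M h

theorem adK.det {δ : ℝ} {l : List Mx} (h : adK δ l) : ∀ M ∈ l, M.det ≠ 0 := fun M hM => (h M hM).det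

theorem adK_one {δ : ℝ} (hδ : 0 < δ) (k : ℕ) : adK δ (List.replicate k Mx.one) := by
  intro M hM
  rw [(List.mem_replicate.1 hM).2]
  exact kick_one hδ

/-- the pseudo-orbits -/
def PO (F : ℕ → Sp → Sp) (η : ℝ) (x : Sp) : ℕ → Set Sp
  | 0 => {x}
  | k + 1 => ⋃ u ∈ PO F η x k, ball (F k u) η

theorem PO_zero (F : ℕ → Sp → Sp) (η : ℝ) (x : Sp) : PO F η x 0 = {x} := rfl

theorem PO_succ (F : ℕ → Sp → Sp) (η : ℝ) (x : Sp) (k : ℕ) :
    PO F η x (k + 1) = ⋃ u ∈ PO F η x k, ball (F k u) η := rfl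

theorem PO_ball {F : ℕ → Sp → Sp} {η : ℝ} {x : Sp} {k : ℕ} {u : Sp} (hu : u ∈ PO F η x k) :
    ball (F k u) η ⊆ PO F η x (k + 1) := by
  rw [PO_succ]
  exact subset_biUnion_of_mem (u := fun u => ball (F k u) η) hu

theorem PO_open (F : ℕ → Sp → Sp) (η : ℝ) (x : Sp) (k : ℕ) : IsOpen (PO F η x (k + 1)) := by
  rw [PO_succ]
  exact isOpen_biUnion fun _ _ => isOpen_ball

/-- Contraction when the pseudo-orbits omit balls. -/
theorem contr_PO {F : ℕ → Sp → Sp} (hF : ∀ k, HolMap (F k)) {r η : ℝ} (hr : 0 < r) (hη : 0 < η)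
    {x : Sp} {y : ℕ → Sp} (hom : ∀ k, ∀ u ∈ PO F η x (k + 1), r ≤ dist u (y k)) {κ : ℝ}
    (hκ : 0 < κ) : ∃ k, LipAt κ (It F (k + 1)) x := by
  obtain ⟨K, hK⟩ := hol_lipAt (hF 0) x
  have hK' : LipAt (|K| + 1) (F 0) x := hK.mono (by linarith [le_abs_self K])
  have hK0 : 0 < |K| + 1 := by positivity
  obtain ⟨k, hk⟩ := contr (F := fun k => F (k + 1)) (fun k => hF (k + 1))
    (U := fun k => PO F η x (k + 1)) (fun k => PO_open F η x k) (y := y) hr hη hom
    (fun k u hu => PO_ball hu) (z := F 0 x) (PO_ball (k := 0) (by rw [PO_zero]; rfl)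
      (mem_ball_self hη)) (κ := κ / (|K| + 1)) (by positivity)
  refine ⟨k, ?_⟩
  have h1 := LipAt.comp hk hK' (hF 0).continuous.continuousAt (by positivity)
  have h2 : (fun y => It (fun k => F (k + 1)) k (F 0 y)) = It F (k + 1) := by
    funext y
    rw [It_shift]
  rw [h2] at h1
  refine h1.mono (le_of_eq ?_)
  field_simp

/-- Pseudo-orbits come from kicks. -/
theorem PO_evs {I : Type} {g : I → Sp → Sp} {s : ℕ → I} {η δ : ℝ} (hη : η ≤ 1 / 2)
    (hηδ : 15 * η ≤ δ) {x : Sp} {k : ℕ} {y : Sp} (hy : y ∈ PO (fun j => g (s j)) η x k) :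
    ∃ l : List Mx, l.length = k ∧ adK δ l ∧ evs g s l x = y := by
  induction k generalizing y with
  | zero =>
    rw [PO_zero] at hy
    exact ⟨[], rfl, by intro M hM; simp at hM, hy.symm⟩
  | succ k ih =>
    rw [PO_succ] at hy
    obtain ⟨u, hu, hy⟩ := mem_iUnion₂.1 hy
    obtain ⟨l, h1, h2, h3⟩ := ih hu
    rw [mem_ball, dist_comm] at hy
    obtain ⟨M, hM, hM2⟩ := kick_trans (δ := δ) (x := g (s k) u) (y := y) (hy.trans_le hη)
      (lt_of_lt_of_le (by linarith) hηδ)
    refine ⟨l ++ [M], by simp [h1], h2.append ?_, ?_⟩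
    · intro N hN
      rw [List.mem_singleton] at hN
      rw [hN]; exact hM
    · rw [evs_snoc, h1, h3, hM2]

theorem lip_family {I : Type} [Finite I] {g : I → Sp → Sp} (hg : ∀ i, HolMap (g i)) :
    ∃ L : ℝ, 1 ≤ L ∧ ∀ i x y, dist (g i x) (g i y) ≤ L * dist x y := by
  classical
  have := Fintype.ofFinite I
  choose L h1 h2 using fun i => hol_lip (hg i)
  obtain ⟨M, hM⟩ := (Finset.univ.image L).exists_le
  refine ⟨max M 1, le_max_right _ _, fun i x y => (h2 i x y).trans ?_⟩
  apply mul_le_mul_of_nonneg_right _ dist_nonneg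
  exact (hM _ (Finset.mem_image_of_mem _ (Finset.mem_univ i))).trans (le_max_left _ _)

/-- Along every sequence, small kicks make a block which contracts near a given point. -/
theorem claimB {I : Type} [Finite I] {g : I → Sp → Sp} (hg : ∀ i, Good (g i)) {δ : ℝ} (hδ : 0 < δ)
    (s : ℕ → I) (x : Sp) {κ : ℝ} (hκ : 0 < κ) :
    ∃ l : List Mx, l ≠ [] ∧ adK δ l ∧ LipAt κ (evs g s l) x := by
  choose c hc using fun i => (hg i).ex
  by_cases hit : ∃ l : List Mx, adK δ l ∧ evs g s l x = c (s l.length)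
  · obtain ⟨l, hl, hlx⟩ := hit
    refine ⟨l ++ [Mx.one], by simp, hl.append ?_, ?_⟩
    · intro N hN
      rw [List.mem_singleton] at hN
      rw [hN]; exact kick_one hδ
    · have hev := evs_hol g (fun i => (hg i).hol) s hl.det
      obtain ⟨K, hK⟩ := hol_lipAt hev x
      have hK' : LipAt (|K| + 1) (evs g s l) x := hK.mono (by linarith [le_abs_self K])
      have h1 : LipAt (κ / (|K| + 1)) (g (s l.length)) (evs g s l x) := by
        rw [hlx]
        exact lip_crit (hg _).hol (hc _) (by positivity)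
      have h2 := LipAt.comp h1 hK' hev.continuous.continuousAt (by positivity)
      have h3 : (fun y => g (s l.length) (evs g s l y)) = evs g s (l ++ [Mx.one]) := by
        funext y
        rw [evs_snoc, Mx.act_one]
      rw [h3] at h2
      refine h2.mono (le_of_eq ?_)
      field_simp
  · push Not at hit
    set η : ℝ := min (1 / 2) (δ / 15) with hη
    have hη0 : 0 < η := by positivity
    have hη1 : η ≤ 1 / 2 := min_le_left _ _
    have hη2 : 15 * η ≤ δ := by
      have : η ≤ δ / 15 := min_le_right _ _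
      linarith
    obtain ⟨L, hL1, hL⟩ := lip_family fun i => (hg i).hol
    have hnot : ∀ k, c (s k) ∉ PO (fun j => g (s j)) η x k := by
      intro k hk
      obtain ⟨l, h1, h2, h3⟩ := PO_evs hη1 hη2 hk
      apply hit l h2
      rw [h1, h3]
    choose y hy using fun k => (hg (s (k + 1))).surj (c (s (k + 2)))
    obtain ⟨k, hk⟩ := contr_PO (F := fun j => g (s j)) (fun k => (hg _).hol)
      (r := η / L) (η := η) (by positivity) hη0 (x := x) (y := y) (by
        intro k u hu
        by_contra hcon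
        push Not at hcon
        apply hnot (k + 2)
        apply PO_ball hu
        rw [mem_ball, ← hy k, dist_comm]
        calc dist (g (s (k + 1)) u) (g (s (k + 1)) (y k)) ≤ L * dist u (y k) := hL _ _ _
          _ < L * (η / L) := by gcongr
          _ = η := by field_simp) hκ
    refine ⟨List.replicate (k + 1) Mx.one, by simp [List.replicate_succ], adK_one hδ _, ?_⟩
    have h1 : evs g s (List.replicate (k + 1) Mx.one) = It (fun j => g (s j)) (k + 1) := by
      funext z
      exact evs_one g s (k + 1) z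
    rw [h1]
    exact hk

theorem exists_pos_lb {α : Type} (t : Finset α) (f : α → ℝ) (h : ∀ a ∈ t, 0 < f a) :
    ∃ ρ : ℝ, 0 < ρ ∧ ∀ a ∈ t, ρ ≤ f a := by
  classical
  induction t using Finset.induction_on with
  | empty => exact ⟨1, one_pos, by simp⟩
  | insert a t _ ih =>
    obtain ⟨ρ, h1, h2⟩ := ih fun b hb => h b (Finset.mem_insert_of_mem hb)
    refine ⟨min ρ (f a), lt_min h1 (h a (Finset.mem_insert_self _ _)), fun b hb => ?_⟩
    rcases Finset.mem_insert.1 hb with rfl | hb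
    · exact min_le_right _ _
    · exact (min_le_left _ _).trans (h2 b hb)

theorem agree_open {I : Type} [TopologicalSpace I] [DiscreteTopology I] (s : ℕ → I) (n : ℕ) :
    IsOpen {s' : ℕ → I | ∀ j < n, s' j = s j} := by
  have h1 : {s' : ℕ → I | ∀ j < n, s' j = s j} = ⋂ j ∈ Finset.range n, {s' | s' j = s j} := by
    ext s'
    simp
  rw [h1]
  apply isOpen_biInter_finset
  intro j _
  have h2 : {s' : ℕ → I | s' j = s j} = (fun s' : ℕ → I => s' j) ⁻¹' {s j} := by
    ext s'; simp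
  rw [h2]
  exact (isOpen_discrete _).preimage (continuous_apply j)

/-- Finitely many blocks suffice. -/
theorem blocks {I : Type} [Finite I] {g : I → Sp → Sp} (hg : ∀ i, Good (g i)) {δ : ℝ} (hδ : 0 < δ)
    {κ : ℝ} (hκ : 0 < κ) : ∃ (𝓛 : Finset (List Mx)) (ρ : ℝ), 0 < ρ ∧
      (∀ l ∈ 𝓛, l ≠ [] ∧ adK δ l) ∧
      ∀ (s : ℕ → I) (x : Sp), ∃ l ∈ 𝓛, ∀ y ∈ ball x ρ, ∀ y' ∈ ball x ρ,
        dist (evs g s l y) (evs g s l y') ≤ κ * dist y y' := by
  classical
  let _ : TopologicalSpace I := ⊥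
  have : DiscreteTopology I := ⟨rfl⟩
  have hloc : ∀ p : (ℕ → I) × Sp, ∃ (l : List Mx) (ρ : ℝ), l ≠ [] ∧ adK δ l ∧ 0 < ρ ∧
      ∀ y ∈ ball p.2 (2 * ρ), ∀ y' ∈ ball p.2 (2 * ρ),
        dist (evs g p.1 l y) (evs g p.1 l y') ≤ κ * dist y y' := by
    intro p
    obtain ⟨l, h1, h2, U, hU, h3⟩ := claimB hg hδ p.1 p.2 hκ
    obtain ⟨ρ, hρ, hρU⟩ := Metric.mem_nhds_iff.1 hU
    refine ⟨l, ρ / 2, h1, h2, by positivity, fun y hy y' hy' => ?_⟩
    have e : 2 * (ρ / 2) = ρ := by ring
    rw [e] at hy hy'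
    exact h3 y (hρU hy) y' (hρU hy')
  choose lf ρf h1 h2 h3 h4 using hloc
  obtain ⟨t, ht⟩ := CompactSpace.elim_nhds_subcover
    (fun p : (ℕ → I) × Sp => {s' : ℕ → I | ∀ j < (lf p).length, s' j = p.1 j} ×ˢ ball p.2 (ρf p))
    (fun p => prod_mem_nhds ((agree_open p.1 _).mem_nhds (fun j _ => rfl))
      (ball_mem_nhds _ (h3 p)))
  obtain ⟨ρ, hρ, hρt⟩ := exists_pos_lb t ρf fun p _ => h3 p
  refine ⟨t.image lf, ρ, hρ, ?_, fun s x => ?_⟩
  · intro l hl
    obtain ⟨p, -, rfl⟩ := Finset.mem_image.1 hl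
    exact ⟨h1 p, h2 p⟩
  · have h5 : (s, x) ∈ (⊤ : Set ((ℕ → I) × Sp)) := trivial
    rw [← ht] at h5
    obtain ⟨p, hp, h6, h7⟩ := mem_iUnion₂.1 h5
    refine ⟨lf p, Finset.mem_image_of_mem _ hp, fun y hy y' hy' => ?_⟩
    have h8 : ∀ j < (lf p).length, s j = p.1 j := h6
    rw [evs_congr g h8, evs_congr g h8]
    have h9 : dist x p.2 < ρf p := h7
    have hin : ∀ y ∈ ball x ρ, y ∈ ball p.2 (2 * ρf p) := by
      intro y hy
      rw [mem_ball] at hy ⊢
      have := dist_triangle y x p.2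
      have h10 := hρt p hp
      linarith
    exact h4 p y (hin y hy) y' (hin y' hy')

end Pool.Agent.Y334.FS
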