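import Mathlib
import Pool.Agent.Y334.FS.Blocks

/-! Tracks: orbits around which the maps contract; every point enters a track by small kicks, or
is contracted without kicks. -/

set_option autoImplicit false

open Set Filter Topology Metric
open scoped OnePoint
open Pool.Agent.Helper114.Herman
open Pool.Agent.Y334.RM

namespace Pool.Agent.Y334.FS

attribute [local instance] sphMet

section

variable {J : Type} (F : J → Sp → Sp)

/-- the orbit of `x` without kicks -/
def xk (a : ℕ → J) (x : Sp) (k : ℕ) : Sp := It (fun j => F (a j)) k x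

/-- the maps contract in the balls of radius `ρ` around the orbit of `x` -/
def Tr (κ ρ : ℝ) (a : ℕ → J) (x : Sp) : Prop :=
  ∀ k, ∀ y ∈ ball (xk F a x k) ρ, ∀ y' ∈ ball (xk F a x k) ρ,
    dist (F (a k) y) (F (a k) y') ≤ κ * dist y y'

/-- the shifted sequence -/
def sh {J : Type} (t : ℕ) (a : ℕ → J) : ℕ → J := fun n => a (n + t)

variable {F}

theorem sh_sh {J : Type} (t u : ℕ) (a : ℕ → J) : sh t (sh u a) = sh (t + u) a := by
  funext n
  simp only [sh]
  congr 1
  omega

theorem sh_zero {J : Type} (a : ℕ → J) : sh 0 a = a := rfl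

theorem xk_add (a : ℕ → J) (x : Sp) (t k : ℕ) : xk F a x (t + k) = xk F (sh t a) (xk F a x t) k := by
  show It _ (t + k) x = It _ k (It _ t x)
  rw [It_add]
  congr 1
  funext j
  simp only [sh, Nat.add_comm]

theorem xk_succ (a : ℕ → J) (x : Sp) (k : ℕ) : xk F a x (k + 1) = F (a k) (xk F a x k) := rfl

theorem Tr.shift {κ ρ : ℝ} {a : ℕ → J} {x : Sp} (h : Tr F κ ρ a x) (t : ℕ) :
    Tr F κ ρ (sh t a) (xk F a x t) := by
  intro k y hy y' hy'
  rw [← xk_add] at hy hy'
  have h1 := h (t + k) y hy y' hy'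
  have h2 : a (t + k) = sh t a k := by simp only [sh, Nat.add_comm]
  rwa [h2] at h1

theorem xk_congr {a a' : ℕ → J} {n : ℕ} (h : ∀ j < n, a j = a' j) (x : Sp) :
    ∀ k ≤ n, xk F a x k = xk F a' x k := by
  intro k
  induction k with
  | zero => intro _; rfl
  | succ k ih =>
    intro hk
    rw [xk_succ, xk_succ, ih (by omega), h k (by omega)]

theorem evs_sh (a : ℕ → J) (l₁ l₂ : List Mx) (z : Sp) :
    evs F a (l₁ ++ l₂) z = evs F (sh l₁.length a) l₂ (evs F a l₁ z) := evs_append F a l₁ l₂ z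

theorem evs_one' (a : ℕ → J) (k : ℕ) (z : Sp) :
    evs F a (List.replicate k Mx.one) z = xk F a z k := evs_one F a k z

theorem xk_cont (hF : ∀ a, HolMap (F a)) (a : ℕ → J) (k : ℕ) : Continuous fun x => xk F a x k := by
  induction k with
  | zero => exact continuous_id
  | succ k ih => exact (hF (a k)).continuous.comp ih

/-- inside the track -/
theorem inD {κ ρ η : ℝ} (hκ : κ ≤ 1 / 1200) (hη : 40 * η ≤ ρ) (hη1 : η ≤ 1 / 4)
    (hρ : 0 < ρ) {a : ℕ → J} {x : Sp} (h : Tr F κ ρ a x) {b : List Mx} (hb : adK η b) :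
    (∀ y ∈ ball x ρ, ∀ y' ∈ ball x ρ,
      dist (evs F a b y) (evs F a b y') ≤ (1 / 4) ^ b.length * dist y y') ∧
    (∀ y ∈ ball x ρ, b ≠ [] → dist (evs F a b y) (xk F a x b.length) < ρ / 2) := by
  induction b generalizing a x with
  | nil => exact ⟨fun y _ y' _ => by simp [evs_nil], fun y _ h => absurd rfl h⟩
  | cons M b ih =>
    have hM : Kick η M := hb M List.mem_cons_self
    have h1 := h.shift 1
    obtain ⟨ih1, ih2⟩ := ih h1 (fun N hN => hb N (List.mem_cons_of_mem _ hN))
    have e1 : xk F a x 1 = F (a 0) x := rfl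
    have hstep : ∀ y ∈ ball x ρ, dist (M.act (F (a 0) y)) (xk F a x 1) < ρ / 2 := by
      intro y hy
      have h2 := h 0 y hy x (mem_ball_self hρ)
      rw [mem_ball] at hy
      have h3 := kick_disp hη1 hM (F (a 0) y)
      have h4 := dist_triangle (M.act (F (a 0) y)) (F (a 0) y) (xk F a x 1)
      rw [e1] at h4 ⊢
      have h5 : κ * dist y x ≤ 1 / 1200 * ρ := by
        have : 0 ≤ dist y x := dist_nonneg
        nlinarith
      linarith
    have hmem : ∀ y ∈ ball x ρ, M.act (F (a 0) y) ∈ ball (xk F a x 1) ρ := by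
      intro y hy
      rw [mem_ball]
      have := hstep y hy
      linarith
    constructor
    · intro y hy y' hy'
      rw [evs_cons, evs_cons]
      have h2 := ih1 _ (hmem y hy) _ (hmem y' hy')
      have h3 := kick_lip (hM.mono hη1) (F (a 0) y) (F (a 0) y')
      have h4 := h 0 y hy y' hy'
      have h5 : 0 ≤ dist y y' := dist_nonneg
      rw [List.length_cons, pow_succ]
      calc _ ≤ (1 / 4) ^ b.length * dist (M.act (F (a 0) y)) (M.act (F (a 0) y')) := h2
        _ ≤ (1 / 4) ^ b.length * (1 / 4 * dist y y') := by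
            gcongr
            nlinarith
        _ = _ := by ring
    · intro y hy _
      rw [evs_cons, List.length_cons, Nat.add_comm, xk_add]
      by_cases hb' : b = []
      · subst hb'
        exact hstep y hy
      · exact ih2 _ (hmem y hy) hb'

/-- Pointwise alternative. -/
theorem alt_point (hF : ∀ a, HolMap (F a)) {ρ η : ℝ} (hρ : 0 < ρ) (hη : 0 < η) (a : ℕ → J)
    (x z : Sp) :
    (∃ l : List Mx, adK η l ∧ dist (evs F a l z) (xk F a x l.length) < ρ / 2) ∨
    ∃ k, LipAt (1 / 2) (fun y => xk F a y (k + 1)) z := by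
  by_cases hit : ∃ l : List Mx, adK η l ∧ dist (evs F a l z) (xk F a x l.length) < ρ / 2
  · exact Or.inl hit
  · right
    push Not at hit
    obtain ⟨k, hk⟩ := contr_PO (F := fun j => F (a j)) (fun k => hF _) (r := ρ / 2)
      (η := min (1 / 2) (η / 15)) (by positivity) (by positivity) (x := z)
      (y := fun k => xk F a x (k + 1)) (by
        intro k u hu
        obtain ⟨l, h1, h2, h3⟩ := PO_evs (δ := η) (min_le_left _ _) (by
          have : min (1 / 2) (η / 15) ≤ η / 15 := min_le_right _ _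
          linarith) hu
        have h4 := hit l h2
        rwa [h3, h1] at h4) (by norm_num : (0:ℝ) < 1 / 2)
    exact ⟨k, hk⟩

/-- The alternative near a point. -/
theorem alt_near (hF : ∀ a, HolMap (F a)) {ρ η : ℝ} (hρ : 0 < ρ) (hη : 0 < η) (a : ℕ → J)
    (x z : Sp) : ∃ (H : Finset (List Mx)) (r : ℝ) (n : ℕ), 0 < r ∧ 1 ≤ n ∧
      (∀ l ∈ H, adK η l ∧ l.length ≤ n) ∧
      ∀ (a' : ℕ → J) (x' z' : Sp), (∀ j < n, a' j = a j) → x' ∈ ball x r → z' ∈ ball z r →
        (∃ l ∈ H, ∀ y ∈ ball z' r, dist (evs F a' l y) (xk F a' x' l.length) < ρ / 2) ∨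
        ∃ k, 1 ≤ k ∧ k ≤ n ∧ ∀ y ∈ ball z' r, ∀ y' ∈ ball z' r,
          dist (xk F a' y k) (xk F a' y' k) ≤ 1 / 2 * dist y y' := by
  classical
  rcases alt_point hF hρ hη a x z with ⟨l, hl, hlt⟩ | ⟨k, U, hU, hk⟩
  · have hcont : Continuous fun p : Sp × Sp => dist (evs F a l p.2) (xk F a p.1 l.length) :=
      ((evs_hol F hF a hl.det).continuous.comp continuous_snd).dist
        ((xk_cont hF a _).comp continuous_fst)
    have h1 : {p : Sp × Sp | dist (evs F a l p.2) (xk F a p.1 l.length) < ρ / 2} ∈ 𝓝 (x, z) :=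
      (isOpen_lt hcont continuous_const).mem_nhds hlt
    obtain ⟨r, hr, hball⟩ := Metric.mem_nhds_iff.1 h1
    refine ⟨{l}, r / 2, l.length + 1, by positivity, by omega, ?_, ?_⟩
    · intro l' hl'
      rw [Finset.mem_singleton] at hl'
      rw [hl']
      exact ⟨hl, by omega⟩
    · intro a' x' z' ha' hx' hz'
      left
      refine ⟨l, Finset.mem_singleton_self l, fun y hy => ?_⟩
      have e1 : evs F a' l y = evs F a l y := evs_congr F (fun j hj => ha' j (by omega)) y
      have e2 : xk F a' x' l.length = xk F a x' l.length :=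
        xk_congr (n := l.length) (fun j hj => ha' j (by omega)) x' _ le_rfl
      rw [e1, e2]
      have h2 : (x', y) ∈ ball (x, z) r := by
        rw [mem_ball, Prod.dist_eq]
        rw [mem_ball] at hx' hz' hy
        apply max_lt
        · show dist x' x < r; linarith
        · show dist y z < r
          have := dist_triangle y z' z
          linarith
      exact hball h2
  · obtain ⟨r, hr, hball⟩ := Metric.mem_nhds_iff.1 hU
    refine ⟨∅, r / 2, k + 1, by positivity, by omega, by simp, ?_⟩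
    intro a' x' z' ha' hx' hz'
    right
    refine ⟨k + 1, by omega, le_rfl, fun y hy y' hy' => ?_⟩
    have e1 : ∀ y, xk F a' y (k + 1) = xk F a y (k + 1) := fun y =>
      xk_congr (n := k + 1) ha' y _ le_rfl
    rw [e1, e1]
    have hin : ∀ y ∈ ball z' (r / 2), y ∈ U := by
      intro y hy
      apply hball
      rw [mem_ball] at hy hz' ⊢
      have := dist_triangle y z' z
      linarith
    exact hk y (hin y hy) y' (hin y' hy')

/-- The uniform alternative. -/
theorem alt_unif [Finite J] (hF : ∀ a, HolMap (F a)) {ρ η : ℝ} (hρ : 0 < ρ) (hη : 0 < η) :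
    ∃ (H : Finset (List Mx)) (r : ℝ) (n : ℕ), 0 < r ∧ 1 ≤ n ∧
      (∀ l ∈ H, adK η l ∧ l.length ≤ n) ∧
      ∀ (a : ℕ → J) (x z : Sp),
        (∃ l ∈ H, ∀ y ∈ ball z r, dist (evs F a l y) (xk F a x l.length) < ρ / 2) ∨
        ∃ k, 1 ≤ k ∧ k ≤ n ∧ ∀ y ∈ ball z r, ∀ y' ∈ ball z r,
          dist (xk F a y k) (xk F a y' k) ≤ 1 / 2 * dist y y' := by
  classical
  let _ : TopologicalSpace J := ⊥
  have : DiscreteTopology J := ⟨rfl⟩
  have hloc : ∀ p : (ℕ → J) × (Sp × Sp), _ := fun p => alt_near hF hρ hη p.1 p.2.1 p.2.2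
  choose H r n hr hn hH hmain using hloc
  obtain ⟨t, ht⟩ := CompactSpace.elim_nhds_subcover
    (fun p : (ℕ → J) × (Sp × Sp) => {a' : ℕ → J | ∀ j < n p, a' j = p.1 j} ×ˢ
      (ball p.2.1 (r p) ×ˢ ball p.2.2 (r p)))
    (fun p => prod_mem_nhds ((agree_open p.1 _).mem_nhds (fun j _ => rfl))
      (prod_mem_nhds (ball_mem_nhds _ (hr p)) (ball_mem_nhds _ (hr p))))
  obtain ⟨ρ₀, hρ₀, hρt⟩ := exists_pos_lb t r fun p _ => hr p
  refine ⟨t.biUnion H, ρ₀, t.sup n + 1, hρ₀, by omega, ?_, fun a x z => ?_⟩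
  · intro l hl
    obtain ⟨p, hp, hl⟩ := Finset.mem_biUnion.1 hl
    have h1 := (hH p l hl).2
    have h2 : n p ≤ t.sup n := Finset.le_sup hp
    exact ⟨(hH p l hl).1, by omega⟩
  · have h5 : (a, x, z) ∈ (⊤ : Set ((ℕ → J) × (Sp × Sp))) := trivial
    rw [← ht] at h5
    obtain ⟨p, hp, h6, h7, h8⟩ := mem_iUnion₂.1 h5
    have h2 : n p ≤ t.sup n := Finset.le_sup hp
    have hsub : ball z ρ₀ ⊆ ball z (r p) := ball_subset_ball (hρt p hp)
    rcases hmain p a x z h6 h7 h8 with ⟨l, hl, h9⟩ | ⟨k, hk1, hk2, h9⟩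
    · exact Or.inl ⟨l, Finset.mem_biUnion.2 ⟨p, hp, hl⟩, fun y hy => h9 y (hsub hy)⟩
    · exact Or.inr ⟨k, hk1, by omega, fun y hy y' hy' => h9 y (hsub hy) y' (hsub hy')⟩

/-- Concatenation of contractions. -/
theorem chain {ρ r : ℝ} {m₁ : ℕ} {H : Finset (List Mx)}
    (halt : ∀ (a : ℕ → J) (x z : Sp),
        (∃ l ∈ H, ∀ y ∈ ball z r, dist (evs F a l y) (xk F a x l.length) < ρ / 2) ∨
        ∃ k, 1 ≤ k ∧ k ≤ m₁ ∧ ∀ y ∈ ball z r, ∀ y' ∈ ball z r,
          dist (xk F a y k) (xk F a y' k) ≤ 1 / 2 * dist y y') (hm₁ : 1 ≤ m₁) (hr : 0 < r)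
    (N : ℕ) (a : ℕ → J) (x z : Sp) :
    (∃ t ≤ N, ∃ l ∈ H, ∀ y ∈ ball z r,
      dist (evs F a (List.replicate t Mx.one ++ l) y) (xk F a x (t + l.length)) < ρ / 2) ∨
    ∃ t p, N ≤ t ∧ t < N + m₁ ∧ t ≤ p * m₁ ∧ ∀ y ∈ ball z r, ∀ y' ∈ ball z r,
      dist (xk F a y t) (xk F a y' t) ≤ (1 / 2) ^ p * dist y y' := by
  induction N with
  | zero =>
    right
    refine ⟨0, 0, le_rfl, by omega, by omega, fun y _ y' _ => ?_⟩
    rw [pow_zero, one_mul]
    exact le_rfl
  | succ N ih =>
    rcases ih with ⟨t, ht, l, hl, h1⟩ | ⟨t, p, ht1, ht2, ht3, h1⟩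
    · exact Or.inl ⟨t, by omega, l, hl, h1⟩
    · by_cases hN : N + 1 ≤ t
      · exact Or.inr ⟨t, p, hN, by omega, ht3, h1⟩
      · have hmem : ∀ y ∈ ball z r, xk F a y t ∈ ball (xk F a z t) r := by
          intro y hy
          rw [mem_ball]
          have h2 := h1 y hy z (mem_ball_self hr)
          rw [mem_ball] at hy
          have h3 : ((1 : ℝ) / 2) ^ p ≤ 1 := pow_le_one₀ (by norm_num) (by norm_num)
          have h4 : 0 ≤ dist y z := dist_nonneg
          nlinarith
        rcases halt (sh t a) (xk F a x t) (xk F a z t) with ⟨l, hl, h2⟩ | ⟨k, hk1, hk2, h2⟩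
        · left
          refine ⟨t, by omega, l, hl, fun y hy => ?_⟩
          rw [evs_sh, List.length_replicate, evs_one', xk_add]
          exact h2 _ (hmem y hy)
        · right
          refine ⟨t + k, p + 1, by omega, by omega, ?_, fun y hy y' hy' => ?_⟩
          · rw [Nat.add_mul, Nat.one_mul]
            omega
          · rw [xk_add, xk_add, pow_succ]
            have h3 := h2 _ (hmem y hy) _ (hmem y' hy')
            have h4 := h1 y hy y' hy'
            calc _ ≤ 1 / 2 * dist (xk F a y t) (xk F a y' t) := h3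
              _ ≤ 1 / 2 * ((1 / 2) ^ p * dist y y') := by gcongr
              _ = _ := by ring

theorem xk_lip {L : ℝ} (hL : 0 ≤ L) (hF : ∀ i x y, dist (F i x) (F i y) ≤ L * dist x y)
    (a : ℕ → J) (k : ℕ) (x y : Sp) : dist (xk F a x k) (xk F a y k) ≤ L ^ k * dist x y := by
  induction k with
  | zero => simp [xk, It_zero]
  | succ k ih =>
    rw [xk_succ, xk_succ, pow_succ]
    calc _ ≤ L * dist (xk F a x k) (xk F a y k) := hF _ _ _
      _ ≤ L * (L ^ k * dist x y) := by gcongr
      _ = _ := by ring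

/-- **The kicks of one superblock.** -/
theorem superblock [Finite J] (hF : ∀ a, HolMap (F a)) {ρ η κ : ℝ} (hρ : 0 < ρ) (hη0 : 0 < η)
    (hκ : κ ≤ 1 / 1200) (hη : 40 * η ≤ ρ) (hη1 : η ≤ 1 / 4) :
    ∃ (m : ℕ) (r : ℝ) (B : Finset (List Mx)), 1 ≤ m ∧ 0 < r ∧
      (∀ b ∈ B, b.length = m ∧ adK η b) ∧ List.replicate m Mx.one ∈ B ∧
      ∀ (a : ℕ → J) (x : Sp), Tr F κ ρ a x → ∀ z : Sp,
        (∃ b ∈ B, ∀ y ∈ ball z r, dist (evs F a b y) (xk F a x m) < ρ / 2) ∨
        ∀ y ∈ ball z r, ∀ y' ∈ ball z r, dist (xk F a y m) (xk F a y' m) ≤ 1 / 4 * dist y y' := by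
  classical
  obtain ⟨H, r, m₁, hr, hm₁, hH, halt⟩ := alt_unif hF hρ hη0
  obtain ⟨L, hL1, hL⟩ := lip_family hF
  obtain ⟨P, hP⟩ : ∃ P : ℕ, L ^ m₁ * (1 / 2) ^ P ≤ 1 / 4 := by
    have h1 : Tendsto (fun n : ℕ => L ^ m₁ * (1 / 2 : ℝ) ^ n) atTop (𝓝 (L ^ m₁ * 0)) :=
      (tendsto_pow_atTop_nhds_zero_of_lt_one (by norm_num) (by norm_num)).const_mul _
    rw [mul_zero] at h1
    exact (h1.eventually (ge_mem_nhds (by norm_num : (0:ℝ) < 1 / 4))).exists
  set m : ℕ := P * m₁ + m₁ with hm
  let ext : ℕ × List Mx → List Mx := fun p =>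
    List.replicate p.1 Mx.one ++ p.2 ++ List.replicate (m - (p.1 + p.2.length)) Mx.one
  refine ⟨m, r, insert (List.replicate m Mx.one)
    ((((Finset.range (m + 1)) ×ˢ H).filter fun p => p.1 + p.2.length ≤ m).image ext),
    by omega, hr, ?_, Finset.mem_insert_self _ _, ?_⟩
  · intro b hb
    rcases Finset.mem_insert.1 hb with rfl | hb
    · exact ⟨by simp, adK_one hη0 _⟩
    · obtain ⟨p, hp, rfl⟩ := Finset.mem_image.1 hb
      obtain ⟨hp1, hp2⟩ := Finset.mem_filter.1 hp
      obtain ⟨-, hp3⟩ := Finset.mem_product.1 hp1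
      refine ⟨?_, ((adK_one hη0 _).append (hH _ hp3).1).append (adK_one hη0 _)⟩
      simp only [ext, List.length_append, List.length_replicate]
      omega
  · intro a x hTr z
    rcases chain halt hm₁ hr (P * m₁) a x z with ⟨t, ht, l, hl, h1⟩ | ⟨t, p, ht1, ht2, ht3, h1⟩
    · left
      have hlen : t + l.length ≤ m := by
        have := (hH l hl).2
        omega
      refine ⟨ext (t, l), Finset.mem_insert_of_mem (Finset.mem_image_of_mem _
        (Finset.mem_filter.2 ⟨Finset.mem_product.2 ⟨Finset.mem_range.2 ?_, hl⟩, hlen⟩)), ?_⟩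
      · show t < m + 1; omega
      · intro y hy
        show dist (evs F a (List.replicate t Mx.one ++ l ++
          List.replicate (m - (t + l.length)) Mx.one) y) (xk F a x m) < ρ / 2
        have h2 := h1 y hy
        rw [evs_sh]
        have e1 : (List.replicate t Mx.one ++ l).length = t + l.length := by simp
        rw [e1]
        set u := evs F a (List.replicate t Mx.one ++ l) y with hu
        have e2 : xk F a x m = xk F (sh (t + l.length) a) (xk F a x (t + l.length))
            (m - (t + l.length)) := by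
          rw [← xk_add]
          congr 1
          omega
        rw [e2]
        by_cases h0 : m - (t + l.length) = 0
        · rw [h0]
          exact h2
        · have h3 := (inD hκ hη hη1 hρ (hTr.shift (t + l.length))
            (adK_one hη0 (m - (t + l.length)))).2 u (by rw [mem_ball]; linarith) (by
              intro h4
              apply h0
              have := congrArg List.length h4
              simpa using this)
          rw [List.length_replicate] at h3
          exact h3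
    · right
      intro y hy y' hy'
      have hp : P ≤ p := by
        by_contra hcon
        push Not at hcon
        have h2 : (p + 1) * m₁ ≤ P * m₁ := Nat.mul_le_mul_right _ hcon
        rw [Nat.add_mul, Nat.one_mul] at h2
        omega
      have e2 : ∀ y, xk F a y m = xk F (sh t a) (xk F a y t) (m - t) := by
        intro y
        rw [← xk_add]
        congr 1
        omega
      rw [e2, e2]
      have h2 := xk_lip (by linarith) hL (sh t a) (m - t) (xk F a y t) (xk F a y' t)
      have h3 := h1 y hy y' hy'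
      have h4 : L ^ (m - t) ≤ L ^ m₁ := pow_le_pow_right₀ hL1 (by omega)
      have h5 : ((1 : ℝ) / 2) ^ p ≤ (1 / 2) ^ P :=
        pow_le_pow_of_le_one (by norm_num) (by norm_num) hp
      have hd : 0 ≤ dist y y' := dist_nonneg
      have hL0 : 0 ≤ L := by linarith
      calc _ ≤ L ^ (m - t) * dist (xk F a y t) (xk F a y' t) := h2
        _ ≤ L ^ m₁ * ((1 / 2) ^ P * dist y y') := by
            gcongr
            exact h3.trans (by gcongr)
        _ = L ^ m₁ * (1 / 2) ^ P * dist y y' := by ring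
        _ ≤ 1 / 4 * dist y y' := by gcongr

end

end Pool.Agent.Y334.FS
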