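import Mathlib
import Pool.Agent.Y334.FS.Track
import Pool.Agent.Y334.FS.Prob

/-! The potential. -/

set_option autoImplicit false

open Set Filter Topology Metric
open scoped OnePoint
open Pool.Agent.Helper114.Herman
open Pool.Agent.Y334.RM

namespace Pool.Agent.Y334.FS

attribute [local instance] sphMet

variable {J : Type} {F : J → Sp → Sp}

theorem evs_lip {L η : ℝ} (hL : 1 ≤ L) (hη : η ≤ 1 / 4)
    (hF : ∀ i x y, dist (F i x) (F i y) ≤ L * dist x y) {a : ℕ → J} {b : List Mx} (hb : adK η b)
    (y y' : Sp) : dist (evs F a b y) (evs F a b y') ≤ (300 * L) ^ b.length * dist y y' := by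
  induction b generalizing a y y' with
  | nil => simp [evs_nil]
  | cons M b ih =>
    rw [evs_cons, evs_cons, List.length_cons, pow_succ]
    have h1 := ih (fun N hN => hb N (List.mem_cons_of_mem _ hN)) (a := fun n => a (n + 1))
      (M.act (F (a 0) y)) (M.act (F (a 0) y'))
    have h2 := kick_lip ((hb M List.mem_cons_self).mono hη) (F (a 0) y) (F (a 0) y')
    have h3 := hF (a 0) y y'
    have h4 : (0 : ℝ) < (300 * L) ^ b.length := by positivity
    calc _ ≤ (300 * L) ^ b.length * dist (M.act (F (a 0) y)) (M.act (F (a 0) y')) := h1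
      _ ≤ (300 * L) ^ b.length * (300 * (L * dist y y')) := by
          gcongr
          linarith
      _ = _ := by ring

/-- **Random kicks have a potential.** -/
theorem exists_pd [Finite J] (hF : ∀ a, HolMap (F a)) {ρ η κ : ℝ} (hρ : 0 < ρ) (hη0 : 0 < η)
    (hκ : κ ≤ 1 / 1200) (hη : 40 * η ≤ ρ) (hη1 : η ≤ 1 / 4) :
    ∃ (m : ℕ) (r : ℝ) (B : Finset (List Mx)) (w : List Mx → ℝ) (lam q : ℝ), 1 ≤ m ∧ 0 < r ∧
      (∀ b ∈ B, b.length = m ∧ adK η b) ∧ 0 < lam ∧ 0 < q ∧ q < 1 ∧
      (∀ b ∈ B, 0 ≤ w b) ∧ ∑ b ∈ B, w b = 1 ∧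
      ∀ (a : ℕ → J) (x : Sp), Tr F κ ρ a x → ∃ (W : ℕ → Sp → List Mx → ℝ) (V : ℕ → Sp → ℝ),
        PD B w (fun n b => evs F (sh (n * m) a) b) W V r lam q := by
  classical
  obtain ⟨m, r₁, B, hm, hr₁, hB, hzB, halt⟩ := superblock hF hρ hη0 hκ hη hη1
  obtain ⟨L, hL1, hL⟩ := lip_family hF
  set r : ℝ := min r₁ (ρ / 2) with hr
  have hr0 : 0 < r := by positivity
  set z₀ : List Mx := List.replicate m Mx.one with hz₀
  set Λ : ℝ := (300 * L) ^ m with hΛ
  have hΛ1 : 1 ≤ Λ := one_le_pow₀ (by linarith)
  have hΛ0 : 0 < Λ := by linarith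
  have hcard : (1 : ℝ) ≤ B.card := by exact_mod_cast Finset.card_pos.2 ⟨_, hzB⟩
  set κ₁ : ℝ := 1 / (4 * Λ) with hκ₁
  have hκ0 : 0 < κ₁ := by positivity
  have hκ1 : κ₁ ≤ 1 / 4 := by
    rw [hκ₁]
    apply one_div_le_one_div_of_le <;> linarith
  set p : ℝ := κ₁ / B.card with hp
  have hp0 : 0 < p := by positivity
  have hpc : (B.card : ℝ) * p = κ₁ := by rw [hp]; field_simp
  have hκΛ : κ₁ * Λ = 1 / 4 := by rw [hκ₁]; field_simp
  have hp1 : p ≤ 1 / 4 := by
    rw [hp, div_le_iff₀ (by linarith)]
    nlinarith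
  set w : List Mx → ℝ := fun b => p + if b = z₀ then 1 - κ₁ else 0 with hw
  have hwp : ∀ b, p ≤ w b := by
    intro b
    simp only [hw]
    split_ifs
    · linarith
    · linarith
  have hwsum : ∑ b ∈ B, w b = 1 := by
    simp only [hw]
    rw [Finset.sum_add_distrib, Finset.sum_const, nsmul_eq_mul, Finset.sum_ite_eq', if_pos hzB, hp]
    field_simp
    ring
  set lam : ℝ := p / (4 * Λ) with hlam
  have hlam0 : 0 < lam := by positivity
  have hlamp : lam ≤ p / 4 := by
    rw [hlam]
    apply div_le_div_of_nonneg_left hp0.le (by norm_num) (by linarith)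
  have hlam1 : lam ≤ 1 := by linarith
  have hbern : ∀ x : ℝ, 0 ≤ x → x ^ lam ≤ 1 + lam * (x - 1) := by
    intro x hx
    have := rpow_one_add_le_one_add_mul_self (s := x - 1) (by linarith) hlam0.le hlam1
    rwa [add_sub_cancel] at this
  have hbig : Λ ^ lam ≤ 1 + p / 4 := by
    refine (hbern _ hΛ0.le).trans ?_
    have h1 : lam * Λ = p / 4 := by rw [hlam]; field_simp
    nlinarith
  have hquart : ((1 : ℝ) / 4) ^ lam ≤ 1 - lam / 2 := by
    refine (hbern _ (by norm_num)).trans ?_
    linarith
  refine ⟨m, r, B, w, lam, 1 - lam / 2, hm, hr0, hB, hlam0, by linarith, by linarith,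
    fun b _ => hp0.le.trans (hwp b), hwsum, fun a x hTr => ?_⟩
  set cond : ℕ → Sp → Prop := fun n z => ∀ y ∈ ball z r₁, ∀ y' ∈ ball z r₁,
    dist (xk F (sh (n * m) a) y m) (xk F (sh (n * m) a) y' m) ≤ 1 / 4 * dist y y' with hcond
  set W : ℕ → Sp → List Mx → ℝ := fun n z b =>
    if dist z (xk F a x (n * m)) < ρ / 2 then 1 / 4 else
      if cond n z ∧ b = z₀ then 1 / 4 else Λ with hW
  set V : ℕ → Sp → ℝ := fun n z => if dist z (xk F a x (n * m)) < ρ / 2 then 1 / 2 else 1 with hV
  have hWd : ∀ n z b, W n z b = if dist z (xk F a x (n * m)) < ρ / 2 then 1 / 4 else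
      if cond n z ∧ b = z₀ then 1 / 4 else Λ := fun _ _ _ => rfl
  have hVd : ∀ n z, V n z = if dist z (xk F a x (n * m)) < ρ / 2 then 1 / 2 else 1 :=
    fun _ _ => rfl
  have hwd : ∀ b, w b = p + if b = z₀ then 1 - κ₁ else 0 := fun _ => rfl
  have hW0 : ∀ n z b, 0 < W n z b := by
    intro n z b
    rw [hWd]
    split_ifs <;> linarith
  have hWΛ : ∀ n z b, W n z b ≤ Λ := by
    intro n z b
    rw [hWd]
    split_ifs <;> linarith
  have hV0 : ∀ n z, 1 / 2 ≤ V n z := by
    intro n z
    rw [hVd]
    split_ifs <;> linarith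
  have hV1 : ∀ n z, V n z ≤ 1 := by
    intro n z
    rw [hVd]
    split_ifs <;> linarith
  have hxm : ∀ n, xk F a x ((n + 1) * m) = xk F (sh (n * m) a) (xk F a x (n * m)) m := by
    intro n
    rw [← xk_add]
    congr 1
    ring
  have hrr : r ≤ r₁ := min_le_left _ _
  have hrρ : r ≤ ρ / 2 := min_le_right _ _
  refine ⟨W, V, ⟨fun b _ => hp0.le.trans (hwp b), hwsum, hW0, hV0, hV1, ?_, ?_, hr0, hlam0,
    by linarith, by linarith⟩⟩
  · -- local Lipschitz constants
    intro n z b hb y y' hy hy'
    obtain ⟨hbm, hbη⟩ := hB b hb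
    have hd : 0 ≤ dist y y' := dist_nonneg
    rw [hWd]
    split_ifs with h1 h2
    · have hin : ∀ y, dist y z < r → y ∈ ball (xk F a x (n * m)) ρ := by
        intro y hy
        rw [mem_ball]
        have := dist_triangle y z (xk F a x (n * m))
        linarith
      have h3 := (inD hκ hη hη1 hρ (hTr.shift (n * m)) hbη).1 y (hin y hy) y' (hin y' hy')
      refine h3.trans (mul_le_mul_of_nonneg_right ?_ hd)
      rw [hbm]
      calc ((1 : ℝ) / 4) ^ m ≤ (1 / 4) ^ 1 := pow_le_pow_of_le_one (by norm_num) (by norm_num) hm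
        _ = 1 / 4 := pow_one _
    · obtain ⟨h2, h3⟩ := h2
      rw [h3, hz₀, evs_one', evs_one']
      exact h2 y (by rw [mem_ball]; linarith) y' (by rw [mem_ball]; linarith)
    · have h3 := evs_lip hL1 hη1 hL hbη (a := sh (n * m) a) y y'
      rwa [hbm, ← hΛ] at h3
  · -- the potential
    intro n z
    by_cases hD : dist z (xk F a x (n * m)) < ρ / 2
    · have h1 : ∀ b ∈ B, w b * (W n z b ^ lam * V (n + 1) (evs F (sh (n * m) a) b z)) =
          w b * ((1 / 4 : ℝ) ^ lam * (1 / 2)) := by
        intro b hb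
        obtain ⟨hbm, hbη⟩ := hB b hb
        have e1 : W n z b = 1 / 4 := by rw [hWd]; rw [if_pos hD]
        have e2 : V (n + 1) (evs F (sh (n * m) a) b z) = 1 / 2 := by
          rw [hVd]
          rw [if_pos]
          rw [hxm]
          have h3 := (inD hκ hη hη1 hρ (hTr.shift (n * m)) hbη).2 z
            (by rw [mem_ball]; linarith) (by
              intro h4
              rw [h4, List.length_nil] at hbm
              omega)
          rwa [hbm] at h3
        rw [e1, e2]
      rw [Finset.sum_congr rfl h1, ← Finset.sum_mul, hwsum, one_mul]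
      have e3 : V n z = 1 / 2 := by rw [hVd]; rw [if_pos hD]
      rw [e3]
      linarith
    · have e3 : V n z = 1 := by rw [hVd]; rw [if_neg hD]
      rw [e3, mul_one]
      rcases halt (sh (n * m) a) (xk F a x (n * m)) (hTr.shift (n * m)) z with ⟨l, hl, hl2⟩ | hc
      · have e4 : V (n + 1) (evs F (sh (n * m) a) l z) = 1 / 2 := by
          rw [hVd]
          rw [if_pos]
          rw [hxm]
          exact hl2 z (mem_ball_self hr₁)
        have h1 : ∀ b ∈ B, w b * (W n z b ^ lam * V (n + 1) (evs F (sh (n * m) a) b z)) ≤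
            (1 + p / 4) * (w b - if b = l then p / 2 else 0) := by
          intro b _
          have hwb := hwp b
          have h2 : W n z b ^ lam ≤ 1 + p / 4 :=
            (Real.rpow_le_rpow (hW0 _ _ _).le (hWΛ _ _ _) hlam0.le).trans hbig
          have h4 : 0 ≤ W n z b ^ lam := Real.rpow_nonneg (hW0 _ _ _).le _
          by_cases hbl : b = l
          · rw [if_pos hbl, hbl, e4]
            rw [hbl] at hwb h2 h4
            have h5 : w l * (W n z l ^ lam * (1 / 2)) ≤ w l * ((1 + p / 4) * (1 / 2)) :=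
              mul_le_mul_of_nonneg_left (by linarith) (by linarith)
            nlinarith
          · rw [if_neg hbl, sub_zero]
            have h3 := hV1 (n + 1) (evs F (sh (n * m) a) b z)
            have h3' := hV0 (n + 1) (evs F (sh (n * m) a) b z)
            have h5 : W n z b ^ lam * V (n + 1) (evs F (sh (n * m) a) b z) ≤ 1 + p / 4 := by
              nlinarith
            have h6 : w b * (W n z b ^ lam * V (n + 1) (evs F (sh (n * m) a) b z)) ≤
                w b * (1 + p / 4) := mul_le_mul_of_nonneg_left h5 (by linarith)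
            linarith
        refine (Finset.sum_le_sum h1).trans ?_
        rw [← Finset.mul_sum, Finset.sum_sub_distrib, hwsum, Finset.sum_ite_eq', if_pos hl]
        nlinarith
      · have hcn : cond n z := hc
        have h1 : ∀ b ∈ B, w b * (W n z b ^ lam * V (n + 1) (evs F (sh (n * m) a) b z)) ≤
            w b * (1 + lam * (W n z b - 1)) := by
          intro b hb
          apply mul_le_mul_of_nonneg_left _ (hp0.le.trans (hwp b))
          have h2 := hbern _ (hW0 n z b).le
          have h3 := hV1 (n + 1) (evs F (sh (n * m) a) b z)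
          have h4 : 0 ≤ W n z b ^ lam := Real.rpow_nonneg (hW0 _ _ _).le _
          nlinarith
        refine (Finset.sum_le_sum h1).trans ?_
        have h5 : ∑ b ∈ B, w b * W n z b ≤ 1 / 2 := by
          have h6 : ∀ b ∈ B, w b * W n z b ≤ p * Λ + (if b = z₀ then (1 - κ₁) * (1 / 4) else 0) := by
            intro b _
            by_cases hb : b = z₀
            · have h7 : W n z b = 1 / 4 := by
                rw [hWd]
                rw [if_neg hD, if_pos ⟨hcn, hb⟩]
              rw [h7, if_pos hb]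
              rw [hwd]
              rw [if_pos hb]
              nlinarith
            · rw [if_neg hb, add_zero]
              rw [hwd]
              rw [if_neg hb, add_zero]
              exact mul_le_mul_of_nonneg_left (hWΛ _ _ _) hp0.le
          refine (Finset.sum_le_sum h6).trans ?_
          rw [Finset.sum_add_distrib, Finset.sum_const, nsmul_eq_mul, Finset.sum_ite_eq',
            if_pos hzB]
          have h8 : (B.card : ℝ) * (p * Λ) = 1 / 4 := by
            rw [← mul_assoc, hpc, hκΛ]
          rw [h8]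
          linarith
        have h9 : ∑ b ∈ B, w b * (1 + lam * (W n z b - 1)) =
            (1 - lam) * ∑ b ∈ B, w b + lam * ∑ b ∈ B, w b * W n z b := by
          rw [Finset.mul_sum, Finset.mul_sum, ← Finset.sum_add_distrib]
          apply Finset.sum_congr rfl
          intro b _
          ring
        rw [h9, hwsum]
        nlinarith

end Pool.Agent.Y334.FS
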