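import Mathlib
import Pool.Agent.Y334.FS.Pot
import Pool.Agent.Y334.RM.Reach

/-! Random kicks along a long word. -/

set_option autoImplicit false

open Set Filter Topology Metric
open scoped OnePoint
open Pool.Agent.Helper114.Herman
open Pool.Agent.Y334.RM
open Pool.Agent.Y334.NA

namespace Pool.Agent.Y334.FS

attribute [local instance] sphMet

section cv

variable {I : Type} (g : I → Sp → Sp) (crit : I → Finset Sp)

open scoped Classical in
/-- the critical values of the composition -/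
noncomputable def cvs : (ℕ → I) → List Mx → Finset Sp
  | _, [] => ∅
  | s, M :: l => (crit (s 0)).image (fun c => evs g (fun n => s (n + 1)) l (M.act (g (s 0) c))) ∪
      cvs (fun n => s (n + 1)) l

variable {g crit}

theorem cvs_card {c₀ : ℕ} (hc : ∀ i, (crit i).card ≤ c₀) (s : ℕ → I) (l : List Mx) :
    (cvs g crit s l).card ≤ c₀ * l.length := by
  classical
  induction l generalizing s with
  | nil => simp [cvs]
  | cons M l ih =>
    rw [cvs, List.length_cons, Nat.mul_add, Nat.mul_one, Nat.add_comm]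
    refine (Finset.card_union_le _ _).trans ?_
    exact Nat.add_le_add (Finset.card_image_le.trans (hc _)) (ih _)

theorem cvs_crit (hg : ∀ i, HolMap (g i)) (hc : ∀ i z, z ∉ crit i → LI (g i) z) {s : ℕ → I}
    {l : List Mx} (hl : ∀ M ∈ l, M.det ≠ 0) {z : Sp} (hz : ¬ LI (evs g s l) z) :
    evs g s l z ∈ cvs g crit s l := by
  classical
  induction l generalizing s z with
  | nil =>
    exfalso
    exact hz ⟨univ, univ_mem, fun x _ y _ h => h⟩
  | cons M l ih =>
    rw [cvs]
    have hM := hl M List.mem_cons_self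
    by_cases hzc : z ∈ crit (s 0)
    · exact Finset.mem_union_left _ (Finset.mem_image_of_mem _ hzc)
    · apply Finset.mem_union_right
      rw [evs_cons]
      apply ih (fun N hN => hl N (List.mem_cons_of_mem _ hN))
      intro h1
      apply hz
      have h2 : LI (fun x => M.act (g (s 0) x)) z := by
        obtain ⟨U, hU, hUi⟩ := hc _ z hzc
        exact ⟨U, hU, fun x hx y hy h => hUi hx hy (Mx.inj hM h)⟩
      exact LI.comp (f := evs g (fun n => s (n + 1)) l) (g := fun x => M.act (g (s 0) x)) h2 h1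
        ((Mx.hol hM).comp (hg _)).continuous

end cv

theorem near_mul3 {δ : ℝ} (hδ : δ ≤ 1 / 4) {M E : Mx} (hM : M.near δ) (hE : E.near δ) :
    (E.mul M).near (3 * δ) := by
  obtain ⟨h1, h2, h3, h4⟩ := hM
  obtain ⟨e1, e2, e3, e4⟩ := hE
  have hδ0 : 0 < δ := (norm_nonneg _).trans_lt h2
  have key : ∀ x y u v : ℂ, ‖x‖ < δ → ‖y‖ < δ → ‖u‖ < δ → ‖v‖ < δ →
      ‖x * u + y * v‖ < 2 * δ * δ := by
    intro x y u v hx hy hu hv
    calc ‖x * u + y * v‖ ≤ ‖x * u‖ + ‖y * v‖ := norm_add_le _ _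
      _ = ‖x‖ * ‖u‖ + ‖y‖ * ‖v‖ := by rw [norm_mul, norm_mul]
      _ < δ * δ + δ * δ := by
          apply add_lt_add
          · exact mul_lt_mul'' hx hu (norm_nonneg _) (norm_nonneg _)
          · exact mul_lt_mul'' hy hv (norm_nonneg _) (norm_nonneg _)
      _ = 2 * δ * δ := by ring
  have hq : 2 * δ * δ ≤ δ / 2 := by nlinarith
  have ka := key (E.a - 1) E.b (M.a - 1) M.c e1 e2 h1 h3
  have kb := key (E.a - 1) E.b M.b (M.e - 1) e1 e2 h2 h4
  have kc := key E.c (E.e - 1) (M.a - 1) M.c e3 e4 h1 h3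
  have ke := key E.c (E.e - 1) M.b (M.e - 1) e3 e4 h2 h4
  refine ⟨?_, ?_, ?_, ?_⟩
  · show ‖E.a * M.a + E.b * M.c - 1‖ < 3 * δ
    have q : E.a * M.a + E.b * M.c - 1 = ((E.a - 1) * (M.a - 1) + E.b * M.c) + (E.a - 1) +
        (M.a - 1) := by ring
    rw [q]
    have := norm_add_le (((E.a - 1) * (M.a - 1) + E.b * M.c) + (E.a - 1)) (M.a - 1)
    have := norm_add_le ((E.a - 1) * (M.a - 1) + E.b * M.c) (E.a - 1)
    linarith
  · show ‖E.a * M.b + E.b * M.e‖ < 3 * δ
    have q : E.a * M.b + E.b * M.e = ((E.a - 1) * M.b + E.b * (M.e - 1)) + M.b + E.b := by ring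
    rw [q]
    have := norm_add_le (((E.a - 1) * M.b + E.b * (M.e - 1)) + M.b) E.b
    have := norm_add_le ((E.a - 1) * M.b + E.b * (M.e - 1)) M.b
    linarith
  · show ‖E.c * M.a + E.e * M.c‖ < 3 * δ
    have q : E.c * M.a + E.e * M.c = (E.c * (M.a - 1) + (E.e - 1) * M.c) + E.c + M.c := by ring
    rw [q]
    have := norm_add_le ((E.c * (M.a - 1) + (E.e - 1) * M.c) + E.c) M.c
    have := norm_add_le (E.c * (M.a - 1) + (E.e - 1) * M.c) E.c
    linarith
  · show ‖E.c * M.b + E.e * M.e - 1‖ < 3 * δ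
    have q : E.c * M.b + E.e * M.e - 1 = (E.c * M.b + (E.e - 1) * (M.e - 1)) + (E.e - 1) +
        (M.e - 1) := by ring
    rw [q]
    have := norm_add_le ((E.c * M.b + (E.e - 1) * (M.e - 1)) + (E.e - 1)) (M.e - 1)
    have := norm_add_le (E.c * M.b + (E.e - 1) * (M.e - 1)) (E.e - 1)
    linarith

/-- multiply the last matrix by `E` -/
def gl (l : List Mx) (E : Mx) : List Mx := l.dropLast ++ [E.mul (l.getLastD Mx.one)]

theorem gl_length {l : List Mx} (hl : l ≠ []) (E : Mx) : (gl l E).length = l.length := by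
  rw [gl, List.length_append, List.length_dropLast, List.length_singleton]
  have := List.length_pos_iff.2 hl
  omega

theorem split_last {l : List Mx} (hl : l ≠ []) : l = l.dropLast ++ [l.getLastD Mx.one] := by
  conv_lhs => rw [← List.dropLast_append_getLast hl]
  rw [List.getLastD_eq_getLast?, List.getLast?_eq_some_getLast hl, Option.getD_some]

theorem getLastD_mem {l : List Mx} (hl : l ≠ []) : l.getLastD Mx.one ∈ l := by
  rw [List.getLastD_eq_getLast?, List.getLast?_eq_some_getLast hl, Option.getD_some]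
  exact List.getLast_mem hl

theorem gl_evs {I : Type} (g : I → Sp → Sp) (s : ℕ → I) {l : List Mx} (hl : l ≠ []) {E : Mx}
    (hd : ∀ M ∈ l, M.det ≠ 0) (z : Sp) : evs g s (gl l E) z = E.act (evs g s l z) := by
  have h1 := split_last hl
  have h2 : l.getLastD Mx.one ∈ l := getLastD_mem hl
  conv_rhs => rw [h1]
  rw [gl, evs_snoc, evs_snoc, Mx.act_mul _ (hd _ h2)]

theorem gl_near {δ : ℝ} (hδ0 : 0 < δ) (hδ : δ ≤ 1 / 4) {l : List Mx} (hl : l ≠ []) {E : Mx}
    (hd : ∀ M ∈ l, M.near δ) (hE : E.near δ) : ∀ M ∈ gl l E, M.near (3 * δ) := by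
  have h1 := split_last hl
  have h2 : l.getLastD Mx.one ∈ l := getLastD_mem hl
  intro M hM
  rcases List.mem_append.1 hM with h | h
  · exact (hd M (List.mem_of_mem_dropLast h)).mono (by linarith)
  · rw [List.mem_singleton] at h
    rw [h]
    exact near_mul3 hδ (hd _ h2) hE

/-- An exponential bound. -/
theorem poly_exp (C : ℝ) {x : ℝ} (hx0 : 0 < x) (hx1 : x < 1) :
    ∃ n₀ : ℕ, 1 ≤ n₀ ∧ ∀ n ≥ n₀, C * (n : ℝ) ^ 2 * x ^ n ≤ 1 := by
  have h1 := tendsto_pow_const_mul_const_pow_of_lt_one 2 hx0.le hx1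
  have h2 : Tendsto (fun n : ℕ => C * ((n : ℝ) ^ 2 * x ^ n)) atTop (𝓝 (C * 0)) := h1.const_mul C
  rw [mul_zero] at h2
  obtain ⟨n₀, h3⟩ := eventually_atTop.1 (h2.eventually (ge_mem_nhds one_pos))
  refine ⟨max n₀ 1, le_max_right _ _, fun n hn => ?_⟩
  have := h3 n ((le_max_left _ _).trans hn)
  linarith

/-- **The part lemma.** -/
theorem part {I : Type} [Finite I] {g : I → Sp → Sp} (hg : ∀ i, Good (g i)) {δ : ℝ} (hδ : 0 < δ)
    (A : ℕ) :
    ∃ (MM : Finset Mx) (B : Finset (List Mx)) (w : List Mx → ℝ) (n₀ : ℕ) (R : ℕ → ℝ) (C : ℕ → ℕ),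
      (∀ M ∈ MM, M.near δ ∧ M.det ≠ 0) ∧
      (∀ b ∈ B, 0 ≤ w b) ∧ ∑ b ∈ B, w b = 1 ∧ 1 ≤ n₀ ∧ (∀ n, 0 < R n) ∧
      ∀ n ≥ n₀, ∀ N, n ≤ N → N ≤ A * n → ∀ s : ℕ → I,
      ∃ (K : ℕ) (φ : List (List Mx) → List Mx) (E : List (List Mx) → Finset Sp)
        (bd : Sp → List (List Mx) → ℝ),
        (∀ z bs, 0 ≤ bd z bs) ∧
        (∀ z, EX B w K (bd z) * (16 * (C n + 1)) ≤ 1) ∧
        ∀ bs : List (List Mx), bs.length = K → (∀ b ∈ bs, b ∈ B) →
          (φ bs).length = N ∧ (∀ M ∈ φ bs, M ∈ MM) ∧ (E bs).card ≤ C n ∧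
          (∀ z, ¬ LI (evs g s (φ bs)) z → evs g s (φ bs) z ∈ E bs) ∧
          ∀ z, bd z bs < 1 →
            (∃ e ∈ E bs, ∀ y, dist y z ≤ R n → dist (evs g s (φ bs) y) e ≤ R n / 4) ∧
            ∀ y y', dist y z ≤ R n → dist y' z ≤ R n →
              dist (evs g s (φ bs) y) (evs g s (φ bs) y') ≤ 1 / 4 * dist y y' := by
  classical
  by_cases hI : Nonempty I
  swap
  · refine ⟨∅, {[]}, fun _ => 1, 1, fun _ => 1, fun _ => 0, by simp, by simp, by simp, le_rfl,
      by simp, ?_⟩
    intro n _ N _ _ s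
    exact absurd ⟨s 0⟩ hI
  obtain ⟨i₀⟩ := hI
  set δ₁ : ℝ := min (δ / 3) (1 / 4) with hδ₁
  have hδ₁0 : 0 < δ₁ := by positivity
  have hδ₁1 : δ₁ ≤ 1 / 4 := min_le_right _ _
  have hδ₁2 : 3 * δ₁ ≤ δ := by
    have : δ₁ ≤ δ / 3 := min_le_left _ _
    linarith
  -- the contracting blocks
  obtain ⟨Ls, ρ, hρ, hLs, hsel⟩ := blocks hg hδ₁0 (κ := 1 / 1200) (by norm_num)
  set L₀ : ℕ := Ls.sup List.length with hL₀
  have hL₀le : ∀ l ∈ Ls, l.length ≤ L₀ := fun l hl => Finset.le_sup (f := List.length) hl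
  have hL₀1 : 1 ≤ L₀ := by
    obtain ⟨l, hl, -⟩ := hsel (fun _ => i₀) ∞
    exact (List.length_pos_iff.2 (hLs l hl).1).trans_le (hL₀le l hl)
  let ext : (Fin L₀ → I) → ℕ → I := fun u n => if h : n < L₀ then u ⟨n, h⟩ else i₀
  let J := (Fin L₀ → I) × {l : List Mx // l ∈ Ls}
  let F : J → Sp → Sp := fun a => evs g (ext a.1) a.2.1
  have hFhol : ∀ a, HolMap (F a) := fun a =>
    evs_hol g (fun i => (hg i).hol) _ (hLs _ a.2.2).2.det
  set η : ℝ := min (ρ / 40) δ₁ with hη
  have hη0 : 0 < η := by positivity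
  have hη1 : η ≤ δ₁ := min_le_right _ _
  have hη2 : 40 * η ≤ ρ := by
    have : η ≤ ρ / 40 := min_le_left _ _
    linarith
  obtain ⟨m, r, B, w, lam, q, hm, hr, hB, hlam, hq0, hq1, hw0, hw1, hPD⟩ :=
    exists_pd hFhol hρ hη0 (κ := 1 / 1200) le_rfl hη2 (hη1.trans hδ₁1)
  -- the kicks
  set MM : Finset Mx := Ls.biUnion List.toFinset ∪
    ((Ls ×ˢ B.biUnion List.toFinset).image fun p => p.2.mul (p.1.getLastD Mx.one)) ∪ {Mx.one}
    with hMM
  have MM1 : ∀ l ∈ Ls, ∀ M ∈ l, M ∈ MM := by
    intro l hl M hM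
    apply Finset.mem_union_left
    apply Finset.mem_union_left
    exact Finset.mem_biUnion.2 ⟨l, hl, List.mem_toFinset.2 hM⟩
  have MM2 : ∀ l ∈ Ls, ∀ b ∈ B, ∀ E ∈ b, E.mul (l.getLastD Mx.one) ∈ MM := by
    intro l hl b hb E hE
    apply Finset.mem_union_left
    apply Finset.mem_union_right
    refine Finset.mem_image.2 ⟨(l, E), ?_, rfl⟩
    exact Finset.mem_product.2 ⟨hl, Finset.mem_biUnion.2 ⟨b, hb, List.mem_toFinset.2 hE⟩⟩
  have MM3 : Mx.one ∈ MM := Finset.mem_union_right _ (Finset.mem_singleton_self _)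
  have MM4 : ∀ M ∈ MM, M.near δ ∧ M.det ≠ 0 := by
    intro M hM
    rcases Finset.mem_union.1 hM with h | h
    · rcases Finset.mem_union.1 h with h | h
      · obtain ⟨l, hl, h⟩ := Finset.mem_biUnion.1 h
        have h1 := (hLs l hl).2 M (List.mem_toFinset.1 h)
        exact ⟨h1.near.mono (by linarith), h1.det⟩
      · obtain ⟨⟨l, E⟩, hp, rfl⟩ := Finset.mem_image.1 h
        obtain ⟨hl, hp2⟩ := Finset.mem_product.1 hp
        obtain ⟨b, hb, hp3⟩ := Finset.mem_biUnion.1 hp2
        have h1 := (hB b hb).2 E (List.mem_toFinset.1 hp3)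
        have h2 := (hLs l hl).2 _ (getLastD_mem (hLs l hl).1)
        refine ⟨(near_mul3 hδ₁1 h2.near (h1.near.mono hη1)).mono hδ₁2, ?_⟩
        rw [Mx.det_mul]
        exact mul_ne_zero h1.det h2.det
    · rw [Finset.mem_singleton.1 h]
      exact ⟨Mx.near_one hδ, by simp [Mx.det, Mx.one]⟩
  -- constants of the maps
  obtain ⟨Lg, hLg1, hLg⟩ := lip_family fun i => (hg i).hol
  choose crit hcrit using fun i => (hg i).crit
  obtain ⟨c₀, hc₀⟩ : ∃ c₀ : ℕ, ∀ i, (crit i).card ≤ c₀ := by
    have := Fintype.ofFinite I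
    exact ⟨Finset.univ.sup fun i => (crit i).card, fun i =>
      Finset.le_sup (f := fun i => (crit i).card) (Finset.mem_univ i)⟩
  obtain ⟨Ne, -, hNef, hNec⟩ := finite_cover_balls_of_compact (isCompact_univ (X := Sp)) (half_pos hr)
  have hnet : ∀ x : Sp, ∃ ν ∈ hNef.toFinset, dist ν x ≤ r / 2 := by
    intro x
    obtain ⟨ν, hν, hx⟩ := mem_iUnion₂.1 (hNec (mem_univ x))
    refine ⟨ν, hNef.mem_toFinset.2 hν, ?_⟩
    rw [dist_comm]
    exact (mem_ball.1 hx).le
  set ΛR : ℝ := Lg ^ (m * L₀) with hΛR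
  have hΛR1 : 1 ≤ ΛR := one_le_pow₀ hLg1
  have hΛR0 : 0 < ΛR := by linarith
  set σ : ℝ := -Real.log q / (m * L₀) with hσ
  have hmL : (0 : ℝ) < m * L₀ := by
    have : 0 < m * L₀ := Nat.mul_pos (by omega) (by omega)
    exact_mod_cast this
  have hlogq : Real.log q < 0 := Real.log_neg hq0 hq1
  have hσ0 : 0 < σ := by rw [hσ]; apply div_pos (by linarith) hmL
  set τ : ℝ := σ / (2 * lam) with hτ
  have hτ0 : 0 < τ := by positivity
  set x : ℝ := Real.exp (-(σ / 2)) with hx
  have hx0 : 0 < x := Real.exp_pos _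
  have hx1 : x < 1 := by rw [hx, Real.exp_lt_one_iff]; linarith
  set R : ℕ → ℝ := fun n => r / 2 * Real.exp (-(τ * n)) with hR
  have hR0 : ∀ n, 0 < R n := fun n => by simp only [hR]; positivity
  have hRr : ∀ n, R n ≤ r / 2 := by
    intro n
    simp only [hR]
    have h1 : Real.exp (-(τ * n)) ≤ 1 := by
      rw [Real.exp_le_one_iff]
      have : 0 ≤ τ * n := by positivity
      linarith
    nlinarith
  set C : ℕ → ℕ := fun n => hNef.toFinset.card * (A * n + 1) + c₀ * (A * n) with hC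
  set C₁ : ℝ := 2 / q * (16 * ΛR) ^ lam with hC₁
  have hC₁0 : 0 < C₁ := by positivity
  set C₂ : ℝ := (2 * (A + 1) + C₁) * (16 * (hNef.toFinset.card * (A + 1) + c₀ * A + 1)) with hC₂
  obtain ⟨n₀, hn₀1, hn₀⟩ := poly_exp C₂ hx0 hx1
  refine ⟨MM, B, w, n₀, R, C, MM4, hw0, hw1, hn₀1, hR0, fun n hn N hnN hNA s => ?_⟩
  have hn1 : 1 ≤ n := hn₀1.trans hn
  -- the track
  choose sl hsl1 hsl2 using fun p : (ℕ → I) × Sp => hsel p.1 p.2
  let st : ℕ → ℕ × Sp := fun k => Nat.rec (0, (∞ : Sp)) (fun _ p =>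
    (p.1 + (sl (sh p.1 s, p.2)).length, evs g (sh p.1 s) (sl (sh p.1 s, p.2)) p.2)) k
  let T : ℕ → ℕ := fun k => (st k).1
  let X : ℕ → Sp := fun k => (st k).2
  let l : ℕ → List Mx := fun k => sl (sh (T k) s, X k)
  have hT0 : T 0 = 0 := rfl
  have hTs : ∀ k, T (k + 1) = T k + (l k).length := fun k => rfl
  have hXs : ∀ k, X (k + 1) = evs g (sh (T k) s) (l k) (X k) := fun k => rfl
  have hlL : ∀ k, l k ∈ Ls := fun k => hsl1 _
  have hlen : ∀ k, (l k).length ≤ L₀ := fun k => hL₀le _ (hlL k)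
  have hlpos : ∀ k, 1 ≤ (l k).length := fun k => List.length_pos_iff.2 (hLs _ (hlL k)).1
  have hTadd : ∀ k j, T k ≤ T (k + j) ∧ k + j + T k ≤ T (k + j) + k ∧ T (k + j) ≤ T k + j * L₀ := by
    intro k j
    induction j with
    | zero => exact ⟨le_rfl, by rw [Nat.add_zero, Nat.add_comm], by simp⟩
    | succ j ih =>
      have e : T (k + (j + 1)) = T (k + j) + (l (k + j)).length := hTs (k + j)
      have h1 := hlen (k + j)
      have h2 := hlpos (k + j)
      rw [e, Nat.add_mul, Nat.one_mul]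
      omega
  let a : ℕ → J := fun k => (fun i : Fin L₀ => sh (T k) s i, ⟨l k, hlL k⟩)
  have hFa : ∀ k z, F (a k) z = evs g (sh (T k) s) (l k) z := by
    intro k z
    apply evs_congr
    intro j hj
    have h1 : j < L₀ := hj.trans_le (hlen k)
    show (if h : j < L₀ then sh (T k) s ((⟨j, h⟩ : Fin L₀) : ℕ) else i₀) = _
    rw [dif_pos h1]
  have hX : ∀ k, xk F a ∞ k = X k := by
    intro k
    induction k with
    | zero => rfl
    | succ k ih => rw [xk_succ, ih, hFa, hXs]
  have hTr : Tr F (1 / 1200) ρ a ∞ := by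
    intro k y hy y' hy'
    rw [hX] at hy hy'
    rw [hFa, hFa]
    exact hsl2 (sh (T k) s, X k) y hy y' hy'
  obtain ⟨W, V, hpd⟩ := hPD a ∞ hTr
  -- conversion of kicks
  let conv : ℕ → List Mx → List Mx := fun k b =>
    List.rec (motive := fun _ => ℕ → List Mx) (fun _ => []) (fun E _ ih k => gl (l k) E ++ ih (k + 1))
      b k
  have conv_nil : ∀ k, conv k [] = [] := fun k => rfl
  have conv_cons : ∀ k E b, conv k (E :: b) = gl (l k) E ++ conv (k + 1) b := fun k E b => rfl
  have hne : ∀ k, l k ≠ [] := fun k => (hLs _ (hlL k)).1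
  have hadk : ∀ k, adK δ₁ (l k) := fun k => (hLs _ (hlL k)).2
  have conv_len : ∀ (b : List Mx) (k : ℕ), T k + (conv k b).length = T (k + b.length) := by
    intro b
    induction b with
    | nil => intro k; rw [conv_nil k]; simp
    | cons E b ih =>
      intro k
      rw [conv_cons, List.length_append, gl_length (hne k), List.length_cons]
      have h1 := ih (k + 1)
      have h2 := hTs k
      have e : k + (b.length + 1) = k + 1 + b.length := by ring
      rw [e, ← h1, h2]
      ring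
  have conv_evs : ∀ (b : List Mx) (k : ℕ) (z : Sp), evs g (sh (T k) s) (conv k b) z =
      evs F (sh k a) b z := by
    intro b
    induction b with
    | nil => intro k z; rfl
    | cons E b ih =>
      intro k z
      rw [conv_cons, evs_sh, gl_length (hne k), sh_sh, gl_evs g _ (hne k) (hadk k).det, evs_cons]
      have e1 : (l k).length + T k = T (k + 1) := by rw [hTs]; ring
      have e2 : (fun n => sh k a (n + 1)) = sh (k + 1) a := by
        funext n
        simp only [sh]
        congr 1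
        ring
      have e3 : F (sh k a 0) z = evs g (sh (T k) s) (l k) z := by
        rw [← hFa]
        simp only [sh, Nat.zero_add]
      rw [e1, e2, e3]
      exact ih (k + 1) _
  have conv_mem : ∀ (b : List Mx) (k : ℕ), (∀ E ∈ b, ∃ b' ∈ B, E ∈ b') → ∀ M ∈ conv k b, M ∈ MM := by
    intro b
    induction b with
    | nil => intro k _ M hM; rw [conv_nil k] at hM; simp at hM
    | cons E b ih =>
      intro k hb M hM
      rw [conv_cons] at hM
      rcases List.mem_append.1 hM with h | h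
      · rcases List.mem_append.1 h with h | h
        · exact MM1 _ (hlL k) M (List.mem_of_mem_dropLast h)
        · rw [List.mem_singleton] at h
          rw [h]
          obtain ⟨b', hb', hE⟩ := hb E List.mem_cons_self
          exact MM2 _ (hlL k) b' hb' E hE
      · exact ih (k + 1) (fun N hN => hb N (List.mem_cons_of_mem _ hN)) M h
  -- the number of superblocks
  set K : ℕ := Nat.findGreatest (fun K => T (K * m) ≤ N) N with hK
  have hKN : K ≤ N := Nat.findGreatest_le N
  have hTK : T (K * m) ≤ N := by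
    have : T (0 * m) ≤ N := by rw [Nat.zero_mul, hT0]; omega
    exact Nat.findGreatest_spec (P := fun K => T (K * m) ≤ N) (Nat.zero_le N) this
  have hTK1 : N < T ((K + 1) * m) := by
    by_cases h1 : K + 1 ≤ N
    · have := Nat.findGreatest_is_greatest (P := fun K => T (K * m) ≤ N) (Nat.lt_succ_self K) h1
      simpa using this
    · have h2 := (hTadd 0 ((K + 1) * m)).2.1
      rw [hT0] at h2
      simp only [Nat.zero_add] at h2
      have h3 : K + 1 ≤ (K + 1) * m := Nat.le_mul_of_pos_right _ hm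
      omega
  set rem : ℕ := N - T (K * m) with hrem
  have hreml : rem ≤ m * L₀ := by
    have h1 := (hTadd (K * m) m).2.2
    have e : (K + 1) * m = K * m + m := by ring
    rw [e] at hTK1
    omega
  have hNK : N < (K + 1) * (m * L₀) := by
    have h1 := (hTadd 0 ((K + 1) * m)).2.2
    rw [hT0] at h1
    simp only [Nat.zero_add] at h1
    calc N < T ((K + 1) * m) := hTK1
      _ ≤ (K + 1) * m * L₀ := h1
      _ = (K + 1) * (m * L₀) := by ring
  let φ : List (List Mx) → List Mx := fun bs => conv 0 bs.flatten ++ List.replicate rem Mx.one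
  let Φ : ℕ → List Mx → Sp → Sp := fun n b => evs F (sh (n * m) a) b
  let Rem : Sp → Sp := fun z => xk g (sh (T (K * m)) s) z rem
  have hRem : ∀ y y', dist (Rem y) (Rem y') ≤ ΛR * dist y y' := by
    intro y y'
    refine (xk_lip (by linarith) hLg _ rem y y').trans ?_
    apply mul_le_mul_of_nonneg_right _ dist_nonneg
    exact pow_le_pow_right₀ hLg1 hreml
  have hrb : ∀ (bs : List (List Mx)) (k : ℕ) (z : Sp), (∀ b ∈ bs, b ∈ B) →
      rb Φ k bs z = evs F (sh (k * m) a) bs.flatten z := by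
    intro bs
    induction bs with
    | nil => intro k z _; rfl
    | cons b bs ih =>
      intro k z hbs
      have hbm := (hB b (hbs b List.mem_cons_self)).1
      rw [rb_cons, ih (k + 1) _ fun c hc => hbs c (List.mem_cons_of_mem _ hc), List.flatten_cons,
        evs_sh, sh_sh, hbm]
      have e : m + k * m = (k + 1) * m := by ring
      rw [e]
  have hflen : ∀ bs : List (List Mx), (∀ b ∈ bs, b ∈ B) → bs.flatten.length = bs.length * m := by
    intro bs
    induction bs with
    | nil => simp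
    | cons b bs ih =>
      intro hbs
      rw [List.flatten_cons, List.length_append, (hB b (hbs b List.mem_cons_self)).1,
        ih fun c hc => hbs c (List.mem_cons_of_mem _ hc), List.length_cons]
      ring
  have hclen : ∀ bs : List (List Mx), bs.length = K → (∀ b ∈ bs, b ∈ B) →
      (conv 0 bs.flatten).length = T (K * m) := by
    intro bs h1 h2
    have h3 := conv_len bs.flatten 0
    rw [hflen bs h2, h1, hT0, Nat.zero_add, Nat.zero_add] at h3
    exact h3
  have hev : ∀ bs : List (List Mx), bs.length = K → (∀ b ∈ bs, b ∈ B) → ∀ z,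
      evs g s (φ bs) z = Rem (rb Φ 0 bs z) := by
    intro bs h1 h2 z
    have h3 : evs g s (conv 0 bs.flatten) z = rb Φ 0 bs z := by
      rw [hrb bs 0 z h2, Nat.zero_mul]
      exact conv_evs bs.flatten 0 z
    show evs g s (conv 0 bs.flatten ++ List.replicate rem Mx.one) z = _
    rw [evs_sh, hclen bs h1 h2, h3, evs_one']
  let E : List (List Mx) → Finset Sp := fun bs =>
    ((hNef.toFinset ×ˢ Finset.range (K + 1)).image fun p =>
      Rem (rb Φ p.2 (bs.drop p.2) p.1)) ∪ cvs g crit s (φ bs)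
  -- the thresholds
  set Th : ℝ := Real.exp (τ * n) with hTh
  set th : ℝ := R n / (8 * ΛR * r) with hth
  have hTh0 : 0 < Th := Real.exp_pos _
  have hth0 : 0 < th := by have := hR0 n; positivity
  have hThR : Th * R n < r := by
    have : Th * R n = r / 2 := by
      simp only [hR, hTh]
      rw [mul_comm, mul_assoc, ← Real.exp_add]
      simp
    rw [this]; linarith
  refine ⟨K, φ, E, fun z bs => bad Φ W Th th 0 z bs, fun z bs => bad_nonneg, ?_, ?_⟩
  · -- the probability
    intro z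
    have h1 := hpd.prob_bad hTh0 hth0 K 0 z
    have hlt : lam * τ = σ / 2 := by rw [hτ]; field_simp
    have e1 : Th ^ lam = (x ^ n)⁻¹ := by
      rw [hTh, ← Real.exp_mul, hx, ← Real.exp_nat_mul, ← Real.exp_neg]
      congr 1
      have : τ * n * lam = (lam * τ) * n := by ring
      rw [this, hlt]
      ring
    have e2 : th = Real.exp (-(τ * n)) / (16 * ΛR) := by
      simp only [hth, hR]
      field_simp
      ring
    have e3 : th ^ lam = x ^ n / (16 * ΛR) ^ lam := by
      rw [e2, Real.div_rpow (Real.exp_pos _).le (by positivity), ← Real.exp_mul, hx,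
        ← Real.exp_nat_mul]
      congr 2
      have : -(τ * n) * lam = -((lam * τ) * n) := by ring
      rw [this, hlt]
      ring
    have hq2 : q ^ K ≤ 1 / q * (x ^ n * x ^ n) := by
      have h2 : q ^ (K + 1) ≤ x ^ n * x ^ n := by
        rw [← Real.rpow_natCast, Real.rpow_def_of_pos hq0, hx, ← Real.exp_nat_mul, ← Real.exp_add]
        apply Real.exp_le_exp.2
        have h3 : (n : ℝ) ≤ ((K : ℝ) + 1) * (m * L₀) := by
          have : n ≤ (K + 1) * (m * L₀) := hnN.trans hNK.le
          exact_mod_cast this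
        have h4 : σ * (m * L₀) = -Real.log q := by rw [hσ]; field_simp
        have h5 : Real.log q = -(σ * (m * L₀)) := by linarith
        rw [h5]
        push_cast
        nlinarith
      rw [pow_succ] at h2
      rw [div_mul_eq_mul_div, one_mul, le_div_iff₀ hq0]
      exact h2
    rw [e1, e3] at h1
    have hxn : 0 < x ^ n := pow_pos hx0 n
    have h2 : 2 * ((K : ℝ) + 1) / (x ^ n)⁻¹ + 2 * q ^ K / (x ^ n / (16 * ΛR) ^ lam) ≤
        (2 * (A * n + 1) + C₁) * x ^ n := by
      have hK1 : (K : ℝ) ≤ A * n := by exact_mod_cast hKN.trans hNA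
      have hp : 0 < (16 * ΛR) ^ lam := by positivity
      have h3 : 2 * ((K : ℝ) + 1) / (x ^ n)⁻¹ ≤ 2 * (A * n + 1) * x ^ n := by
        rw [div_inv_eq_mul]
        gcongr
      have h4 : 2 * q ^ K / (x ^ n / (16 * ΛR) ^ lam) ≤ C₁ * x ^ n := by
        rw [div_div_eq_mul_div, div_le_iff₀ hxn]
        calc 2 * q ^ K * (16 * ΛR) ^ lam ≤ 2 * (1 / q * (x ^ n * x ^ n)) * (16 * ΛR) ^ lam := by
              gcongr
          _ = C₁ * x ^ n * x ^ n := by rw [hC₁]; ring
      linarith
    have h5 : EX B w K (bad Φ W Th th 0 z) ≤ (2 * (A * n + 1) + C₁) * x ^ n := h1.trans h2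
    have h6 := hn₀ n hn
    have hn1' : (1 : ℝ) ≤ n := by exact_mod_cast hn1
    have hCn : (C n : ℝ) + 1 ≤ (hNef.toFinset.card * (A + 1) + c₀ * A + 1) * n := by
      simp only [hC]
      push_cast
      have : (0 : ℝ) ≤ hNef.toFinset.card := by positivity
      nlinarith
    have hA1 : 2 * ((A : ℝ) * n + 1) + C₁ ≤ (2 * (A + 1) + C₁) * n := by
      nlinarith
    have hA0 : (0 : ℝ) ≤ 2 * (A * n + 1) + C₁ := by positivity
    calc EX B w K (bad Φ W Th th 0 z) * (16 * (C n + 1))
        ≤ ((2 * (A * n + 1) + C₁) * x ^ n) * (16 * (C n + 1)) := by gcongr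
      _ ≤ (((2 * (A + 1) + C₁) * n) * x ^ n) *
          (16 * ((hNef.toFinset.card * (A + 1) + c₀ * A + 1) * n)) := by gcongr
      _ = C₂ * (n : ℝ) ^ 2 * x ^ n := by rw [hC₂]; ring
      _ ≤ 1 := h6
  · intro bs hbsK hbsB
    have hclen' := hclen bs hbsK hbsB
    have hφlen : (φ bs).length = N := by
      show (conv 0 bs.flatten ++ List.replicate rem Mx.one).length = N
      rw [List.length_append, hclen', List.length_replicate]
      omega
    have hflat : ∀ E ∈ bs.flatten, ∃ b' ∈ B, E ∈ b' := by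
      intro M hM
      obtain ⟨b, hb, hMb⟩ := List.mem_flatten.1 hM
      exact ⟨b, hbsB b hb, hMb⟩
    have hmem : ∀ M ∈ φ bs, M ∈ MM := by
      intro M hM
      rcases List.mem_append.1 hM with h | h
      · exact conv_mem _ 0 hflat M h
      · rw [(List.mem_replicate.1 h).2]
        exact MM3
    refine ⟨hφlen, hmem, ?_, ?_, ?_⟩
    · -- the number of ends
      refine (Finset.card_union_le _ _).trans ?_
      have h1 := cvs_card (g := g) hc₀ s (φ bs)
      rw [hφlen] at h1
      have h2 : ((hNef.toFinset ×ˢ Finset.range (K + 1)).image fun p : Sp × ℕ =>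
          Rem (rb Φ p.2 (bs.drop p.2) p.1)).card ≤ hNef.toFinset.card * (K + 1) := by
        refine Finset.card_image_le.trans ?_
        rw [Finset.card_product, Finset.card_range]
      refine (Nat.add_le_add h2 h1).trans ?_
      simp only [hC]
      have h3 : K + 1 ≤ A * n + 1 := by omega
      exact Nat.add_le_add (Nat.mul_le_mul_left _ h3) (Nat.mul_le_mul_left _ hNA)
    · intro z hz
      apply Finset.mem_union_right
      exact cvs_crit (fun i => (hg i).hol) (fun i z hz => hcrit i z hz)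
        (fun M hM => (MM4 M (hmem M hM)).2) hz
    · intro z hz
      have hgood := good_of_bad hz
      have hRn := hR0 n
      constructor
      · obtain ⟨ν, hν, j, hj, h1⟩ := hpd.ends hnet hbsB (n := 0) (ρ := R n) hRn.le hThR hgood
        refine ⟨Rem (rb Φ j (bs.drop j) ν), ?_, fun y hy => ?_⟩
        · apply Finset.mem_union_left
          refine Finset.mem_image.2 ⟨(ν, j), ?_, rfl⟩
          rw [Finset.mem_product, Finset.mem_range]
          refine ⟨hν, ?_⟩
          show j < K + 1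
          omega
        · rw [hev bs hbsK hbsB]
          have h2 := h1 y hy
          rw [Nat.zero_add] at h2
          calc _ ≤ ΛR * dist (rb Φ 0 bs y) (rb Φ j (bs.drop j) ν) := hRem _ _
            _ ≤ ΛR * (th * (R n + r)) := by gcongr
            _ ≤ ΛR * (th * (2 * r)) := by
                have := hRr n
                gcongr
                linarith
            _ = R n / 4 := by rw [hth]; field_simp; ring
      · intro y y' hy hy'
        rw [hev bs hbsK hbsB, hev bs hbsK hbsB]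
        have h2 := hpd.tube_good hbsB (n := 0) hRn.le hThR hgood hy hy'
        have h3 : ΛR * th ≤ 1 / 4 := by
          have h4 : ΛR * th = R n / (8 * r) := by rw [hth]; field_simp
          rw [h4, div_le_iff₀ (by positivity)]
          have := hRr n
          linarith
        calc _ ≤ ΛR * dist (rb Φ 0 bs y) (rb Φ 0 bs y') := hRem _ _
          _ ≤ ΛR * (th * dist y y') := by gcongr
          _ = ΛR * th * dist y y' := by ring
          _ ≤ 1 / 4 * dist y y' := by gcongr

end Pool.Agent.Y334.FS
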