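import Mathlib
import Pool.Agent.Y334.FS.Part

/-! Choosing the kicks in a consistent way. -/

set_option autoImplicit false

open Set Filter Topology Metric
open scoped OnePoint
open Pool.Agent.Helper114.Herman
open Pool.Agent.Y334.RM
open Pool.Agent.Y334.NA

namespace Pool.Agent.Y334.FS

attribute [local instance] sphMet

/-- the data given by the part lemma for one word -/
structure Pt {I : Type} (g : I → Sp → Sp) (MM : Finset Mx) (B : Finset (List Mx))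
    (w : List Mx → ℝ) (R : ℝ) (C N : ℕ) (s : ℕ → I) where
  K : ℕ
  φ : List (List Mx) → List Mx
  E : List (List Mx) → Finset Sp
  bd : Sp → List (List Mx) → ℝ
  bd0 : ∀ z bs, 0 ≤ bd z bs
  ex : ∀ z, EX B w K (bd z) * (16 * (C + 1)) ≤ 1
  len : ∀ bs, bs.length = K → (∀ b ∈ bs, b ∈ B) → (φ bs).length = N
  mem : ∀ bs, bs.length = K → (∀ b ∈ bs, b ∈ B) → ∀ M ∈ φ bs, M ∈ MM
  card : ∀ bs, bs.length = K → (∀ b ∈ bs, b ∈ B) → (E bs).card ≤ C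
  crit : ∀ bs, bs.length = K → (∀ b ∈ bs, b ∈ B) → ∀ z, ¬ LI (evs g s (φ bs)) z →
    evs g s (φ bs) z ∈ E bs
  good : ∀ bs, bs.length = K → (∀ b ∈ bs, b ∈ B) → ∀ z, bd z bs < 1 →
    (∃ e ∈ E bs, ∀ y, dist y z ≤ R → dist (evs g s (φ bs) y) e ≤ R / 4) ∧
      ∀ y y', dist y z ≤ R → dist y' z ≤ R →
        dist (evs g s (φ bs) y) (evs g s (φ bs) y') ≤ 1 / 4 * dist y y'

theorem exists_pt {I : Type} [Finite I] {g : I → Sp → Sp} (hg : ∀ i, Good (g i)) {δ : ℝ}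
    (hδ : 0 < δ) (A : ℕ) :
    ∃ (MM : Finset Mx) (B : Finset (List Mx)) (w : List Mx → ℝ) (n : ℕ) (R : ℝ) (C : ℕ),
      (∀ M ∈ MM, M.near δ ∧ M.det ≠ 0) ∧
      (∀ b ∈ B, 0 ≤ w b) ∧ ∑ b ∈ B, w b = 1 ∧ 1 ≤ n ∧ 0 < R ∧
      ∀ N, n ≤ N → N ≤ A * n → ∀ s : ℕ → I, Nonempty (Pt g MM B w R C N s) := by
  obtain ⟨MM, B, w, n₀, R, C, h1, h2, h3, h4, h5, h6⟩ := part hg hδ A
  refine ⟨MM, B, w, n₀, R n₀, C n₀, h1, h2, h3, h4, h5 n₀, fun N hN hN2 s => ?_⟩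
  obtain ⟨K, φ, E, bd, g1, g2, g3⟩ := h6 n₀ le_rfl N hN hN2 s
  exact ⟨⟨K, φ, E, bd, g1, g2, fun bs h h' => (g3 bs h h').1, fun bs h h' => (g3 bs h h').2.1,
    fun bs h h' => (g3 bs h h').2.2.1, fun bs h h' => (g3 bs h h').2.2.2.1,
    fun bs h h' => (g3 bs h h').2.2.2.2⟩⟩

section

variable {I : Type} {g : I → Sp → Sp} {MM : Finset Mx} {B : Finset (List Mx)}
  {w : List Mx → ℝ} {R : ℝ} {C : ℕ}

/-- the lists over `B` of the right length -/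
def Pt.ok {N : ℕ} {s : ℕ → I} (D : Pt g MM B w R C N s) (bs : List (List Mx)) : Prop :=
  bs.length = D.K ∧ ∀ b ∈ bs, b ∈ B

/-- the number of the ends of `D` which are bad for the kicks `rs` of `D'` -/
noncomputable def Pt.cost {N N' : ℕ} {s s' : ℕ → I} (D : Pt g MM B w R C N s)
    (D' : Pt g MM B w R C N' s') (bs rs : List (List Mx)) : ℝ := ∑ e ∈ D.E bs, D'.bd e rs

theorem Pt.cost_nonneg {N N' : ℕ} {s s' : ℕ → I} (D : Pt g MM B w R C N s)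
    (D' : Pt g MM B w R C N' s') (bs rs : List (List Mx)) : 0 ≤ D.cost D' bs rs :=
  Finset.sum_nonneg fun e _ => D'.bd0 e rs

theorem Pt.ex_cost (hw : ∀ b ∈ B, 0 ≤ w b) {N N' : ℕ} {s s' : ℕ → I} (D : Pt g MM B w R C N s)
    (D' : Pt g MM B w R C N' s') {bs : List (List Mx)} (hbs : D.ok bs) :
    EX B w D'.K (fun rs => D.cost D' bs rs) ≤ 1 / 16 := by
  have h1 : EX B w D'.K (fun rs => D.cost D' bs rs) = ∑ e ∈ D.E bs, EX B w D'.K (D'.bd e) :=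
    EX_sum _ _
  rw [h1]
  have h2 : ∀ e ∈ D.E bs, EX B w D'.K (D'.bd e) ≤ 1 / (16 * (C + 1)) := by
    intro e _
    rw [le_div_iff₀ (by positivity)]
    exact D'.ex e
  refine (Finset.sum_le_card_nsmul _ _ _ h2).trans ?_
  rw [nsmul_eq_mul]
  have h3 : ((D.E bs).card : ℝ) ≤ C := by exact_mod_cast D.card bs hbs.1 hbs.2
  rw [mul_one_div, div_le_iff₀ (by positivity)]
  linarith

theorem chooseR (hw : ∀ b ∈ B, 0 ≤ w b) (hs : ∑ b ∈ B, w b = 1) {N N' : ℕ} {s s' : ℕ → I}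
    (D : Pt g MM B w R C N s) (D' : Pt g MM B w R C N' s') :
    ∃ rs, D'.ok rs ∧ EX B w D.K (fun bs => D.cost D' bs rs) < 1 / 8 := by
  have h1 : EX B w D'.K (fun rs => 8 * EX B w D.K (fun bs => D.cost D' bs rs)) < 1 := by
    rw [EX_const_mul, EX_swap]
    have h2 : EX B w D.K (fun bs => EX B w D'.K (fun rs => D.cost D' bs rs)) ≤
        EX B w D.K (fun _ => 1 / 16) := EX_mono hw fun bs h h' => D.ex_cost hw D' ⟨h, h'⟩
    rw [EX_const hs] at h2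
    linarith
  obtain ⟨rs, h2, h3, h4⟩ := EX_exists hw hs h1
  exact ⟨rs, ⟨h2, h3⟩, by linarith⟩

theorem chooseB (hw : ∀ b ∈ B, 0 ≤ w b) (hs : ∑ b ∈ B, w b = 1) {N₀ N₁ N₂ : ℕ}
    {s₀ s₁ s₂ : ℕ → I} (D₀ : Pt g MM B w R C N₀ s₀) (D₁ : Pt g MM B w R C N₁ s₁)
    (D₂ : Pt g MM B w R C N₂ s₂) (rs₀ rs₂ : List (List Mx)) :
    ∃ bs, D₀.ok rs₀ → EX B w D₁.K (fun bs => D₁.cost D₂ bs rs₂) < 1 / 8 →
      D₁.ok bs ∧ D₀.cost D₁ rs₀ bs < 1 ∧ D₁.cost D₂ bs rs₂ < 1 := by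
  by_cases h : D₀.ok rs₀ ∧ EX B w D₁.K (fun bs => D₁.cost D₂ bs rs₂) < 1 / 8
  swap
  · exact ⟨[], fun h1 h2 => absurd ⟨h1, h2⟩ h⟩
  obtain ⟨h1, h2⟩ := h
  have h3 : EX B w D₁.K (fun bs => D₀.cost D₁ rs₀ bs + D₁.cost D₂ bs rs₂) < 1 := by
    rw [EX_add]
    have := D₀.ex_cost hw D₁ h1
    linarith
  obtain ⟨bs, g1, g2, g3⟩ := EX_exists hw hs h3
  have := D₀.cost_nonneg D₁ rs₀ bs
  have := D₁.cost_nonneg D₂ bs rs₂
  exact ⟨bs, fun _ _ => ⟨⟨g1, g2⟩, by linarith, by linarith⟩⟩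

end

/-- **The system of choices.** `φ q bs` is the list of the kicks used along a word `q` (length and
letters), `E q bs` the set of its ends, `G q bs z` says that `z` is good for these kicks. -/
theorem exists_sys {I : Type} [Finite I] {g : I → Sp → Sp} (hg : ∀ i, Good (g i)) {δ : ℝ}
    (hδ : 0 < δ) :
    ∃ (MM : Finset Mx) (n : ℕ) (R : ℝ) (φ : ℕ × (ℕ → I) → List (List Mx) → List Mx)
      (E : ℕ × (ℕ → I) → List (List Mx) → Finset Sp)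
      (G : ℕ × (ℕ → I) → List (List Mx) → Sp → Prop)
      (ok : ℕ × (ℕ → I) → List (List Mx) → Prop)
      (RS : ℕ × (ℕ → I) → ℕ × (ℕ → I) → List (List Mx))
      (BS : ℕ × (ℕ → I) → List (List Mx) → ℕ × (ℕ → I) → ℕ × (ℕ → I) → List (List Mx)),
      (∀ M ∈ MM, M.near δ ∧ M.det ≠ 0) ∧ 1 ≤ n ∧ 0 < R ∧
      (∀ q q', ok q' (RS q q')) ∧
      (∀ q₀ r₀ q₁ q₂, ok q₀ r₀ → ok q₁ (BS q₀ r₀ q₁ q₂) ∧
        (∀ e ∈ E q₀ r₀, G q₁ (BS q₀ r₀ q₁ q₂) e) ∧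
        ∀ e ∈ E q₁ (BS q₀ r₀ q₁ q₂), G q₂ (RS q₁ q₂) e) ∧
      ∀ q bs, n ≤ q.1 → q.1 ≤ 3 * n → ok q bs →
        (φ q bs).length = q.1 ∧ (∀ M ∈ φ q bs, M ∈ MM) ∧
        (∀ z, ¬ LI (evs g q.2 (φ q bs)) z → evs g q.2 (φ q bs) z ∈ E q bs) ∧
        ∀ z, G q bs z →
          (∃ e ∈ E q bs, ∀ y, dist y z ≤ R → dist (evs g q.2 (φ q bs) y) e ≤ R / 4) ∧
          ∀ y y', dist y z ≤ R → dist y' z ≤ R →
            dist (evs g q.2 (φ q bs) y) (evs g q.2 (φ q bs) y') ≤ 1 / 4 * dist y y' := by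
  obtain ⟨MM, B, w, n, R, C, h1, hw, hs, hn, hR, hD⟩ := exists_pt hg hδ 3
  have hD' : ∀ q : ℕ × (ℕ → I), Nonempty (Pt g MM B w R C (max n (min q.1 (3 * n))) q.2) :=
    fun q => hD _ (le_max_left _ _) (max_le (by omega) (min_le_right _ _)) _
  let D : ∀ q : ℕ × (ℕ → I), Pt g MM B w R C (max n (min q.1 (3 * n))) q.2 :=
    fun q => (hD' q).some
  choose RS hRS using fun q q' => chooseR hw hs (D q) (D q')
  choose BS hBS using fun q₀ r₀ q₁ q₂ => chooseB hw hs (D q₀) (D q₁) (D q₂) r₀ (RS q₁ q₂)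
  refine ⟨MM, n, R, fun q => (D q).φ, fun q => (D q).E, fun q bs z => (D q).bd z bs < 1,
    fun q => (D q).ok, RS, BS, h1, hn, hR, fun q q' => (hRS q q').1, ?_, ?_⟩
  · intro q₀ r₀ q₁ q₂ h
    obtain ⟨g1, g2, g3⟩ := hBS q₀ r₀ q₁ q₂ h (hRS q₁ q₂).2
    refine ⟨g1, fun e he => ?_, fun e he => ?_⟩
    · exact (Finset.single_le_sum (f := fun e => (D q₁).bd e (BS q₀ r₀ q₁ q₂))
        (fun e _ => (D q₁).bd0 _ _) he).trans_lt g2
    · exact (Finset.single_le_sum (f := fun e => (D q₂).bd e (RS q₁ q₂))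
        (fun e _ => (D q₂).bd0 _ _) he).trans_lt g3
  · intro q bs hq1 hq2 h
    have hN : max n (min q.1 (3 * n)) = q.1 := by omega
    exact ⟨((D q).len bs h.1 h.2).trans hN, (D q).mem bs h.1 h.2, (D q).crit bs h.1 h.2,
      (D q).good bs h.1 h.2⟩

end Pool.Agent.Y334.FS
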