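import Mathlib
import Pool.Agent.Y334.FS.Glue
import Pool.Agent.Y334.FS.Mark

/-! Fibered maps. -/

set_option autoImplicit false

open Set Filter Topology Metric
open scoped OnePoint
open Pool.Agent.Helper114.Herman
open Pool.Agent.Y334.RM
open Pool.Agent.Y334.NA

namespace Pool.Agent.Y334.FS

attribute [local instance] sphMet

/-- the fibre iterates `h (T^[k-1] x) ∘ ... ∘ h x` -/
def fb {X : Type} (T : X → X) (h : X → Sp → Sp) : ℕ → X → Sp → Sp
  | 0, _, z => z
  | k + 1, x, z => h (T^[k] x) (fb T h k x z)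

theorem fb_zero {X : Type} (T : X → X) (h : X → Sp → Sp) (x : X) (z : Sp) : fb T h 0 x z = z := rfl

theorem fb_succ {X : Type} (T : X → X) (h : X → Sp → Sp) (k : ℕ) (x : X) (z : Sp) :
    fb T h (k + 1) x z = h (T^[k] x) (fb T h k x z) := rfl

theorem fb_add {X : Type} (T : X → X) (h : X → Sp → Sp) (k m : ℕ) (x : X) (z : Sp) :
    fb T h (m + k) x z = fb T h m (T^[k] x) (fb T h k x z) := by
  induction m with
  | zero => rw [Nat.zero_add, fb_zero]
  | succ m ih =>
    have e : m + 1 + k = (m + k) + 1 := by ring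
    rw [e, fb_succ, fb_succ, ih, Function.iterate_add_apply]

/-- the post-critical set -/
def PC {X : Type} (T : X → X) (h : X → Sp → Sp) : Set (X × Sp) :=
  {p | ∃ y c k, 1 ≤ k ∧ ¬ LI (h y) c ∧ p = (T^[k] y, fb T h k y c)}

/-- uniform exponential contraction near the closure of the post-critical set -/
def HypF {X : Type} [TopologicalSpace X] (T : X → X) (h : X → Sp → Sp) (r C lam : ℝ) : Prop :=
  ∀ p ∈ closure (PC T h), ∃ W ∈ 𝓝 p.1, ∀ x ∈ W, ∀ z z' : Sp, dist z p.2 < r → dist z' p.2 < r →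
    ∀ k : ℕ, dist (fb T h k x z) (fb T h k x z') ≤ C * lam ^ k * dist z z'

theorem fb_lip {X : Type} {T : X → X} {h : X → Sp → Sp} {L : ℝ} (hL : 1 ≤ L)
    (hh : ∀ x z z', dist (h x z) (h x z') ≤ L * dist z z') (k : ℕ) (x : X) (z z' : Sp) :
    dist (fb T h k x z) (fb T h k x z') ≤ L ^ k * dist z z' := by
  induction k with
  | zero => simp [fb_zero]
  | succ k ih =>
    rw [fb_succ, fb_succ]
    calc _ ≤ L * dist (fb T h k x z) (fb T h k x z') := hh _ _ _
      _ ≤ L * (L ^ k * dist z z') := by gcongr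
      _ = L ^ (k + 1) * dist z z' := by ring

theorem fb_lip' {X : Type} {T : X → X} {h : X → Sp → Sp} {L : ℝ} (hL : 1 ≤ L)
    (hh : ∀ x z z', dist (h x z) (h x z') ≤ L * dist z z') {k Q : ℕ} (hk : k ≤ Q) (x : X)
    (z z' : Sp) : dist (fb T h k x z) (fb T h k x z') ≤ L ^ Q * dist z z' :=
  (fb_lip hL hh k x z z').trans
    (mul_le_mul_of_nonneg_right (pow_le_pow_right₀ hL hk) dist_nonneg)

theorem fb_surj {X : Type} {T : X → X} {h : X → Sp → Sp} (hh : ∀ x, Function.Surjective (h x))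
    (k : ℕ) (x : X) : Function.Surjective (fb T h k x) := by
  induction k with
  | zero => exact fun z => ⟨z, rfl⟩
  | succ k ih =>
    intro z
    obtain ⟨y, hy⟩ := hh (T^[k] x) z
    obtain ⟨u, hu⟩ := ih y
    exact ⟨u, by rw [fb_succ, hu, hy]⟩

theorem fb_open {X : Type} {T : X → X} {h : X → Sp → Sp} (hh : ∀ x, IsOpenMap (h x))
    (k : ℕ) (x : X) : IsOpenMap (fb T h k x) := by
  induction k with
  | zero => exact IsOpenMap.id
  | succ k ih => exact (hh (T^[k] x)).comp ih

theorem fb_cont {X : Type} {T : X → X} {h : X → Sp → Sp} (hh : ∀ x, Continuous (h x))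
    (k : ℕ) (x : X) : Continuous (fb T h k x) := by
  induction k with
  | zero => exact continuous_id
  | succ k ih => exact (hh (T^[k] x)).comp ih

/-- a critical point in the middle is seen at the start -/
theorem not_li_mid {X : Type} {T : X → X} {h : X → Sp → Sp} (hho : ∀ x, IsOpenMap (h x))
    (hhc : ∀ x, Continuous (h x)) {a k : ℕ} (hak : a < k) {x : X} {z : Sp}
    (hc : ¬ LI (h (T^[a] x)) (fb T h a x z)) : ¬ LI (fb T h k x) z := by
  rintro ⟨U, hU, hUi⟩
  apply hc
  have h1 : ∀ u, fb T h k x u = fb T h (k - (a + 1)) (T^[a + 1] x) (h (T^[a] x) (fb T h a x u)) := by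
    intro u
    have e : k = (k - (a + 1)) + (a + 1) := by omega
    conv_lhs => rw [e]
    rw [fb_add, fb_succ]
  refine ⟨fb T h a x '' U, (fb_open hho a x).image_mem_nhds hU, ?_⟩
  rintro _ ⟨u, hu, rfl⟩ _ ⟨v, hv, rfl⟩ huv
  have h2 : u = v := hUi hu hv (by rw [h1, h1, huv])
  rw [h2]

theorem act_scalar {t : ℂ} (ht : t ≠ 0) (x : Sp) : Mx.act ⟨t, 0, 0, t⟩ x = x := by
  conv_rhs => rw [← Mx.act_one x]
  induction x using OnePoint.rec with
  | infty =>
    rw [Mx.act_infty, Mx.act_infty]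
    have := pr_smul (u := 1) (v := 0) ht
    rwa [mul_one, mul_zero] at this
  | coe z =>
    rw [Mx.act_coe, Mx.act_coe]
    have h1 := pr_smul (u := 1 * z + 0) (v := 0 * z + 1) ht
    have h2 : pr (t * z + 0) (0 * z + t) = pr (t * (1 * z + 0)) (t * (0 * z + 1)) := by
      congr 1 <;> ring
    exact h2.trans h1

theorem act_inv {M : Mx} (hM : M.det ≠ 0) : ∃ N : Mx, N.det ≠ 0 ∧ (∀ x, M.act (N.act x) = x) ∧
    ∀ x, N.act (M.act x) = x := by
  have hN : (⟨M.e, -M.b, -M.c, M.a⟩ : Mx).det ≠ 0 := by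
    have : (⟨M.e, -M.b, -M.c, M.a⟩ : Mx).det = M.det := by simp only [Mx.det]; ring
    rw [this]; exact hM
  refine ⟨⟨M.e, -M.b, -M.c, M.a⟩, hN, fun x => ?_, fun x => ?_⟩
  · rw [← Mx.act_mul M hN]
    have : M.mul ⟨M.e, -M.b, -M.c, M.a⟩ = ⟨M.det, 0, 0, M.det⟩ := by
      simp only [Mx.mul, Mx.det]
      ext <;> ring
    rw [this]
    exact act_scalar hM x
  · rw [← Mx.act_mul _ hM]
    have : Mx.mul ⟨M.e, -M.b, -M.c, M.a⟩ M = ⟨M.det, 0, 0, M.det⟩ := by
      simp only [Mx.mul, Mx.det]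
      ext <;> ring
    rw [this]
    exact act_scalar hM x

theorem act_surj {M : Mx} (hM : M.det ≠ 0) : Function.Surjective M.act := by
  obtain ⟨N, -, h, -⟩ := act_inv hM
  exact fun x => ⟨_, h x⟩

theorem act_open {M : Mx} (hM : M.det ≠ 0) : IsOpenMap M.act := by
  obtain ⟨N, hN, h1, h2⟩ := act_inv hM
  intro U hU
  have : M.act '' U = N.act ⁻¹' U := by
    ext y
    constructor
    · rintro ⟨x, hx, rfl⟩
      show N.act (M.act x) ∈ U
      rwa [h2]
    · intro hy
      exact ⟨_, hy, h1 y⟩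
  rw [this]
  exact hU.preimage (Mx.hol hN).continuous

/-- **Gluing.** -/
theorem glue {I : Type} [Finite I] {g : I → Sp → Sp} (hg : ∀ i, Good (g i))
    (hgo : ∀ i, IsOpenMap (g i)) {δ : ℝ} (hδ : 0 < δ) :
    ∃ (n : ℕ) (r C lam : ℝ), 1 ≤ n ∧ 0 < r ∧ 0 ≤ C ∧ 0 < lam ∧ lam < 1 ∧
      ∀ (X : Type) [TopologicalSpace X] (T : X ≃ₜ X) (M Rd : Set X), Mk T n M Rd →
      ∀ ι : X → I, LC ι → ∃ E : X → Mx, LC E ∧ (∀ x, (E x).near δ ∧ (E x).det ≠ 0) ∧
        HypF (⇑T) (fun x z => (E x).act (g (ι x) z)) r C lam := by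
  classical
  by_cases hI : Nonempty I
  swap
  · refine ⟨1, 1, 1, 1 / 2, le_rfl, by norm_num, by norm_num, by norm_num, by norm_num, ?_⟩
    intro X _ T M Rd _ ι _
    have hX : IsEmpty X := ⟨fun x => hI ⟨ι x⟩⟩
    exact ⟨fun _ => Mx.one, fun x => hX.elim x, fun x => hX.elim x, fun p => hX.elim p.1⟩
  obtain ⟨i₀⟩ := hI
  obtain ⟨MM, n, R, φ, Ed, G, ok, RS, BS, hMM, hn, hR, hRS, hBS, hmain⟩ := exists_sys hg hδ
  -- Lipschitz constant of all maps
  obtain ⟨L, hL1, hL⟩ : ∃ L : ℝ, 1 ≤ L ∧ ∀ M ∈ MM, ∀ i x y,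
      dist (M.act (g i x)) (M.act (g i y)) ≤ L * dist x y := by
    obtain ⟨L, h1, h2⟩ := lip_family (I := {M : Mx // M ∈ MM} × I)
      (g := fun p x => p.1.1.act (g p.2 x)) fun p =>
        (Mx.hol (hMM p.1.1 p.1.2).2).comp (hg p.2).hol
    exact ⟨L, h1, fun M hM i x y => h2 (⟨M, hM⟩, i) x y⟩
  set lam : ℝ := 1 - 1 / (4 * n) with hlam
  have hn' : (1 : ℝ) ≤ n := by exact_mod_cast hn
  have hn4 : 1 / (4 * (n : ℝ)) ≤ 1 / 4 := by
    apply one_div_le_one_div_of_le <;> linarith
  have hn5 : 0 < 1 / (4 * (n : ℝ)) := by positivity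
  have hlam0 : 0 < lam := by rw [hlam]; linarith
  have hlam1 : lam < 1 := by rw [hlam]; linarith
  have hlam3 : 1 / 4 ≤ lam ^ (3 * n) := by
    have h1 := one_add_mul_le_pow (a := -(1 / (4 * (n : ℝ)))) (by linarith) (3 * n)
    have h2 : 1 + ((3 * n : ℕ) : ℝ) * -(1 / (4 * (n : ℝ))) = 1 / 4 := by
      push_cast
      field_simp
      ring
    rw [h2] at h1
    have h3 : 1 + -(1 / (4 * (n : ℝ))) = lam := by rw [hlam]; ring
    rwa [h3] at h1
  set C₁ : ℝ := L ^ (3 * n) * 4 with hC₁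
  have hC₁0 : 0 < C₁ := by positivity
  set C : ℝ := C₁ * L ^ (4 * n) / lam ^ (4 * n) with hC
  have hC0 : 0 < C := by positivity
  set r : ℝ := R / (4 * L ^ (4 * n)) with hr
  have hr0 : 0 < r := by positivity
  refine ⟨n, r, C, lam, hn, hr0, hC0.le, hlam0, hlam1, ?_⟩
  intro X _ T M Rd hMk ι hι
  -- words
  let sq : X → ℕ → I := fun x i => if i < 3 * n then ι ((⇑T)^[i] x) else i₀
  have hsq : LC sq := by
    intro x
    have h1 : ∀ᶠ y in 𝓝 x, ∀ i ∈ Finset.range (3 * n), ι ((⇑T)^[i] y) = ι ((⇑T)^[i] x) :=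
      (Filter.eventually_all_finset _).2 fun i _ => hι.comp (T.continuous.iterate i) x
    filter_upwards [h1] with y hy
    funext i
    by_cases hi : i < 3 * n
    · simp only [sq, if_pos hi]
      exact hy i (Finset.mem_range.2 hi)
    · simp only [sq, if_neg hi]
  let W : X → ℕ × (ℕ → I) := fun x => (hMk.nx x, sq x)
  have hW : LC W := by
    intro x
    filter_upwards [hMk.nx_lc x, hsq x] with y h1 h2
    simp only [W, h1, h2]
  let red : X → List (List Mx) := fun x => RS (W (hMk.pv x)) (W x)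
  have hred : LC red := by
    intro x
    filter_upwards [hW x, hW.comp hMk.pv_cont x] with y h1 h2
    simp only [red, h1, h2]
  let blue : X → List (List Mx) := fun x =>
    BS (W (hMk.pv x)) (red (hMk.pv x)) (W x) (W (hMk.next x))
  have hblue : LC blue := by
    intro x
    filter_upwards [hW x, hW.comp hMk.pv_cont x, hred.comp hMk.pv_cont x,
      hW.comp hMk.next_cont x] with y h1 h2 h3 h4
    simp only [blue, h1, h2, h3, h4]
  let ls : X → List (List Mx) := fun x => if x ∈ Rd then red x else blue x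
  have hls : LC ls := by
    intro x
    filter_upwards [hred x, hblue x, ev_clopen hMk.cR continuous_id x] with y h1 h2 h3
    simp only [id] at h3
    simp only [ls, h1, h2, h3]
  let kw : X → List Mx := fun x => φ (W x) (ls x)
  have hkw : LC kw := by
    intro x
    filter_upwards [hW x, hls x] with y h1 h2
    simp only [kw, h1, h2]
  let E : X → Mx := fun y => (kw (hMk.bs y)).getD (hMk.bk y) Mx.one
  have hE : LC E := by
    intro x
    filter_upwards [hkw.comp hMk.bs_cont x, hMk.bk_lc x] with y h1 h2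
    simp only [E, h1, h2]
  -- properties at the markers
  have hok : ∀ x ∈ M, ok (W x) (ls x) := by
    intro x hx
    by_cases hxR : x ∈ Rd
    · simp only [ls, if_pos hxR]
      exact hRS _ _
    · simp only [ls, if_neg hxR]
      exact (hBS _ _ _ _ (hRS _ _)).1
  have hgoodx : ∀ x ∈ M, ∀ e ∈ Ed (W x) (ls x), G (W (hMk.next x)) (ls (hMk.next x)) e := by
    intro x hx
    have h1 := (hMk.nx_gap hn hx).2.2
    by_cases hxR : x ∈ Rd
    · have h2 : hMk.next x ∉ Rd := fun h => (h1.1 h) hxR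
      simp only [ls, if_pos hxR, if_neg h2]
      have h3 := (hBS (W x) (red x) (W (hMk.next x)) (W (hMk.next (hMk.next x))) (hRS _ _)).2.1
      simp only [blue, hMk.pv_next hx]
      exact h3
    · have h2 : hMk.next x ∈ Rd := h1.2 hxR
      simp only [ls, if_neg hxR, if_pos h2]
      have h3 := (hBS (W (hMk.pv x)) (red (hMk.pv x)) (W x) (W (hMk.next x)) (hRS _ _)).2.2
      simp only [red, hMk.pv_next hx]
      exact h3
  have hval : ∀ x ∈ M, n ≤ (W x).1 ∧ (W x).1 ≤ 3 * n := fun x hx =>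
    ⟨(hMk.nx_gap hn hx).1, (hMk.nx_gap hn hx).2.1⟩
  have hlen : ∀ x ∈ M, (kw x).length = hMk.nx x := fun x hx =>
    (hmain (W x) (ls x) (hval x hx).1 (hval x hx).2 (hok x hx)).1
  have hmemx : ∀ x ∈ M, ∀ N ∈ kw x, N ∈ MM := fun x hx =>
    (hmain (W x) (ls x) (hval x hx).1 (hval x hx).2 (hok x hx)).2.1
  have hEmem : ∀ y, E y ∈ MM := by
    intro y
    obtain ⟨x, hx, j, hj, rfl⟩ := hMk.decomp y
    simp only [E, hMk.bs_gap hx hj, hMk.bk_gap hx hj]
    have hj' : j < (kw x).length := by rw [hlen x hx]; exact hj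
    rw [List.getD_eq_getElem _ _ hj']
    exact hmemx x hx _ (List.getElem_mem hj')
  refine ⟨E, hE, fun x => hMM _ (hEmem x), ?_⟩
  set h : X → Sp → Sp := fun x z => (E x).act (g (ι x) z) with hh
  have hhlip : ∀ x z z', dist (h x z) (h x z') ≤ L * dist z z' := fun x z z' =>
    hL _ (hEmem x) _ _ _
  have hhol : ∀ x, HolMap (h x) := fun x => (Mx.hol (hMM _ (hEmem x)).2).comp (hg (ι x)).hol
  have hhc : ∀ x, Continuous (h x) := fun x => (hhol x).continuous
  have hhs : ∀ x, Function.Surjective (h x) := fun x =>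
    (act_surj (hMM _ (hEmem x)).2).comp (hg (ι x)).surj
  have hho : ∀ x, IsOpenMap (h x) := fun x => (act_open (hMM _ (hEmem x)).2).comp (hgo (ι x))
  -- the fibre iterates along a gap
  have hgap : ∀ x ∈ M, ∀ j ≤ hMk.nx x, ∀ z, fb (⇑T) h j x z = evs g (sq x) ((kw x).take j) z := by
    intro x hx j
    induction j with
    | zero => intro _ z; rfl
    | succ j ih =>
      intro hj z
      have hj' : j < (kw x).length := by rw [hlen x hx]; omega
      have hj3 : j < 3 * n := by have := (hval x hx).2; simp only [W] at this; omega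
      have h1 : E ((⇑T)^[j] x) = (kw x)[j] := by
        simp only [E, hMk.bs_gap hx (show j < hMk.nx x by omega),
          hMk.bk_gap hx (show j < hMk.nx x by omega)]
        exact List.getD_eq_getElem _ _ hj'
      have h2 : sq x j = ι ((⇑T)^[j] x) := by simp only [sq, if_pos hj3]
      rw [fb_succ, ih (by omega), List.take_succ_eq_append_getElem hj', evs_snoc, List.length_take,
        min_eq_left hj'.le, h2, hh]
      simp only [h1]
  have hgapf : ∀ x ∈ M, ∀ z, fb (⇑T) h (hMk.nx x) x z = evs g (W x).2 (φ (W x) (ls x)) z := by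
    intro x hx z
    rw [hgap x hx _ le_rfl, List.take_of_length_le (hlen x hx).le]
  -- the ends
  let Lam : X → Finset Sp := fun y => Ed (W (hMk.pv y)) (ls (hMk.pv y))
  have hLam : LC Lam := by
    intro x
    filter_upwards [hW.comp hMk.pv_cont x, hls.comp hMk.pv_cont x] with y h1 h2
    simp only [Lam, h1, h2]
  have hLn : ∀ x ∈ M, Lam (hMk.next x) = Ed (W x) (ls x) := by
    intro x hx
    simp only [Lam, hMk.pv_next hx]
  have hstep : ∀ y ∈ M, ∀ e ∈ Lam y,
      (∃ e' ∈ Lam (hMk.next y), ∀ z, dist z e ≤ R → dist (fb (⇑T) h (hMk.nx y) y z) e' ≤ R / 4) ∧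
      ∀ z z', dist z e ≤ R → dist z' e ≤ R →
        dist (fb (⇑T) h (hMk.nx y) y z) (fb (⇑T) h (hMk.nx y) y z') ≤ 1 / 4 * dist z z' := by
    intro y hy e he
    have h1 := hgoodx _ (hMk.pv_mem y) e he
    rw [hMk.next_pv hy] at h1
    have h2 := (hmain (W y) (ls y) (hval y hy).1 (hval y hy).2 (hok y hy)).2.2.2 e h1
    rw [hLn y hy]
    simp only [hgapf y hy]
    exact h2
  -- contraction from the markers
  have hcon : ∀ k, ∀ y ∈ M, ∀ e ∈ Lam y, ∀ z z', dist z e ≤ R → dist z' e ≤ R →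
      dist (fb (⇑T) h k y z) (fb (⇑T) h k y z') ≤ C₁ * lam ^ k * dist z z' := by
    intro k
    induction k using Nat.strong_induction_on with
    | _ k ih =>
      intro y hy e he z z' hz hz'
      have hN := (hval y hy).2
      by_cases hk : k ≤ hMk.nx y
      · refine (fb_lip' hL1 hhlip (hk.trans hN) y z z').trans ?_
        apply mul_le_mul_of_nonneg_right _ dist_nonneg
        have h1 : lam ^ (3 * n) ≤ lam ^ k := pow_le_pow_of_le_one hlam0.le hlam1.le (hk.trans hN)
        have h2 : 0 < L ^ (3 * n) := by positivity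
        rw [hC₁]
        nlinarith
      · push Not at hk
        obtain ⟨⟨e', he', h1⟩, h2⟩ := hstep y hy e he
        have e1 : k = (k - hMk.nx y) + hMk.nx y := by omega
        have h3 := ih (k - hMk.nx y) (by have := hMk.nx_pos y; omega) _ (hMk.next_mem y) e' he'
          _ _ ((h1 z hz).trans (by linarith)) ((h1 z' hz').trans (by linarith))
        have h4 := h2 z z' hz hz'
        have h5 : dist (fb (⇑T) h k y z) (fb (⇑T) h k y z') =
            dist (fb (⇑T) h (k - hMk.nx y) (hMk.next y) (fb (⇑T) h (hMk.nx y) y z))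
              (fb (⇑T) h (k - hMk.nx y) (hMk.next y) (fb (⇑T) h (hMk.nx y) y z')) := by
          conv_lhs => rw [e1, fb_add, fb_add]
          rfl
        rw [h5]
        refine h3.trans ?_
        have h6 : lam ^ k = lam ^ (k - hMk.nx y) * lam ^ (hMk.nx y) := by
          rw [← pow_add]; congr 1
        have h7 : 1 / 4 ≤ lam ^ (hMk.nx y) :=
          hlam3.trans (pow_le_pow_of_le_one hlam0.le hlam1.le hN)
        have h8 : 0 < lam ^ (k - hMk.nx y) := by positivity
        calc C₁ * lam ^ (k - hMk.nx y) *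
              dist (fb (⇑T) h (hMk.nx y) y z) (fb (⇑T) h (hMk.nx y) y z')
            ≤ C₁ * lam ^ (k - hMk.nx y) * (1 / 4 * dist z z') := by gcongr
          _ ≤ C₁ * lam ^ (k - hMk.nx y) * (lam ^ (hMk.nx y) * dist z z') := by gcongr
          _ = C₁ * lam ^ k * dist z z' := by rw [h6]; ring
  -- the critical orbits at the markers
  have hinj : ∀ k, Function.Injective (⇑T)^[k] := fun k => T.injective.iterate k
  have hpc : ∀ j, 1 ≤ j → ∀ y c, ¬ LI (h y) c → (⇑T)^[j] y ∈ M →
      ∃ e ∈ Lam ((⇑T)^[j] y), dist (fb (⇑T) h j y c) e ≤ R / 4 := by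
    intro j
    induction j using Nat.strong_induction_on with
    | _ j ih =>
      intro hj y c hc hyM
      have hp := hMk.pv_mem ((⇑T)^[j] y)
      have hnp := hMk.next_pv hyM
      set p := hMk.pv ((⇑T)^[j] y) with hpdef
      set k := hMk.nx p with hk
      have hnp' : (⇑T)^[k] p = (⇑T)^[j] y := hnp
      have hk1 : 1 ≤ k := hMk.nx_pos p
      by_cases hjk : j ≤ k
      · have hy : y = (⇑T)^[k - j] p := by
          apply hinj j
          rw [← Function.iterate_add_apply, ← hnp']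
          congr 1
          congr 1
          omega
        obtain ⟨z₀, hz₀⟩ := fb_surj hhs (T := ⇑T) (k - j) p c
        have h1 : ¬ LI (fb (⇑T) h k p) z₀ := by
          apply not_li_mid hho hhc (a := k - j) (by omega)
          rw [hz₀, ← hy]
          exact hc
        have h2 : fb (⇑T) h k p = evs g (W p).2 (φ (W p) (ls p)) := funext (hgapf p hp)
        rw [h2] at h1
        have h3 := (hmain (W p) (ls p) (hval p hp).1 (hval p hp).2 (hok p hp)).2.2.1 z₀ h1
        rw [← h2] at h3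
        have h4 : fb (⇑T) h k p z₀ = fb (⇑T) h j y c := by
          have e : k = j + (k - j) := by omega
          conv_lhs => rw [e]
          rw [fb_add, hz₀, ← hy]
        rw [h4] at h3
        refine ⟨_, h3, ?_⟩
        rw [dist_self]
        positivity
      · push Not at hjk
        have hy : p = (⇑T)^[j - k] y := by
          apply hinj k
          rw [hnp', ← Function.iterate_add_apply]
          congr 1
          congr 1
          omega
        obtain ⟨e, he, h1⟩ := ih (j - k) (by omega) (by omega) y c hc (by rw [← hy]; exact hp)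
        rw [← hy] at he
        obtain ⟨⟨e', he', h2⟩, -⟩ := hstep p hp e he
        refine ⟨e', ?_, ?_⟩
        · rw [← hnp']
          exact he'
        · have e1 : j = k + (j - k) := by omega
          have h3 : fb (⇑T) h j y c = fb (⇑T) h k p (fb (⇑T) h (j - k) y c) := by
            conv_lhs => rw [e1]
            rw [fb_add, ← hy]
          rw [h3]
          exact h2 _ (h1.trans (by linarith))
  -- local constancy of the fibre maps
  have hhLC : LC h := by
    intro x
    filter_upwards [hE x, hι x] with y h1 h2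
    funext z
    simp only [hh, h1, h2]
  have hfbLC : ∀ k, LC (fun x => fb (⇑T) h k x) := by
    intro k
    induction k with
    | zero => exact fun x => Eventually.of_forall fun y => rfl
    | succ k ih =>
      intro x
      filter_upwards [ih x, hhLC.comp (T.continuous.iterate k) x] with y h1 h2
      funext z
      rw [fb_succ, fb_succ, h2, h1]
  -- the conclusion
  intro p hp
  set t := hMk.tt p.1 with ht
  have ht4 : t ≤ 4 * n := hMk.tt_le p.1
  set W₀ : Set X := {x | hMk.tt x = t ∧ Lam ((⇑T)^[t] x) = Lam ((⇑T)^[t] p.1) ∧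
    fb (⇑T) h t x = fb (⇑T) h t p.1} with hW₀
  have hW₀n : W₀ ∈ 𝓝 p.1 := by
    filter_upwards [hMk.tt_lc p.1, hLam.comp (T.continuous.iterate t) p.1, hfbLC t p.1]
      with y h1 h2 h3
    exact ⟨h1, h2, h3⟩
  have hr4 : L ^ (4 * n) * r = R / 4 := by
    rw [hr]; field_simp
  obtain ⟨q, hqW, hqPC⟩ := mem_closure_iff_nhds.1 hp (W₀ ×ˢ ball p.2 r)
    (prod_mem_nhds hW₀n (ball_mem_nhds p.2 hr0))
  obtain ⟨y, c, k, hk1, hc, hq⟩ := hqPC
  obtain ⟨⟨hq1, hq2, hq3⟩, hqb⟩ := hqW
  have hqM : (⇑T)^[t] q.1 ∈ M := by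
    have := hMk.tt_mem q.1
    rwa [hq1] at this
  have hqT : (⇑T)^[t] q.1 = (⇑T)^[t + k] y := by
    rw [hq, Function.iterate_add_apply]
  obtain ⟨e, he, h1⟩ := hpc (t + k) (by omega) y c hc (by rw [← hqT]; exact hqM)
  have h2 : fb (⇑T) h (t + k) y c = fb (⇑T) h t p.1 q.2 := by
    rw [fb_add, ← hq3, hq]
  rw [h2] at h1
  rw [← hqT, hq2] at he
  have h3 : dist (fb (⇑T) h t p.1 p.2) e ≤ R / 2 := by
    have h4 := fb_lip' hL1 hhlip ht4 (T := ⇑T) p.1 p.2 q.2
    have h5 : dist p.2 q.2 ≤ r := by rw [dist_comm]; exact (mem_ball.1 hqb).le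
    have h6 : L ^ (4 * n) * dist p.2 q.2 ≤ R / 4 := by
      rw [← hr4]; gcongr
    linarith [dist_triangle (fb (⇑T) h t p.1 p.2) (fb (⇑T) h t p.1 q.2) e]
  refine ⟨W₀, hW₀n, ?_⟩
  rintro x ⟨hx1, hx2, hx3⟩ z z' hz hz' m
  have hxM : (⇑T)^[t] x ∈ M := by
    have := hMk.tt_mem x
    rwa [hx1] at this
  have hzz : ∀ u : Sp, dist u p.2 < r → dist (fb (⇑T) h t x u) e ≤ R := by
    intro u hu
    rw [hx3]
    have h4 := fb_lip' hL1 hhlip ht4 (T := ⇑T) p.1 u p.2
    have h6 : L ^ (4 * n) * dist u p.2 ≤ R / 4 := by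
      rw [← hr4]; gcongr
    linarith [dist_triangle (fb (⇑T) h t p.1 u) (fb (⇑T) h t p.1 p.2) e]
  have hC₁1 : 1 ≤ C₁ := by
    have : 1 ≤ L ^ (3 * n) := one_le_pow₀ hL1
    rw [hC₁]; linarith
  have hLp : 0 < L ^ (4 * n) := by positivity
  have hlp : 0 < lam ^ (4 * n) := by positivity
  by_cases hmt : m ≤ t
  · refine (fb_lip' hL1 hhlip (hmt.trans ht4) x z z').trans ?_
    apply mul_le_mul_of_nonneg_right _ dist_nonneg
    have h4 : lam ^ (4 * n) ≤ lam ^ m := pow_le_pow_of_le_one hlam0.le hlam1.le (hmt.trans ht4)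
    rw [hC, div_mul_eq_mul_div, le_div_iff₀ hlp]
    calc L ^ (4 * n) * lam ^ (4 * n) ≤ L ^ (4 * n) * lam ^ m := by gcongr
      _ ≤ C₁ * (L ^ (4 * n) * lam ^ m) := le_mul_of_one_le_left (by positivity) hC₁1
      _ = C₁ * L ^ (4 * n) * lam ^ m := by ring
  · push Not at hmt
    have e1 : m = (m - t) + t := by omega
    have h4 := hcon (m - t) _ hxM e (by rw [hx2]; exact he) _ _ (hzz z hz) (hzz z' hz')
    have h5 : dist (fb (⇑T) h m x z) (fb (⇑T) h m x z') =
        dist (fb (⇑T) h (m - t) ((⇑T)^[t] x) (fb (⇑T) h t x z))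
          (fb (⇑T) h (m - t) ((⇑T)^[t] x) (fb (⇑T) h t x z')) := by
      conv_lhs => rw [e1, fb_add, fb_add]
    rw [h5]
    refine h4.trans ?_
    have h6 := fb_lip' hL1 hhlip ht4 (T := ⇑T) x z z'
    have h7 : lam ^ (m - t) ≤ lam ^ m / lam ^ (4 * n) := by
      rw [le_div_iff₀ hlp, ← pow_add]
      exact pow_le_pow_of_le_one hlam0.le hlam1.le (by omega)
    calc C₁ * lam ^ (m - t) * dist (fb (⇑T) h t x z) (fb (⇑T) h t x z')
        ≤ C₁ * (lam ^ m / lam ^ (4 * n)) * (L ^ (4 * n) * dist z z') := by gcongr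
      _ = C * lam ^ m * dist z z' := by rw [hC]; ring

end Pool.Agent.Y334.FS
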