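import Mathlib
import Pool.Agent.Y334.FS.Fibre

/-! From uniform contraction along the post-critical set to attracting cycles. -/

set_option autoImplicit false

open Set Filter Topology Metric
open scoped OnePoint
open Pool.Agent.Helper114.Herman
open Pool.Agent.Y334.RM

namespace Pool.Agent.Y334.FS

attribute [local instance] sphMet

theorem att_of_contr {F : Sp → Sp} (hF : Continuous F) {v : Sp} {r C lam : ℝ} (hr : 0 < r)
    (hC : 0 ≤ C) (hl0 : 0 < lam) (hl1 : lam < 1)
    (h : ∀ i k : ℕ, ∀ z z' : Sp, dist z (F^[i] v) < r → dist z' (F^[i] v) < r →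
      dist (F^[k] z) (F^[k] z') ≤ C * lam ^ k * dist z z') : AttT F v := by
  obtain ⟨q₀, hq₀⟩ := exists_pow_lt_of_lt_one (show (0 : ℝ) < 1 / (4 * (C + 1)) by positivity) hl1
  set q : ℕ := q₀ + 1 with hq
  have hCq : C * lam ^ q ≤ 1 / 4 := by
    have h1 : lam ^ q ≤ 1 / (4 * (C + 1)) :=
      (pow_le_pow_of_le_one hl0.le hl1.le (Nat.le_succ q₀)).trans hq₀.le
    calc C * lam ^ q ≤ C * (1 / (4 * (C + 1))) := by gcongr
      _ = C / (4 * (C + 1)) := by ring
      _ ≤ 1 / 4 := by
        rw [div_le_div_iff₀ (by positivity) (by norm_num)]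
        linarith
  set G : Sp → Sp := F^[q] with hG
  have hGm : ∀ m : ℕ, G^[m] = F^[q * m] := fun m => (Function.iterate_mul F q m).symm
  have hGi : ∀ (m i : ℕ), G^[m] (F^[i] v) = F^[q * m + i] v := by
    intro m i
    rw [hGm, Function.iterate_add_apply]
  have hb : ∀ (m i : ℕ) (z z' : Sp), dist z (F^[i] v) ≤ r / 2 → dist z' (F^[i] v) ≤ r / 2 →
      dist (G^[m] z) (G^[m] z') ≤ (1 / 4) ^ m * dist z z' ∧
        dist (G^[m] z) (G^[m] (F^[i] v)) ≤ r / 2 ∧ dist (G^[m] z') (G^[m] (F^[i] v)) ≤ r / 2 := by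
    intro m i z z' hz hz'
    induction m with
    | zero =>
      refine ⟨?_, hz, hz'⟩
      rw [pow_zero, one_mul]
      exact le_rfl
    | succ m ih =>
      obtain ⟨i1, i2, i3⟩ := ih
      have hstep : ∀ u u' : Sp, dist u (G^[m] (F^[i] v)) < r → dist u' (G^[m] (F^[i] v)) < r →
          dist (G u) (G u') ≤ 1 / 4 * dist u u' := by
        intro u u' hu hu'
        rw [hGi] at hu hu'
        refine (h _ q u u' hu hu').trans ?_
        exact mul_le_mul_of_nonneg_right hCq dist_nonneg
      rw [Function.iterate_succ_apply', Function.iterate_succ_apply', Function.iterate_succ_apply']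
      refine ⟨?_, ?_, ?_⟩
      · refine (hstep _ _ (i2.trans_lt (by linarith)) (i3.trans_lt (by linarith))).trans ?_
        rw [pow_succ]
        linarith
      · refine (hstep _ _ (i2.trans_lt (by linarith)) (by rw [dist_self]; exact hr)).trans ?_
        linarith
      · refine (hstep _ _ (i3.trans_lt (by linarith)) (by rw [dist_self]; exact hr)).trans ?_
        linarith
  -- two close times
  obtain ⟨a, φ, hφ, ha⟩ := CompactSpace.tendsto_subseq fun k : ℕ => G^[k] v
  obtain ⟨N, hN⟩ := Metric.cauchySeq_iff'.1 ha.cauchySeq (r / 8) (by positivity)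
  have h1 : dist (G^[φ (N + 1)] v) (G^[φ N] v) < r / 8 := hN (N + 1) (Nat.le_succ N)
  set i := φ N with hi
  have hij : i < φ (N + 1) := hφ (Nat.lt_succ_self N)
  obtain ⟨m, hm⟩ : ∃ m, φ (N + 1) = m + i ∧ 1 ≤ m := ⟨φ (N + 1) - i, by omega, by omega⟩
  rw [hm.1, Function.iterate_add_apply] at h1
  set u := G^[i] v with hu
  have hui : u = F^[q * i] v := by rw [hu, hGm]
  set H : Sp → Sp := G^[m] with hH
  have hHc : ∀ z z' : Sp, dist z u ≤ r / 2 → dist z' u ≤ r / 2 →
      dist (H z) (H z') ≤ 1 / 4 * dist z z' := by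
    intro z z' hz hz'
    rw [hui] at hz hz'
    refine (hb m (q * i) z z' hz hz').1.trans ?_
    apply mul_le_mul_of_nonneg_right _ dist_nonneg
    calc ((1 : ℝ) / 4) ^ m ≤ (1 / 4) ^ 1 := pow_le_pow_of_le_one (by norm_num) (by norm_num) hm.2
      _ = 1 / 4 := pow_one _
  have hHm : ∀ z : Sp, dist z u ≤ r / 2 → dist (H z) u ≤ 3 * r / 8 := by
    intro z hz
    have h2 := hHc z u hz (by rw [dist_self]; positivity)
    linarith [dist_triangle (H z) (H u) u]
  have hmaps : MapsTo H (closedBall u (r / 2)) (closedBall u (r / 2)) := fun z hz =>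
    mem_closedBall.2 ((hHm z (mem_closedBall.1 hz)).trans (by linarith))
  have hcon : ContractingWith (1 / 4) (hmaps.restrict H _ _) := by
    constructor
    · rw [← NNReal.coe_lt_coe]; norm_num
    · apply LipschitzWith.of_dist_le_mul
      rintro ⟨z, hz⟩ ⟨z', hz'⟩
      have := hHc z z' (mem_closedBall.1 hz) (mem_closedBall.1 hz')
      simpa [Subtype.dist_eq] using this
  obtain ⟨p, hps, hpf, -⟩ := hcon.exists_fixedPoint' (isClosed_closedBall.isComplete) hmaps
    (mem_closedBall_self (by positivity) : u ∈ closedBall u (r / 2)) (edist_ne_top _ _)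
  have hHp : H p = p := hpf
  have hpu : dist p u ≤ 3 * r / 8 := by
    have := hHm p (mem_closedBall.1 hps)
    rwa [hHp] at this
  have hconv : ∀ z : Sp, dist z u ≤ r / 2 → Tendsto (fun k : ℕ => H^[k] z) atTop (𝓝 p) := by
    intro z hz
    have h2 : ∀ k : ℕ, dist (H^[k] z) u ≤ r / 2 ∧ dist (H^[k] z) p ≤ (1 / 4) ^ k * dist z p := by
      intro k
      induction k with
      | zero => exact ⟨hz, by rw [pow_zero, one_mul]; exact le_rfl⟩
      | succ k ih =>
        rw [Function.iterate_succ_apply']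
        refine ⟨(hHm _ ih.1).trans (by linarith), ?_⟩
        have h3 := hHc _ p ih.1 (by linarith)
        rw [hHp] at h3
        rw [pow_succ]
        linarith [ih.2]
    rw [tendsto_iff_dist_tendsto_zero]
    refine squeeze_zero (fun _ => dist_nonneg) (fun k => (h2 k).2) ?_
    have h3 : Tendsto (fun k : ℕ => ((1 : ℝ) / 4) ^ k) atTop (𝓝 0) :=
      tendsto_pow_atTop_nhds_zero_of_lt_one (by norm_num) (by norm_num)
    simpa using h3.mul_const (dist z p)
  have hHF : ∀ k : ℕ, H^[k] = F^[q * m * k] := by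
    intro k
    rw [hH, hGm, ← Function.iterate_mul]
  apply AttT.back_iter hF (q * i)
  rw [← hui]
  refine ⟨p, q * m, Nat.mul_pos (by omega) (by omega), ?_, ⟨ball u (r / 2), ?_, ?_⟩, ?_⟩
  · have := hHF 1
    rw [Function.iterate_one, mul_one] at this
    rw [← this]
    exact hHp
  · apply isOpen_ball.mem_nhds
    rw [mem_ball]
    linarith
  · intro w hw
    have := hconv w (mem_ball.1 hw).le
    simpa only [hHF] using this
  · have := hconv u (by rw [dist_self]; positivity)
    simpa only [hHF] using this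

/-- **Cyclic bases.** -/
theorem hypT_of_cyc {X : Type} [TopologicalSpace X] {T : X → X} {h : X → Sp → Sp} {r C lam : ℝ}
    (hr : 0 < r) (hC : 0 ≤ C) (hl0 : 0 < lam) (hl1 : lam < 1) (hyp : HypF T h r C lam)
    (hhc : ∀ x, Continuous (h x)) {N : ℕ} (hN : 1 ≤ N) {x₀ : X} (hx₀ : T^[N] x₀ = x₀) :
    Sys.HypT (fb T h N x₀) := by
  set F := fb T h N x₀ with hF
  have hTk : ∀ k : ℕ, T^[k * N] x₀ = x₀ := by
    intro k
    induction k with
    | zero => rw [Nat.zero_mul]; rfl
    | succ k ih => rw [Nat.succ_mul, Function.iterate_add_apply, hx₀, ih]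
  have hFk : ∀ k : ℕ, fb T h (k * N) x₀ = F^[k] := by
    intro k
    induction k with
    | zero => rw [Nat.zero_mul]; rfl
    | succ k ih =>
      funext z
      rw [Nat.succ_mul, fb_add, hx₀, ih, Function.iterate_succ_apply]
  intro c hc
  -- a critical point of one of the factors
  have hex : ∃ j < N, ¬ LI (h (T^[j] x₀)) (fb T h j x₀ c) := by
    by_contra hcon
    push Not at hcon
    have key : ∀ j ≤ N, LI (fb T h j x₀) c := by
      intro j
      induction j with
      | zero => intro _; exact ⟨univ, univ_mem, fun x _ y _ h => h⟩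
      | succ j ih =>
        intro hj
        exact LI.comp (f := h (T^[j] x₀)) (g := fb T h j x₀) (ih (by omega))
          (hcon j (by omega)) (fb_cont hhc j x₀)
    exact hc (key N le_rfl)
  obtain ⟨j, hj, hcj⟩ := hex
  have hPC : ∀ i : ℕ, (x₀, F^[i + 1] c) ∈ PC T h := by
    intro i
    refine ⟨T^[j] x₀, fb T h j x₀ c, (i + 1) * N - j, ?_, hcj, ?_⟩
    · have : N ≤ (i + 1) * N := Nat.le_mul_of_pos_left _ (by omega)
      omega
    · have e : (i + 1) * N - j + j = (i + 1) * N := by
        have : N ≤ (i + 1) * N := Nat.le_mul_of_pos_left _ (by omega)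
        omega
      rw [← Function.iterate_add_apply, ← fb_add, e, hTk, hFk]
  apply AttT.back_iter (fb_cont hhc N x₀) 1
  refine att_of_contr (fb_cont hhc N x₀) hr hC hl0 hl1 fun i k z z' hz hz' => ?_
  rw [← Function.iterate_add_apply] at hz hz'
  obtain ⟨W, hW, hW2⟩ := hyp _ (subset_closure (hPC i))
  have h1 := hW2 x₀ (mem_of_mem_nhds hW) z z' hz hz' (k * N)
  rw [hFk] at h1
  refine h1.trans ?_
  apply mul_le_mul_of_nonneg_right _ dist_nonneg
  apply mul_le_mul_of_nonneg_left _ hC
  exact pow_le_pow_of_le_one hl0.le hl1.le (Nat.le_mul_of_pos_right _ (by omega))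

end Pool.Agent.Y334.FS
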