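import Mathlib
import Pool.Agent.Y334.FS.Cyc
import Pool.Agent.Y334.FS.Sel
import Pool.Agent.Y334.RM.Fin

/-! Fibered rational maps. -/

set_option autoImplicit false

open Set Filter Topology Metric Polynomial
open scoped OnePoint
open Pool.Agent.Helper114.Herman
open Pool.Agent.Y334.RM

namespace Pool.Agent.Y334.FS

attribute [local instance] sphMet

theorem coeff_zero_of_deg {P Q : ℂ[X]} {e k : ℕ} (h : max P.natDegree Q.natDegree ≤ e) (hk : e < k) :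
    P.coeff k = 0 ∧ Q.coeff k = 0 :=
  ⟨coeff_eq_zero_of_natDegree_lt (((le_max_left _ _).trans h).trans_lt hk),
    coeff_eq_zero_of_natDegree_lt (((le_max_right _ _).trans h).trans_lt hk)⟩

/-- finitely many pairs approximate all bounded pairs of degree `e` -/
theorem net_deg (e : ℕ) {ε : ℝ} (hε : 0 < ε) (A : ℝ) :
    ∃ S : Finset (ℂ[X] × ℂ[X]), (∀ p ∈ S, IsCoprime p.1 p.2 ∧
      max p.1.natDegree p.2.natDegree = e) ∧
      ∀ P Q : ℂ[X], IsCoprime P Q → max P.natDegree Q.natDegree = e →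
        (∀ k, ‖P.coeff k‖ ≤ A ∧ ‖Q.coeff k‖ ≤ A) →
        ∃ p ∈ S, ∀ k, ‖P.coeff k - p.1.coeff k‖ < ε ∧ ‖Q.coeff k - p.2.coeff k‖ < ε := by
  classical
  let V := (Fin (e + 1) → ℂ) × (Fin (e + 1) → ℂ)
  let vec : ℂ[X] × ℂ[X] → V := fun p => (fun i => p.1.coeff i, fun i => p.2.coeff i)
  let X₀ : Set (ℂ[X] × ℂ[X]) := {p | IsCoprime p.1 p.2 ∧ max p.1.natDegree p.2.natDegree = e ∧
    ∀ k, ‖p.1.coeff k‖ ≤ A ∧ ‖p.2.coeff k‖ ≤ A}
  have htb : TotallyBounded (vec '' X₀) := by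
    apply (isCompact_closedBall (0 : V) (max A 0)).totallyBounded.subset
    rintro _ ⟨p, ⟨-, -, hp⟩, rfl⟩
    rw [mem_closedBall_zero_iff, Prod.norm_def]
    apply max_le
    · rw [pi_norm_le_iff_of_nonneg (le_max_right _ _)]
      exact fun i => (hp i).1.trans (le_max_left _ _)
    · rw [pi_norm_le_iff_of_nonneg (le_max_right _ _)]
      exact fun i => (hp i).2.trans (le_max_left _ _)
  obtain ⟨t, ht, htf, hcov⟩ := htb.exists_subset (Metric.dist_mem_uniformity hε)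
  have hch : ∀ y : V, ∃ p : ℂ[X] × ℂ[X], y ∈ t → p ∈ X₀ ∧ vec p = y := by
    intro y
    by_cases hy : y ∈ t
    · obtain ⟨p, h1, h2⟩ := ht hy
      exact ⟨p, fun _ => ⟨h1, h2⟩⟩
    · exact ⟨(0, 0), fun h => absurd h hy⟩
  choose pr₁ hpr using hch
  refine ⟨htf.toFinset.image pr₁, ?_, ?_⟩
  · intro p hp
    obtain ⟨y, hy, rfl⟩ := Finset.mem_image.1 hp
    have := (hpr y (htf.mem_toFinset.1 hy)).1
    exact ⟨this.1, this.2.1⟩
  · intro P Q hc hdeg hA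
    have h1 : vec (P, Q) ∈ vec '' X₀ := mem_image_of_mem _ ⟨hc, hdeg, hA⟩
    obtain ⟨y, hy, hPy⟩ := mem_iUnion₂.1 (hcov h1)
    have hPy' : dist (vec (P, Q)) y < ε := hPy
    obtain ⟨hp1, hp2⟩ := hpr y hy
    refine ⟨pr₁ y, Finset.mem_image_of_mem _ (htf.mem_toFinset.2 hy), fun k => ?_⟩
    rw [← hp2] at hPy'
    by_cases hk : k < e + 1
    · rw [Prod.dist_eq] at hPy'
      have h3 := (le_max_left _ _).trans_lt hPy'
      have h4 := (le_max_right _ _).trans_lt hPy'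
      have h5 := (dist_le_pi_dist (vec (P, Q)).1 (vec (pr₁ y)).1 ⟨k, hk⟩).trans_lt h3
      have h6 := (dist_le_pi_dist (vec (P, Q)).2 (vec (pr₁ y)).2 ⟨k, hk⟩).trans_lt h4
      rw [dist_eq_norm] at h5 h6
      exact ⟨h5, h6⟩
    · obtain ⟨e1, e2⟩ := coeff_zero_of_deg (k := k) hdeg.le (by omega)
      obtain ⟨e3, e4⟩ := coeff_zero_of_deg (k := k) hp1.2.1.le (by omega)
      rw [e1, e2, e3, e4, sub_zero, norm_zero]
      exact ⟨hε, hε⟩

theorem net_all (d : ℕ) {ε : ℝ} (hε : 0 < ε) (A : ℝ) :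
    ∃ S : Finset (ℂ[X] × ℂ[X]), (∀ p ∈ S, IsCoprime p.1 p.2 ∧
      2 ≤ max p.1.natDegree p.2.natDegree ∧ max p.1.natDegree p.2.natDegree ≤ d) ∧
      ∀ P Q : ℂ[X], IsCoprime P Q → 2 ≤ max P.natDegree Q.natDegree →
        max P.natDegree Q.natDegree ≤ d →
        (∀ k, ‖P.coeff k‖ ≤ A ∧ ‖Q.coeff k‖ ≤ A) →
        ∃ p ∈ S, max p.1.natDegree p.2.natDegree = max P.natDegree Q.natDegree ∧
          ∀ k, ‖P.coeff k - p.1.coeff k‖ < ε ∧ ‖Q.coeff k - p.2.coeff k‖ < ε := by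
  classical
  choose S hS1 hS2 using fun e => net_deg e hε A
  refine ⟨(Finset.Icc 2 d).biUnion S, fun p hp => ?_, fun P Q hc h2 hd hA => ?_⟩
  · obtain ⟨e, he, hp⟩ := Finset.mem_biUnion.1 hp
    obtain ⟨h1, h2⟩ := hS1 e p hp
    rw [Finset.mem_Icc] at he
    exact ⟨h1, by omega, by omega⟩
  · obtain ⟨p, hp, h⟩ := hS2 _ P Q hc rfl hA
    exact ⟨p, Finset.mem_biUnion.2 ⟨_, Finset.mem_Icc.2 ⟨h2, hd⟩, hp⟩, (hS1 _ p hp).2, h⟩

/-- The main theorem for bases with markers. -/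
theorem main_fib (d : ℕ) {ε : ℝ} (hε : 0 < ε) (A : ℝ) :
    ∃ (n : ℕ) (r C lam : ℝ), 1 ≤ n ∧ 0 < r ∧ 0 ≤ C ∧ 0 < lam ∧ lam < 1 ∧
      ∀ (X : Type) [TopologicalSpace X] (T : X ≃ₜ X) (M Rd : Set X), Mk T n M Rd → SelP X →
      ∀ (D : X → ℕ) (P Q : X → ℂ[X]), LC D →
      (∀ k, Continuous (fun x => (P x).coeff k) ∧ Continuous fun x => (Q x).coeff k) →
      (∀ x, IsCoprime (P x) (Q x) ∧ max (P x).natDegree (Q x).natDegree = D x ∧ 2 ≤ D x ∧ D x ≤ d ∧
        ∀ k, ‖(P x).coeff k‖ ≤ A ∧ ‖(Q x).coeff k‖ ≤ A) →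
      ∃ (P' Q' : X → ℂ[X]) (h : X → Sp → Sp),
        (∀ k, Continuous (fun x => (P' x).coeff k) ∧ Continuous fun x => (Q' x).coeff k) ∧
        (∀ x, IsRat (h x) (P' x) (Q' x) ∧ max (P' x).natDegree (Q' x).natDegree = D x ∧
          ∀ k, ‖(P' x).coeff k - (P x).coeff k‖ < ε ∧ ‖(Q' x).coeff k - (Q x).coeff k‖ < ε) ∧
        HypF (⇑T) h r C lam := by
  classical
  obtain ⟨S, hS1, hS2⟩ := net_all d (half_pos hε) A
  -- a bound for the coefficients of the net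
  obtain ⟨K, hK0, hK⟩ : ∃ K : ℝ, 0 ≤ K ∧ ∀ p ∈ S, ∀ k, ‖p.1.coeff k‖ ≤ K ∧ ‖p.2.coeff k‖ ≤ K := by
    choose K h1 h2 using fun p : ℂ[X] × ℂ[X] => coeff_bound p.1 p.2
    refine ⟨∑ p ∈ S, K p, Finset.sum_nonneg fun p _ => h1 p, fun p hp k => ?_⟩
    have h3 := Finset.single_le_sum (f := K) (fun p _ => h1 p) hp
    exact ⟨(h2 p k).1.trans h3, (h2 p k).2.trans h3⟩
  set δ : ℝ := min (1 / 4) (ε / 2 / (2 * K + 1)) / 2 with hδ
  have hδ0 : 0 < δ := by rw [hδ]; positivity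
  have hδ2 : 2 * K * δ < ε / 2 := by
    have h1 : δ < ε / 2 / (2 * K + 1) := by
      have : min (1 / 4) (ε / 2 / (2 * K + 1)) ≤ ε / 2 / (2 * K + 1) := min_le_right _ _
      have h2 : 0 < min (1 / 4) (ε / 2 / (2 * K + 1)) := by positivity
      rw [hδ]; linarith
    rw [lt_div_iff₀ (by positivity)] at h1
    nlinarith
  let I := {p : ℂ[X] × ℂ[X] // p ∈ S}
  have hpos : ∀ p : I, 0 < max p.1.1.natDegree p.1.2.natDegree := fun p => by
    have := (hS1 p.1 p.2).2.1; omega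
  have hrat : ∀ p : I, IsRat (ratMap p.1.1 p.1.2) p.1.1 p.1.2 := fun p =>
    isRat_ratMap (hS1 p.1 p.2).1 (hpos p)
  obtain ⟨n, r, C, lam, hn, hr, hC, hl0, hl1, hglue⟩ := glue (I := I)
    (g := fun p => ratMap p.1.1 p.1.2) (fun p => good_rat (hrat p) (hS1 p.1 p.2).2.1)
    (fun p => isOpenMap_rat (hrat p) (hpos p)) hδ0
  refine ⟨n, r, C, lam, hn, hr, hC, hl0, hl1, ?_⟩
  intro X _ T M Rd hMk hsel D P Q hD hcont hx
  -- selection of the net points
  obtain ⟨ι, hι, hιR⟩ := hsel I (fun x p => max p.1.1.natDegree p.1.2.natDegree = D x ∧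
      ∀ k, ‖(P x).coeff k - p.1.1.coeff k‖ < ε / 2 ∧ ‖(Q x).coeff k - p.1.2.coeff k‖ < ε / 2)
    (by
      rintro x p ⟨h1, h2⟩
      have h3 : ∀ᶠ y in 𝓝 x, ∀ k ∈ Finset.range (d + 1),
          ‖(P y).coeff k - p.1.1.coeff k‖ < ε / 2 ∧ ‖(Q y).coeff k - p.1.2.coeff k‖ < ε / 2 := by
        refine (Filter.eventually_all_finset _).2 fun k _ => ?_
        have g1 : Continuous fun y => ‖(P y).coeff k - p.1.1.coeff k‖ :=
          ((hcont k).1.sub continuous_const).norm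
        have g2 : Continuous fun y => ‖(Q y).coeff k - p.1.2.coeff k‖ :=
          ((hcont k).2.sub continuous_const).norm
        exact (g1.continuousAt.eventually_lt continuousAt_const (h2 k).1).and
          (g2.continuousAt.eventually_lt continuousAt_const (h2 k).2)
      filter_upwards [h3, hD x] with y h4 h5
      refine ⟨by rw [h5]; exact h1, fun k => ?_⟩
      by_cases hk : k < d + 1
      · exact h4 k (Finset.mem_range.2 hk)
      · obtain ⟨e1, e2⟩ := coeff_zero_of_deg (P := P y) (Q := Q y) (k := k) (e := d)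
          (by rw [(hx y).2.1]; exact (hx y).2.2.2.1) (by omega)
        obtain ⟨e3, e4⟩ := coeff_zero_of_deg (k := k) (e := d) (hS1 p.1 p.2).2.2 (by omega)
        rw [e1, e2, e3, e4, sub_zero, norm_zero]
        exact ⟨half_pos hε, half_pos hε⟩)
    (by
      intro x
      obtain ⟨h1, h2, h3, h4, h5⟩ := hx x
      obtain ⟨p, hp, h6, h7⟩ := hS2 (P x) (Q x) h1 (by omega) (by omega) h5
      exact ⟨⟨p, hp⟩, by rw [← h2]; exact h6, h7⟩)
  obtain ⟨E, hE, hEn, hyp⟩ := hglue X T M Rd hMk ι hι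
  have hlcc : ∀ (f : X → ℂ), LC f → Continuous f := by
    intro f hf
    rw [continuous_iff_continuousAt]
    intro x
    exact continuousAt_const.congr (by filter_upwards [hf x] with y hy using hy.symm)
  refine ⟨fun x => (E x).nu (ι x).1.1 (ι x).1.2, fun x => (E x).de (ι x).1.1 (ι x).1.2,
    fun x z => (E x).act (ratMap (ι x).1.1 (ι x).1.2 z), fun k => ⟨?_, ?_⟩, fun x => ⟨?_, ?_, ?_⟩,
    hyp⟩
  · apply hlcc
    intro x
    filter_upwards [hE x, hι x] with y h1 h2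
    rw [h1, h2]
  · apply hlcc
    intro x
    filter_upwards [hE x, hι x] with y h1 h2
    rw [h1, h2]
  · exact act_isRat (hEn x).2 (hrat (ι x)) (hpos (ι x))
  · rw [act_degree (hEn x).2 (hpos (ι x))]
    exact (hιR x).1
  · intro k
    obtain ⟨h1, h2⟩ := act_close (hEn x).1 (hK (ι x).1 (ι x).2) k
    obtain ⟨h3, h4⟩ := (hιR x).2 k
    constructor
    · calc ‖((E x).nu (ι x).1.1 (ι x).1.2).coeff k - (P x).coeff k‖
          = ‖(((E x).nu (ι x).1.1 (ι x).1.2).coeff k - (ι x).1.1.coeff k) -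
              ((P x).coeff k - (ι x).1.1.coeff k)‖ := by congr 1; ring
        _ ≤ _ := norm_sub_le _ _
        _ < ε := by linarith
    · calc ‖((E x).de (ι x).1.1 (ι x).1.2).coeff k - (Q x).coeff k‖
          = ‖(((E x).de (ι x).1.1 (ι x).1.2).coeff k - (ι x).1.2.coeff k) -
              ((Q x).coeff k - (ι x).1.2.coeff k)‖ := by congr 1; ring
        _ ≤ _ := norm_sub_le _ _
        _ < ε := by linarith

end Pool.Agent.Y334.FS
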